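import Mathlib

/-!
Limit points of a slowly varying function of the mesh.
-/

set_option autoImplicit false

namespace Pool.Agent.H950.EX

open Filter Topology

variable {Y : Type*} [MetricSpace Y]

/-- Subsequential limits exist. -/
def Cpt (f : ℝ → Y) : Prop := ∀ δ : ℕ → ℝ, (∀ i, 0 < δ i) → Tendsto δ atTop (𝓝 0) →
  ∃ φ : ℕ → ℕ, StrictMono φ ∧ ∃ y, Tendsto (fun i => f (δ (φ i))) atTop (𝓝 y)

/-- Slow variation. -/
def Slow (f : ℝ → Y) : Prop := ∀ ε > 0, ∃ η > 0, ∀ δ δ' : ℝ, 0 < δ → 0 < δ' → δ' ≤ η →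
  |δ - δ'| ≤ η * δ' → dist (f δ) (f δ') ≤ ε

theorem clu_iff {f : ℝ → Y} {y : Y} : MapClusterPt y (𝓝[>] (0:ℝ)) f ↔
    ∀ ε > 0, ∀ η > 0, ∃ δ, 0 < δ ∧ δ < η ∧ dist (f δ) y < ε := by
  rw [mapClusterPt_iff_frequently]
  constructor
  · intro h ε hε η hη
    have h1 := h (Metric.ball y ε) (Metric.ball_mem_nhds y hε)
    have h2 : ∀ᶠ δ : ℝ in 𝓝[>] 0, 0 < δ ∧ δ < η := Ioo_mem_nhdsGT hη
    obtain ⟨δ, h3, h4⟩ := (h1.and_eventually h2).exists
    exact ⟨δ, h4.1, h4.2, h3⟩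
  · intro h s hs
    obtain ⟨ε, hε, h1⟩ := Metric.mem_nhds_iff.1 hs
    intro h2
    have h3 : {δ : ℝ | ¬ f δ ∈ s} ∈ 𝓝[>] (0:ℝ) := h2
    rw [mem_nhdsGT_iff_exists_Ioo_subset] at h3
    obtain ⟨η, hη, h4⟩ := h3
    obtain ⟨δ, h5, h6, h7⟩ := h ε hε η hη
    exact h4 ⟨h5, h6⟩ (h1 h7)

theorem clu_of_seq {f : ℝ → Y} {y : Y} {δ : ℕ → ℝ} (h0 : ∀ i, 0 < δ i)
    (h1 : Tendsto δ atTop (𝓝 0)) (h2 : Tendsto (fun i => f (δ i)) atTop (𝓝 y)) :
    MapClusterPt y (𝓝[>] (0:ℝ)) f := by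
  rw [clu_iff]
  intro ε hε η hη
  have h3 := (h1.eventually_lt_const hη).and
    ((Metric.tendsto_nhds.1 h2) ε hε)
  obtain ⟨i, h4, h5⟩ := h3.exists
  exact ⟨δ i, h0 i, h4, h5⟩

/-- Convergence along a sequence of meshes with ratios tending to `1`. -/
theorem seq_lim {f : ℝ → Y} (hS : Slow f) {δ : ℕ → ℝ} (h0 : ∀ i, 0 < δ i)
    (h1 : Tendsto δ atTop (𝓝 0)) (h2 : Tendsto (fun i => δ (i + 1) / δ i) atTop (𝓝 1)) {y : Y}
    (h3 : Tendsto (fun i => f (δ i)) atTop (𝓝 y)) : Tendsto f (𝓝[>] 0) (𝓝 y) := by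
  rw [Metric.tendsto_nhds]
  intro ε hε
  obtain ⟨η, hη, hs⟩ := hS (ε / 2) (by positivity)
  have k1 := Metric.tendsto_nhds.1 h3 (ε / 2) (by positivity)
  have k2 := h1.eventually_le_const hη
  have k3 := h2.eventually_const_le (show 1 - η < 1 by linarith)
  obtain ⟨K, hK⟩ := (k1.and (k2.and k3)).exists_forall_of_atTop
  have h4 : ∀ᶠ x : ℝ in 𝓝[>] 0, 0 < x ∧ x < δ K := Ioo_mem_nhdsGT (h0 K)
  filter_upwards [h4] with x hx
  obtain ⟨hx0, hx1⟩ := hx
  have hex : ∃ j, δ (K + j) < x := by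
    obtain ⟨J, hJ⟩ := (h1.eventually_lt_const hx0).exists_forall_of_atTop
    exact ⟨J, hJ _ (by omega)⟩
  classical
  obtain ⟨j, hj⟩ : ∃ j, j = Nat.find hex := ⟨_, rfl⟩
  have hj1 : δ (K + j) < x := by rw [hj]; exact Nat.find_spec hex
  have hj0 : 0 < j := by
    rcases Nat.eq_zero_or_pos j with h | h
    · rw [h, add_zero] at hj1
      linarith
    · exact h
  have hj2 : x ≤ δ (K + (j - 1)) := by
    by_contra hcon
    push Not at hcon
    have := Nat.find_min' hex hcon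
    omega
  obtain ⟨g1, g2, g3⟩ := hK (K + (j - 1)) (by omega)
  rw [show K + (j - 1) + 1 = K + j by omega, le_div_iff₀ (h0 _)] at g3
  have g4 := hs x (δ (K + (j - 1))) hx0 (h0 _) g2 (by
    rw [abs_le]
    have := h0 (K + (j - 1))
    constructor
    · linarith
    · nlinarith)
  calc dist (f x) y ≤ dist (f x) (f (δ (K + (j - 1)))) + dist (f (δ (K + (j - 1)))) y :=
        dist_triangle _ _ _
    _ < ε := by linarith

theorem clu_nonempty {f : ℝ → Y} (hC : Cpt f) : {y | MapClusterPt y (𝓝[>] (0:ℝ)) f}.Nonempty := by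
  obtain ⟨φ, hφ, y, hy⟩ := hC (fun i => 1 / ((i:ℝ) + 1)) (fun i => by positivity)
    tendsto_one_div_add_atTop_nhds_zero_nat
  exact ⟨y, clu_of_seq (δ := fun i => 1 / ((φ i : ℝ) + 1)) (fun i => by positivity)
    (tendsto_one_div_add_atTop_nhds_zero_nat.comp hφ.tendsto_atTop) hy⟩

theorem clu_compact {f : ℝ → Y} (hC : Cpt f) : IsCompact {y | MapClusterPt y (𝓝[>] (0:ℝ)) f} := by
  apply IsSeqCompact.isCompact
  intro x hx
  have h1 : ∀ i : ℕ, ∃ δ : ℝ, 0 < δ ∧ δ < 1 / ((i:ℝ) + 1) ∧ dist (f δ) (x i) < 1 / ((i:ℝ) + 1) :=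
    fun i => clu_iff.1 (hx i) _ (by positivity) _ (by positivity)
  choose δ h2 h3 h4 using h1
  have h5 : Tendsto δ atTop (𝓝 0) := squeeze_zero (fun i => (h2 i).le) (fun i => (h3 i).le)
    tendsto_one_div_add_atTop_nhds_zero_nat
  obtain ⟨φ, hφ, y, hy⟩ := hC δ h2 h5
  refine ⟨y, clu_of_seq (fun i => h2 (φ i)) (h5.comp hφ.tendsto_atTop) hy, φ, hφ, ?_⟩
  rw [tendsto_iff_dist_tendsto_zero] at hy ⊢
  have h6 : Tendsto (fun i => dist (f (δ (φ i))) (x (φ i))) atTop (𝓝 0) :=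
    squeeze_zero (fun i => dist_nonneg) (fun i => (h4 (φ i)).le)
      (tendsto_one_div_add_atTop_nhds_zero_nat.comp hφ.tendsto_atTop)
  have h7 := h6.add hy
  rw [add_zero] at h7
  refine squeeze_zero (fun i => dist_nonneg) (fun i => ?_) h7
  rw [dist_comm (f (δ (φ i))) (x (φ i))]
  exact dist_triangle _ _ _

theorem clu_near {f : ℝ → Y} (hC : Cpt f) {U : Set Y} (hU : IsOpen U)
    (h : {y | MapClusterPt y (𝓝[>] (0:ℝ)) f} ⊆ U) : ∃ η > 0, ∀ δ, 0 < δ → δ < η → f δ ∈ U := by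
  by_contra hcon
  push Not at hcon
  have h1 : ∀ i : ℕ, ∃ δ : ℝ, 0 < δ ∧ δ < 1 / ((i:ℝ) + 1) ∧ f δ ∉ U := fun i =>
    hcon _ (by positivity)
  choose δ h2 h3 h4 using h1
  have h5 : Tendsto δ atTop (𝓝 0) := squeeze_zero (fun i => (h2 i).le) (fun i => (h3 i).le)
    tendsto_one_div_add_atTop_nhds_zero_nat
  obtain ⟨φ, hφ, y, hy⟩ := hC δ h2 h5
  have h6 : y ∈ U := h (clu_of_seq (fun i => h2 (φ i)) (h5.comp hφ.tendsto_atTop) hy)
  obtain ⟨i, hi⟩ := (hy.eventually_mem (hU.mem_nhds h6)).exists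
  exact h4 _ hi

theorem clu_conn {f : ℝ → Y} (hC : Cpt f) (hS : Slow f) :
    IsConnected {y | MapClusterPt y (𝓝[>] (0:ℝ)) f} := by
  refine ⟨clu_nonempty hC, ?_⟩
  obtain ⟨L, hL⟩ : ∃ L, L = {y | MapClusterPt y (𝓝[>] (0:ℝ)) f} := ⟨_, rfl⟩
  rw [← hL]
  have hLc : IsCompact L := by rw [hL]; exact clu_compact hC
  rw [isPreconnected_closed_iff]
  intro t t' ht ht' hsub hn hn'
  by_contra hcon
  rw [Set.not_nonempty_iff_eq_empty] at hcon
  have hdis : Disjoint (L ∩ t) (L ∩ t') := by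
    rw [Set.disjoint_iff_inter_eq_empty, ← hcon]
    ext z
    simp only [Set.mem_inter_iff]
    tauto
  obtain ⟨ρ, hρ, hT⟩ := hdis.exists_thickenings (hLc.inter_right ht) (hLc.isClosed.inter ht')
  have hcov : {y | MapClusterPt y (𝓝[>] (0:ℝ)) f} ⊆
      Metric.thickening (ρ / 3) (L ∩ t) ∪ Metric.thickening (ρ / 3) (L ∩ t') := by
    intro y hy
    rw [← hL] at hy
    rcases hsub hy with h | h
    · exact Or.inl (Metric.self_subset_thickening (by positivity) _ ⟨hy, h⟩)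
    · exact Or.inr (Metric.self_subset_thickening (by positivity) _ ⟨hy, h⟩)
  obtain ⟨η1, hη1, h1⟩ := clu_near hC
    (Metric.isOpen_thickening.union Metric.isOpen_thickening) hcov
  obtain ⟨η2, hη2, h2⟩ := hS (ρ / 3) (by positivity)
  obtain ⟨η, hη⟩ : ∃ η : ℝ, η = min (min η1 η2) (1 / 2) := ⟨_, rfl⟩
  have hη0 : 0 < η := by rw [hη]; exact lt_min (lt_min hη1 hη2) (by norm_num)
  have hηa : η ≤ η1 := by rw [hη]; exact (min_le_left _ _).trans (min_le_left _ _)
  have hηb : η ≤ η2 := by rw [hη]; exact (min_le_left _ _).trans (min_le_right _ _)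
  have hηc : η ≤ 1 / 2 := by rw [hη]; exact min_le_right _ _
  obtain ⟨a, haL, hat⟩ := hn
  obtain ⟨b, hbL, hbt⟩ := hn'
  have haL' := haL
  have hbL' := hbL
  rw [hL] at haL' hbL'
  obtain ⟨δ1, p1, p2, p3⟩ := clu_iff.1 haL' (ρ / 3) (by positivity) η hη0
  obtain ⟨δ2, q1, q2, q3⟩ := clu_iff.1 hbL' (ρ / 3) (by positivity) δ1 p1
  obtain ⟨x, hx⟩ : ∃ x : ℕ → ℝ, x = fun j => max δ2 (δ1 * (1 - η) ^ j) := ⟨_, rfl⟩
  have hq0 : 0 < 1 - η := by linarith
  have hx0 : ∀ j, 0 < x j := fun j => by rw [hx]; exact lt_max_of_lt_left q1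
  have hxl : ∀ j, x j ≤ δ1 := by
    intro j
    rw [hx]
    apply max_le q2.le
    have : (1 - η) ^ j ≤ 1 := pow_le_one₀ hq0.le (by linarith)
    nlinarith
  have hstep : ∀ j, |x (j + 1) - x j| ≤ η * x j := by
    intro j
    have e1 : x (j + 1) ≤ x j := by
      rw [hx]
      simp only
      apply max_le (le_max_left _ _)
      refine le_trans ?_ (le_max_right _ _)
      rw [pow_succ]
      have : 0 ≤ δ1 * (1 - η) ^ j := by positivity
      nlinarith
    have e2 : (1 - η) * x j ≤ x (j + 1) := by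
      rw [hx]
      simp only
      rw [mul_max_of_nonneg _ _ hq0.le]
      apply max_le_max
      · nlinarith
      · rw [pow_succ]
        apply le_of_eq
        ring
    rw [abs_le]
    constructor <;> linarith [hx0 j]
  have hind : ∀ j, f (x j) ∈ Metric.thickening (ρ / 3) (L ∩ t) := by
    intro j
    induction j with
    | zero =>
      have : x 0 = δ1 := by
        rw [hx]
        simp only [pow_zero, mul_one]
        exact max_eq_right q2.le
      rw [this, Metric.mem_thickening_iff]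
      exact ⟨a, ⟨haL, hat⟩, p3⟩
    | succ j ih =>
      have e1 : x (j + 1) < η1 := by linarith [hxl (j + 1)]
      rcases h1 _ (hx0 _) e1 with h | h
      · exact h
      · exfalso
        have e2 := h2 (x (j + 1)) (x j) (hx0 _) (hx0 _) (by linarith [hxl j]) (by
          refine (hstep j).trans ?_
          exact mul_le_mul_of_nonneg_right hηb (hx0 j).le)
        rw [Metric.mem_thickening_iff] at ih h
        obtain ⟨z, hz, hz'⟩ := ih
        obtain ⟨w, hw, hw'⟩ := h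
        have e3 : f (x (j + 1)) ∈ Metric.thickening ρ (L ∩ t) := by
          rw [Metric.mem_thickening_iff]
          refine ⟨z, hz, ?_⟩
          calc dist (f (x (j + 1))) z ≤ dist (f (x (j + 1))) (f (x j)) + dist (f (x j)) z :=
                dist_triangle _ _ _
            _ < ρ := by linarith
        have e4 : f (x (j + 1)) ∈ Metric.thickening ρ (L ∩ t') := by
          rw [Metric.mem_thickening_iff]
          exact ⟨w, hw, by linarith⟩
        exact (Set.disjoint_left.1 hT) e3 e4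
  -- the end
  have hend : ∃ j, x j = δ2 := by
    have h3 : Tendsto (fun j : ℕ => δ1 * (1 - η) ^ j) atTop (𝓝 (δ1 * 0)) :=
      (tendsto_pow_atTop_nhds_zero_of_lt_one hq0.le (by linarith)).const_mul _
    rw [mul_zero] at h3
    obtain ⟨j, hj⟩ := (h3.eventually_lt_const q1).exists
    refine ⟨j, ?_⟩
    rw [hx]
    exact max_eq_left hj.le
  obtain ⟨j, hj⟩ := hend
  have e3 := Metric.thickening_mono (show ρ / 3 ≤ ρ by linarith) _ (hind j)
  rw [hj] at e3
  have e4 : f δ2 ∈ Metric.thickening ρ (L ∩ t') := by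
    rw [Metric.mem_thickening_iff]
    exact ⟨b, ⟨hbL, hbt⟩, by linarith⟩
  exact (Set.disjoint_left.1 hT) e3 e4

/-- Approximation by convergent functions. -/
theorem approx_lim {ι : Type*} {l : Filter ι} {f : ι → Y} {y : Y} (hy : MapClusterPt y l f)
    (h : ∀ ε > 0, ∃ (g : ι → Y) (z : Y), Tendsto g l (𝓝 z) ∧ ∀ᶠ i in l, dist (f i) (g i) ≤ ε) :
    Tendsto f l (𝓝 y) := by
  rw [Metric.tendsto_nhds]
  intro ε hε
  obtain ⟨g, z, h1, h2⟩ := h (ε / 6) (by positivity)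
  have h3 := Metric.tendsto_nhds.1 h1 (ε / 6) (by positivity)
  have h4 : ∀ᶠ i in l, dist (f i) z < ε / 3 := by
    filter_upwards [h2, h3] with i a b
    calc dist (f i) z ≤ dist (f i) (g i) + dist (g i) z := dist_triangle _ _ _
      _ < ε / 3 := by linarith
  have h5 : dist z y ≤ 2 * ε / 3 := by
    rw [mapClusterPt_iff_frequently] at hy
    obtain ⟨i, a, b⟩ := ((hy (Metric.ball y (ε / 3)) (Metric.ball_mem_nhds y
      (by positivity))).and_eventually h4).exists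
    rw [Metric.mem_ball] at a
    calc dist z y ≤ dist z (f i) + dist (f i) y := dist_triangle _ _ _
      _ ≤ 2 * ε / 3 := by rw [dist_comm z]; linarith
  filter_upwards [h4] with i a
  calc dist (f i) y ≤ dist (f i) z + dist z y := dist_triangle _ _ _
    _ < ε := by linarith

/-- Compactness of a sequence. -/
theorem compact_range {x : ℕ → Y} (h : ∀ φ : ℕ → ℕ, StrictMono φ → ∃ ψ : ℕ → ℕ, StrictMono ψ ∧
    ∃ y, Tendsto (fun i => x (φ (ψ i))) atTop (𝓝 y)) : IsCompact (closure (Set.range x)) := by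
  apply IsSeqCompact.isCompact
  intro z hz
  have h1 : ∀ i : ℕ, ∃ k : ℕ, dist (x k) (z i) < 1 / ((i:ℝ) + 1) := by
    intro i
    obtain ⟨w, ⟨k, rfl⟩, hk⟩ := Metric.mem_closure_iff.1 (hz i) (1 / ((i:ℝ) + 1)) (by positivity)
    exact ⟨k, by rw [dist_comm]; exact hk⟩
  choose k hk using h1
  have key : ∃ φ : ℕ → ℕ, StrictMono φ ∧ ∃ y, Tendsto (fun i => x (k (φ i))) atTop (𝓝 y) := by
    by_cases hb : ∃ N, ∃ᶠ i in atTop, k i = N
    · obtain ⟨N, hN⟩ := hb
      obtain ⟨φ, hφ, h2⟩ := Filter.extraction_of_frequently_atTop hN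
      refine ⟨φ, hφ, x N, ?_⟩
      have : (fun i => x (k (φ i))) = fun _ => x N := by
        funext i
        rw [h2 i]
      rw [this]
      exact tendsto_const_nhds
    · push Not at hb
      have h2 : Tendsto k atTop atTop := by
        rw [← Nat.cofinite_eq_atTop, tendsto_def]
        intro s hs
        rw [Nat.cofinite_eq_atTop] at *
        rw [mem_atTop_sets] at hs
        obtain ⟨M, hM⟩ := hs
        have h3 : ∀ᶠ i in atTop, ∀ N ∈ Finset.range M, k i ≠ N := by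
          rw [Filter.eventually_all_finset]
          intro N _
          exact (hb N)
        filter_upwards [h3] with i hi
        apply hM
        by_contra hcon
        push Not at hcon
        exact hi (k i) (Finset.mem_range.2 hcon) rfl
      obtain ⟨φ, hφ, h3⟩ := strictMono_subseq_of_tendsto_atTop h2
      obtain ⟨ψ, hψ, y, hy⟩ := h (k ∘ φ) h3
      exact ⟨φ ∘ ψ, hφ.comp hψ, y, hy⟩
  obtain ⟨φ, hφ, y, hy⟩ := key
  have h8 : Tendsto (fun i => z (φ i)) atTop (𝓝 y) := by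
    rw [tendsto_iff_dist_tendsto_zero] at hy ⊢
    have h6 : Tendsto (fun i => dist (x (k (φ i))) (z (φ i))) atTop (𝓝 0) :=
      squeeze_zero (fun i => dist_nonneg) (fun i => (hk (φ i)).le)
        (tendsto_one_div_add_atTop_nhds_zero_nat.comp hφ.tendsto_atTop)
    have h7 := h6.add hy
    rw [add_zero] at h7
    refine squeeze_zero (fun i => dist_nonneg) (fun i => ?_) h7
    rw [dist_comm (x (k (φ i))) (z (φ i))]
    exact dist_triangle _ _ _
  exact ⟨y, isClosed_closure.mem_of_tendsto h8 (Eventually.of_forall fun i => hz _), φ, hφ, h8⟩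

/-- Diagonal sequences. -/
theorem diag {x : ℕ → ℕ → Y} (h : ∀ n, ∀ φ : ℕ → ℕ, StrictMono φ → ∃ ψ : ℕ → ℕ, StrictMono ψ ∧
    ∃ y, Tendsto (fun i => x n (φ (ψ i))) atTop (𝓝 y)) : ∃ φ : ℕ → ℕ, StrictMono φ ∧
    ∀ n, ∃ y, Tendsto (fun i => x n (φ i)) atTop (𝓝 y) := by
  have h1 : IsCompact (Set.pi Set.univ fun n => closure (Set.range (x n))) :=
    isCompact_univ_pi fun n => compact_range (h n)
  obtain ⟨a, -, φ, hφ, h2⟩ := h1.tendsto_subseq (x := fun k n => x n k)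
    (fun k n _ => subset_closure ⟨k, rfl⟩)
  exact ⟨φ, hφ, fun n => ⟨a n, (tendsto_pi_nhds.1 h2) n⟩⟩

end Pool.Agent.H950.EX
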