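import Pool.Agent.H950.EX.Inn

/-!
The exploration paths of two similar rectangles.
-/

set_option autoImplicit false

namespace Pool.Agent.H950.EX

open H974 H12S H389NS H984N H984P H342P H443B Finset
open Pool.Agent.N116.EW
open H342L (cdist Curve)

variable {D D' : Dm} {F G F' : Finset Edg} {s : ℤ} {k : ℕ}

theorem pow_exp {x a b : ℝ} (h0 : 0 < x) (h1 : x ≤ 1) (h2 : a ≤ b) : x ^ b ≤ x ^ a :=
  Real.rpow_le_rpow_of_exponent_ge h0 h1 h2

/-- **Nested rectangles.** -/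
theorem nest : ∃ (e : ℝ), 0 < e ∧ e ≤ 1 ∧ ∀ κ : ℝ, 0 < κ → κ ≤ 1 → ∃ C : ℝ, 0 < C ∧
    ∀ (D : Dm) (s : ℤ) (n k : ℕ) (δ : ℝ) (kl kr kt : ℕ), 1 ≤ k → k ≤ n → kl ≤ k → kr ≤ k →
    kt ≤ k → Wide D s → κ * n ≤ s → D.r - D.l ≤ n → D.h + 1 ≤ n → 0 ≤ δ →
    PQ (1/2) D.edges (fun F => ¬ (cdist (crv (inn D kl kr kt) δ (F ∩ (inn D kl kr kt).edges))
      (crv D δ F) ≤ C * (δ * n) * ((k:ℝ) / n) ^ e)) ≤ C * ((k:ℝ) / n) ^ e := by
  obtain ⟨E, hE, hI⟩ := stepI
  have hE0 : (0:ℝ) < E := by exact_mod_cast hE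
  have hE1 : (1:ℝ) ≤ E := by exact_mod_cast hE
  refine ⟨1 / E, by positivity, by rw [div_le_one hE0]; exact hE1, ?_⟩
  intro κ hκ hκ1
  obtain ⟨C, hC, hst⟩ := hI κ hκ hκ1
  refine ⟨400 / κ + 99 + 2 * C, by positivity, ?_⟩
  intro D s n k δ kl kr kt hk hkn h1 h2 h3 hW hs hDn hDh hδ
  have ok := okq (q := 1/2) (by norm_num) (by norm_num)
  have hk0 : (0:ℝ) < k := by exact_mod_cast hk
  have hk1 : (1:ℝ) ≤ k := by exact_mod_cast hk
  have hn0 : (0:ℝ) < n := by exact_mod_cast (by omega : 0 < n)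
  have hkn' : (k:ℝ) / n ≤ 1 := by rw [div_le_one hn0]; exact_mod_cast hkn
  have hkn0 : 0 < (k:ℝ) / n := by positivity
  obtain ⟨x, hx⟩ : ∃ x : ℝ, x = ((k:ℝ) / n) ^ (1 / (E:ℝ)) := ⟨_, rfl⟩
  have hx0 : 0 < x := by rw [hx]; positivity
  have hxE : x ^ E = (k:ℝ) / n := by
    rw [hx, ← Real.rpow_natCast, ← Real.rpow_mul hkn0.le, one_div, inv_mul_cancel₀ hE0.ne',
      Real.rpow_one]
  have hkx : (k:ℝ) / n ≤ x := by
    rw [hx]
    calc (k:ℝ) / n = ((k:ℝ) / n) ^ (1:ℝ) := (Real.rpow_one _).symm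
      _ ≤ _ := pow_exp hkn0 hkn' (by rw [div_le_one hE0]; exact hE1)
  obtain ⟨L, hL⟩ : ∃ L : ℝ, L = ((n:ℝ) / ((k + 1 : ℕ) : ℝ)) ^ (1 / (E:ℝ)) := ⟨_, rfl⟩
  have hnk0 : 0 < (n:ℝ) / ((k + 1 : ℕ) : ℝ) := by positivity
  have hL0 : 0 < L := by rw [hL]; positivity
  have hLE : L ^ E = (n:ℝ) / ((k + 1 : ℕ) : ℝ) := by
    rw [hL, ← Real.rpow_natCast, ← Real.rpow_mul hnk0.le, one_div, inv_mul_cancel₀ hE0.ne',
      Real.rpow_one]
  -- `L` and `x`
  have hLx : 1 ≤ 2 * x * L := by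
    have h4 : (1:ℝ) ≤ (2 * x * L) ^ E := by
      rw [mul_pow, mul_pow, hxE, hLE]
      have h5 : (2:ℝ) ≤ 2 ^ E := by
        calc (2:ℝ) = 2 ^ 1 := (pow_one _).symm
          _ ≤ 2 ^ E := pow_le_pow_right₀ (by norm_num) hE
      have h6 : (2:ℝ) * ((k:ℝ) / n) * (n / ((k + 1 : ℕ) : ℝ)) = 2 * k / (k + 1) := by
        push_cast
        field_simp
      have h7 : (1:ℝ) ≤ 2 * k / (k + 1) := by
        rw [le_div_iff₀ (by positivity)]
        linarith
      calc (1:ℝ) ≤ 2 * ((k:ℝ) / n) * (n / ((k + 1 : ℕ) : ℝ)) := by rw [h6]; exact h7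
        _ ≤ 2 ^ E * ((k:ℝ) / n) * (n / ((k + 1 : ℕ) : ℝ)) := by
          apply mul_le_mul_of_nonneg_right _ hnk0.le
          exact mul_le_mul_of_nonneg_right h5 hkn0.le
    by_contra hcon
    push Not at hcon
    have := pow_lt_one₀ (by positivity) hcon (by omega : E ≠ 0)
    linarith
  by_cases hLκ : 200 / κ ≤ L
  · have hm := hst D s n k L δ kl kr kt hk h1 h2 h3 hW hs hDn hDh hLκ hδ hLE
    have hLinv : 1 / L ≤ 2 * x := by
      rw [div_le_iff₀ hL0]
      exact hLx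
    refine (Pr_mono ok ?_).trans (hm.trans ?_)
    · intro F hF hbad hcon
      apply hbad
      refine hcon.trans ?_
      rw [← hx]
      have h4 : (24 * (n / L) + 2 * k + 49 : ℝ) ≤ n * (99 * x) := by
        have h5 : (n:ℝ) / L ≤ n * (2 * x) := by
          rw [div_eq_mul_one_div]
          exact mul_le_mul_of_nonneg_left hLinv hn0.le
        have h6 : (k:ℝ) ≤ n * x := by
          rw [div_le_iff₀ hn0] at hkx
          linarith
        linarith
      calc δ * (24 * (n / L) + 2 * k + 49) ≤ δ * (n * (99 * x)) :=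
            mul_le_mul_of_nonneg_left h4 hδ
        _ = 99 * (δ * n) * x := by ring
        _ ≤ (400 / κ + 99 + 2 * C) * (δ * n) * x := by
          apply mul_le_mul_of_nonneg_right _ hx0.le
          apply mul_le_mul_of_nonneg_right _ (by positivity)
          have : 0 ≤ 400 / κ := by positivity
          linarith
    · rw [← hx, div_eq_mul_one_div]
      calc C * (1 / L) ≤ C * (2 * x) := mul_le_mul_of_nonneg_left hLinv hC.le
        _ = 2 * C * x := by ring
        _ ≤ (400 / κ + 99 + 2 * C) * x := by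
          apply mul_le_mul_of_nonneg_right _ hx0.le
          have : 0 ≤ 400 / κ := by positivity
          linarith
  · push Not at hLκ
    refine (Pr_le_one ok _ _).trans ?_
    rw [← hx]
    have h4 : 1 ≤ 2 * x * (200 / κ) := hLx.trans (mul_le_mul_of_nonneg_left hLκ.le (by positivity))
    have h5 : 1 ≤ 400 / κ * x := by
      calc (1:ℝ) ≤ 2 * x * (200 / κ) := h4
        _ = 400 / κ * x := by ring
    have h6 : 0 ≤ (99 + 2 * C) * x := by positivity
    nlinarith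

/-- **Moving the first point.** -/
theorem move : ∃ C e : ℝ, 0 < C ∧ 0 < e ∧ e ≤ 1 ∧ ∀ (D D' : Dm) (n k : ℕ) (δ : ℝ), D.Ok →
    D'.Ok → 1 ≤ k → k ≤ n → D'.l = D.l → D'.r = D.r → D'.h = D.h → |D.t - D'.t| ≤ k → 0 ≤ δ →
    PQ (1/2) D.edges (fun F => ¬ (cdist (crv D δ F) (crv D' δ F) ≤
      C * (δ * n) * ((k:ℝ) / n) ^ e)) ≤ C * ((k:ℝ) / n) ^ e := by
  obtain ⟨C, c, hC, hc, hM⟩ := stepM
  refine ⟨C + 31, min (1/2) (c/2), by positivity, lt_min (by norm_num) (by positivity),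
    (min_le_left _ _).trans (by norm_num), ?_⟩
  intro D D' n k δ hD hD' hk hkn el er eh ht hδ
  have ok := okq (q := 1/2) (by norm_num) (by norm_num)
  have hk0 : (0:ℝ) < k := by exact_mod_cast hk
  have hk1 : (1:ℝ) ≤ k := by exact_mod_cast hk
  have hn0 : (0:ℝ) < n := by exact_mod_cast (by omega : 0 < n)
  have hknr : (k:ℝ) ≤ n := by exact_mod_cast hkn
  have hkn' : (k:ℝ) / n ≤ 1 := by rw [div_le_one hn0]; exact hknr
  have hkn0 : 0 < (k:ℝ) / n := by positivity
  obtain ⟨x, hx⟩ : ∃ x : ℝ, x = ((k:ℝ) / n) ^ (min (1/2) (c/2)) := ⟨_, rfl⟩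
  have hx0 : 0 < x := by rw [hx]; positivity
  obtain ⟨y, hy⟩ : ∃ y : ℝ, y = ((k:ℝ) / n) ^ (1/2 : ℝ) := ⟨_, rfl⟩
  have hy0 : 0 < y := by rw [hy]; positivity
  have hyx : y ≤ x := by rw [hx, hy]; exact pow_exp hkn0 hkn' (min_le_left _ _)
  have hy2 : y * y = (k:ℝ) / n := by
    rw [hy, ← Real.rpow_add hkn0]
    norm_num
  have hy1 : y ≤ 1 := by
    rw [hy]
    exact Real.rpow_le_one hkn0.le hkn' (by norm_num)
  have hyc : y ^ c ≤ x := by
    rw [hy, ← Real.rpow_mul hkn0.le, hx]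
    exact pow_exp hkn0 hkn' ((min_le_right _ _).trans (by linarith))
  obtain ⟨ρ, hρ⟩ : ∃ ρ : ℕ, ρ = ⌈(n:ℝ) * y⌉₊ := ⟨_, rfl⟩
  have hρ1 : (n:ℝ) * y ≤ ρ := by rw [hρ]; exact Nat.le_ceil _
  have hρ2 : (ρ:ℝ) ≤ n * y + 1 := by
    rw [hρ]
    exact (Nat.ceil_lt_add_one (by positivity)).le
  have hkny : (k:ℝ) = n * y * y := by
    rw [mul_assoc, hy2]
    field_simp
  have hkρ : (k:ℝ) ≤ n * y := by
    rw [hkny]
    calc (n:ℝ) * y * y ≤ n * y * 1 := mul_le_mul_of_nonneg_left hy1 (by positivity)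
      _ = n * y := mul_one _
  have hdist : δ * (10 * (ρ:ℝ) + 11) ≤ (C + 31) * (δ * n) * x := by
    have h5 : (1:ℝ) ≤ n * y := hk1.trans hkρ
    have h6 : 10 * (ρ:ℝ) + 11 ≤ n * (31 * y) := by nlinarith
    calc δ * (10 * (ρ:ℝ) + 11) ≤ δ * (n * (31 * y)) := mul_le_mul_of_nonneg_left h6 hδ
      _ ≤ δ * (n * (31 * x)) := by
        apply mul_le_mul_of_nonneg_left _ hδ
        apply mul_le_mul_of_nonneg_left _ hn0.le
        linarith
      _ = 31 * (δ * n) * x := by ring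
      _ ≤ (C + 31) * (δ * n) * x := by
        apply mul_le_mul_of_nonneg_right _ hx0.le
        apply mul_le_mul_of_nonneg_right _ (by positivity)
        linarith
  have key : ∀ (A : Dm) (q : ℕ), A.Ok → A.edges = D.edges → q ≤ k → A.t + q ≤ A.r →
      PQ (1/2) D.edges (fun F => ¬ (cdist (crv A δ F) (crv (mvD A (A.t + q)) δ F) ≤
      (C + 31) * (δ * n) * x)) ≤ (C + 31) * x := by
    intro A q hA hAe hqk hqr
    rcases Nat.eq_zero_or_pos q with rfl | hq
    · have h7 : mvD A (A.t + (0:ℕ)) = A := by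
        unfold mvD
        rw [Nat.cast_zero, add_zero]
      rw [h7]
      have h8 : PQ (1/2) D.edges (fun F => ¬ (cdist (crv A δ F) (crv A δ F) ≤
          (C + 31) * (δ * n) * x)) = 0 := by
        unfold PQ
        rw [Pr_not, Pr_true, sub_self]
        intro F _
        rw [H342L.cdist_self]
        positivity
      rw [h8]
      positivity
    · have h7 := hM A q ρ δ hA hq (by
        have : (q:ℝ) ≤ ρ := by
          have : (q:ℝ) ≤ k := by exact_mod_cast hqk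
          linarith
        exact_mod_cast this) hqr hδ
      rw [hAe] at h7
      refine (Pr_mono ok ?_).trans (h7.trans ?_)
      · intro F _ hbad hcon
        exact hbad (hcon.trans hdist)
      · have h8 : (q:ℝ) / ρ ≤ y := by
          have hρ0 : (0:ℝ) < ρ := by
            have : 0 < (n:ℝ) * y := by positivity
            linarith
          rw [div_le_iff₀ hρ0]
          calc (q:ℝ) ≤ k := by exact_mod_cast hqk
            _ = n * y * y := hkny
            _ ≤ ρ * y := mul_le_mul_of_nonneg_right hρ1 hy0.le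
            _ = y * ρ := mul_comm _ _
        calc C * ((q:ℝ) / ρ) ^ c ≤ C * y ^ c := by
              apply mul_le_mul_of_nonneg_left _ hC.le
              exact Real.rpow_le_rpow (by positivity) h8 hc.le
          _ ≤ C * x := mul_le_mul_of_nonneg_left hyc hC.le
          _ ≤ (C + 31) * x := by
            apply mul_le_mul_of_nonneg_right _ hx0.le
            linarith
  rw [← hx]
  have ht' := abs_le.1 ht
  obtain ⟨l, r, h, t⟩ := D
  obtain ⟨l', r', h', t'⟩ := D'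
  simp only at el er eh ht ht'
  subst el er eh
  rcases le_total t t' with htt | htt
  · have h7 := key ⟨l', r', h', t⟩ (t' - t).toNat hD rfl (by omega) (by
      have := hD'.le_r
      simp only at this ⊢
      omega)
    have h8 : mvD ⟨l', r', h', t⟩ (t + ((t' - t).toNat : ℕ)) = ⟨l', r', h', t'⟩ := by
      unfold mvD
      rw [show t + (((t' - t).toNat : ℕ) : ℤ) = t' by omega]
    simp only at h7
    rw [h8] at h7
    exact h7
  · have h7 := key ⟨l', r', h', t'⟩ (t - t').toNat hD' rfl (by omega) (by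
      have := hD.le_r
      simp only at this ⊢
      omega)
    have h8 : mvD ⟨l', r', h', t'⟩ (t' + ((t - t').toNat : ℕ)) = ⟨l', r', h', t⟩ := by
      unfold mvD
      rw [show t' + (((t - t').toNat : ℕ) : ℤ) = t by omega]
    simp only at h7
    rw [h8] at h7
    refine le_trans (Pr_mono ok ?_) h7
    intro F _ hbad hcon
    apply hbad
    rw [H342L.cdist_comm]
    exact hcon

end Pool.Agent.H950.EX
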