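import Pool.Agent.H950.EX.Pair

/-!
The exploration paths of two similar rectangles with different meshes.
-/

set_option autoImplicit false

namespace Pool.Agent.H950.EX

open H974 H12S H389NS H984N H984P H342P H443B Finset
open Pool.Agent.N116.EW
open H342L (cdist Curve)

variable {D D' : Dm} {F G F' : Finset Edg} {s : ℤ} {k : ℕ}

/-- The lattice rectangle with mesh `δ` is not degenerate. -/
structure Fat (κ : ℝ) (D : Dm) (δ : ℝ) : Prop where
  l : κ ≤ -(δ * D.l)
  r : κ ≤ δ * D.r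
  h : κ ≤ δ * D.h
  tl : κ ≤ δ * D.t - δ * D.l
  tr : κ ≤ δ * D.r - δ * D.t
  l' : -(δ * D.l) ≤ 1 / κ
  r' : δ * D.r ≤ 1 / κ
  h' : δ * D.h ≤ 1 / κ

/-- Two lattice rectangles with meshes `δ`, `δ'` are close. -/
structure Near (u : ℝ) (D : Dm) (δ : ℝ) (D' : Dm) (δ' : ℝ) : Prop where
  l : |δ * D.l - δ' * D'.l| ≤ u
  r : |δ * D.r - δ' * D'.r| ≤ u
  h : |δ * D.h - δ' * D'.h| ≤ u
  t : |δ * D.t - δ' * D'.t| ≤ u
  m : |δ - δ'| ≤ u * δ'
  d : δ' ≤ u

/-- Change of the mesh. -/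
theorem crv_mesh {κ δ δ' u : ℝ} (hκ : 0 < κ) (hκ1 : κ ≤ 1) (hδ : 0 < δ) (hδ' : 0 < δ')
    (hu : u ≤ 1 / 8) (hD : Fat κ D δ) (hm : |δ - δ'| ≤ u * δ') (hd : δ' ≤ u)
    (hF : F ⊆ D.edges) : cdist (crv D δ F) (crv D δ' F) ≤ 12 / κ * u := by
  have hOk : D.Ok := by
    obtain ⟨h1, h2, h3, h4, h5, -, -, -⟩ := hD
    have p1 : δ * D.l < 0 := by linarith
    have p2 : 0 < δ * D.r := by linarith
    have p3 : 0 < δ * D.h := by linarith
    have p4 : δ * D.l < δ * D.t := by linarith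
    have p5 : δ * D.t < δ * D.r := by linarith
    have q4 : (D.l : ℝ) < D.t := lt_of_mul_lt_mul_left p4 hδ.le
    have q5 : (D.t : ℝ) < D.r := lt_of_mul_lt_mul_left p5 hδ.le
    have q1 : (D.l : ℝ) < 0 := by
      by_contra hcon
      push Not at hcon
      have := mul_nonneg hδ.le hcon
      linarith
    have q2 : (0 : ℝ) < D.r := pos_of_mul_pos_right p2 hδ.le
    have q3 : (0 : ℝ) < D.h := pos_of_mul_pos_right p3 hδ.le
    exact ⟨by exact_mod_cast q1, by exact_mod_cast q2, by exact_mod_cast q3,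
      by exact_mod_cast q4.le, by exact_mod_cast q5.le⟩
  have hu0 : 0 < u := lt_of_lt_of_le hδ' hd
  have h7 : 7 / 8 * δ' ≤ δ := by
    have := (abs_le.1 hm).1
    nlinarith
  have h9 : δ ≤ 9 / 8 * δ' := by
    have := (abs_le.1 hm).2
    nlinarith
  have hpos : ∀ k, dist (pos δ (D.walk F k)) (pos δ' (D.walk F k)) ≤ 10 / κ * u := by
    intro k
    obtain ⟨σ, hσ⟩ : ∃ σ, σ = D.walk F k := ⟨_, rfl⟩
    have hin := walk_in hOk hF k
    rw [← hσ] at hin ⊢
    obtain ⟨⟨i1, i2⟩, i3, i4⟩ := hin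
    have i1' : (D.l : ℝ) ≤ σ.1.1 := by exact_mod_cast i1
    have i2' : (σ.1.1 : ℝ) ≤ D.r := by exact_mod_cast i2
    have i3' : (0 : ℝ) ≤ σ.1.2 := by exact_mod_cast i3
    have i4' : (σ.1.2 : ℝ) ≤ D.h := by exact_mod_cast i4
    have j1 : δ * |(σ.1.1 : ℝ)| ≤ 1 / κ := by
      rcases abs_cases (σ.1.1 : ℝ) with ⟨e, -⟩ | ⟨e, -⟩
      · rw [e]
        exact (mul_le_mul_of_nonneg_left i2' hδ.le).trans hD.r'
      · rw [e]
        have := mul_le_mul_of_nonneg_left i1' hδ.le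
        have := hD.l'
        linarith
    have j2 : δ * |(σ.1.2 : ℝ)| ≤ 1 / κ := by
      rw [abs_of_nonneg i3']
      exact (mul_le_mul_of_nonneg_left i4' hδ.le).trans hD.h'
    have hk1 : 1 ≤ 1 / κ := by rw [le_div_iff₀ hκ]; linarith
    have key : ∀ a b : ℝ, δ * |a| ≤ 1 / κ → |b| ≤ 5 / 4 →
        |δ * (a + b) - δ' * (a + b)| ≤ 10 / κ * u / 2 := by
      intro a b ha hb
      rw [← sub_mul, abs_mul]
      have e1 : |a + b| ≤ |a| + 5 / 4 := (abs_add_le _ _).trans (by linarith)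
      have e2 : δ' * |a| ≤ 8 / 7 * (1 / κ) := by
        have : 7 / 8 * δ' * |a| ≤ δ * |a| := mul_le_mul_of_nonneg_right h7 (abs_nonneg _)
        linarith
      calc |δ - δ'| * |a + b| ≤ (u * δ') * (|a| + 5 / 4) :=
            mul_le_mul hm e1 (abs_nonneg _) (by positivity)
        _ = u * (δ' * |a|) + 5 / 4 * δ' * u := by ring
        _ ≤ u * (8 / 7 * (1 / κ)) + 5 / 4 * u * (1 / κ) := by
          have e3 := mul_le_mul_of_nonneg_left e2 hu0.le
          have e4 : 5 / 4 * δ' * u ≤ 5 / 4 * u * (1 / κ) := by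
            have : δ' ≤ 1 / κ := by linarith
            nlinarith
          linarith
        _ ≤ 10 / κ * u / 2 := by
          have e5 : 0 ≤ u * (1 / κ) := by positivity
          have e6 : 10 / κ * u / 2 = 5 * (u * (1 / κ)) := by ring
          rw [e6]
          linarith
    obtain ⟨⟨x, y⟩, q⟩ := σ
    simp only at j1 j2
    have fin : ∀ z w : ℂ, |z.re - w.re| ≤ 10 / κ * u / 2 → |z.im - w.im| ≤ 10 / κ * u / 2 →
        dist z w ≤ 10 / κ * u := fun z w h1 h2 => (H984N.ML.dist_le_of h1 h2).trans (by linarith)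
    apply fin
    · cases q
      · exact key x (1/4) j1 (by rw [abs_le]; constructor <;> norm_num)
      · have := key x (-(1/4)) j1 (by rw [abs_le]; constructor <;> norm_num)
        exact this
      · have := key x (-(1/4)) j1 (by rw [abs_le]; constructor <;> norm_num)
        exact this
      · exact key x (1/4) j1 (by rw [abs_le]; constructor <;> norm_num)
    · cases q
      · have := key y (1 + 1/4) j2 (by rw [abs_le]; constructor <;> norm_num)
        rw [← add_assoc] at this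
        exact this
      · have := key y (1 + 1/4) j2 (by rw [abs_le]; constructor <;> norm_num)
        rw [← add_assoc] at this
        exact this
      · have := key y (1 + -(1/4)) j2 (by rw [abs_le]; constructor <;> norm_num)
        rw [← add_assoc] at this
        exact this
      · have := key y (1 + -(1/4)) j2 (by rw [abs_le]; constructor <;> norm_num)
        rw [← add_assoc] at this
        exact this
  have hr : (0:ℝ) ≤ 12 / κ * u := by positivity
  obtain ⟨φ, hφ⟩ := Pool.Agent.N839.EW.plIso (D.len F) (D.len F) (D.len F)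
    (fun k => pos δ (D.walk F k)) (fun k => pos δ' (D.walk F k)) (fun i => i) (fun i => i)
    (12 / κ * u) (len_pos hOk hF) (len_pos hOk hF) rfl rfl rfl rfl
    (fun i _ => Nat.lt_succ_self i) (fun i _ => Nat.lt_succ_self i) (by
      intro i _ k l hk1 hk2 hl1 hl2
      have h1 : dist (pos δ' (D.walk F k)) (pos δ' (D.walk F l)) ≤ δ' / 2 := by
        have h2 : k = l ∨ l = k + 1 ∨ k = l + 1 := by omega
        rcases h2 with rfl | rfl | rfl
        · rw [dist_self]; positivity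
        · rw [clu_walk_succ]; exact pos_nxt hδ'.le _ _
        · rw [clu_walk_succ, dist_comm]; exact pos_nxt hδ'.le _ _
      refine (dist_triangle _ _ _).trans ((add_le_add (hpos k) h1).trans ?_)
      have h3 : (1:ℝ) ≤ 1 / κ := by rw [le_div_iff₀ hκ]; linarith
      have h4 : δ' / 2 ≤ 2 * (1 / κ) * u := by nlinarith
      have h5 : 12 / κ * u = 10 / κ * u + 2 * (1 / κ) * u := by ring
      rw [h5]
      linarith)
  exact cdist_le_of hr φ hφ

theorem fat_wide {κ δ δ' : ℝ} (hκ : 0 < κ) (hδ : 0 < δ) (hδδ : δ ≤ 9 / 8 * δ')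
    (hD : Fat κ D δ) (hs : (s:ℝ) ≤ κ / (2 * δ')) (hs0 : 0 < s) : Wide D s := by
  have hδ' : 0 < δ' := by linarith
  have h1 : (s:ℝ) * δ ≤ κ := by
    have h2 : (s:ℝ) * δ ≤ κ / (2 * δ') * δ := mul_le_mul_of_nonneg_right hs hδ.le
    have h3 : κ / (2 * δ') * δ ≤ κ := by
      rw [div_mul_eq_mul_div, div_le_iff₀ (by positivity)]
      nlinarith
    linarith
  have key : ∀ z : ℤ, κ ≤ δ * z → s ≤ z := by
    intro z hz
    have h2 : (s:ℝ) ≤ z := by
      have h3 : (s:ℝ) * δ ≤ z * δ := by linarith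
      exact le_of_mul_le_mul_right h3 hδ
    exact_mod_cast h2
  refine ⟨hs0, key _ ?_, key _ hD.r, key _ hD.h, key _ ?_, key _ ?_⟩
  · push_cast
    have := hD.l
    linarith
  · push_cast
    have := hD.tl
    linarith
  · push_cast
    have := hD.tr
    linarith

/-- **The coupling for lattice rectangles and meshes.** -/
theorem cont : ∃ (e : ℝ), 0 < e ∧ e ≤ 1 ∧ ∀ κ : ℝ, 0 < κ → κ ≤ 1 → ∃ C : ℝ, 0 < C ∧
    ∀ (D D' : Dm) (δ δ' u : ℝ) (S : Finset Edg), 0 < δ → 0 < δ' → 0 < u → Fat κ D δ →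
    Fat κ D' δ' → Near u D δ D' δ' → D.edges ⊆ S → D'.edges ⊆ S →
    PQ (1/2) S (fun F => ¬ (cdist (crv D δ (F ∩ D.edges)) (crv D' δ' (F ∩ D'.edges)) ≤
      C * u ^ e)) ≤ C * u ^ e := by
  obtain ⟨e, he, he1, hP⟩ := pair
  refine ⟨e, he, he1, ?_⟩
  intro κ hκ hκ1
  obtain ⟨C, hC, hp⟩ := hP (κ ^ 2 / 16) (by positivity) (by nlinarith)
  refine ⟨8 / κ + 20 / κ + 8 / κ * C, by positivity, ?_⟩
  intro D D' δ δ' u S hδ hδ' hu hD hD' hN hDS hDS'
  have ok := okq (q := 1/2) (by norm_num) (by norm_num)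
  have hue : 0 < u ^ e := by positivity
  have hk1 : 1 ≤ 1 / κ := by rw [le_div_iff₀ hκ]; linarith
  by_cases hus : κ / 8 ≤ u
  · refine (Pr_le_one ok _ _).trans ?_
    have h1 : κ / 8 ≤ u ^ e := by
      calc κ / 8 = (κ / 8) ^ (1:ℝ) := (Real.rpow_one _).symm
        _ ≤ (κ / 8) ^ e := pow_exp (by positivity) (by linarith) he1
        _ ≤ u ^ e := Real.rpow_le_rpow (by positivity) hus he.le
    have h2 : 1 ≤ 8 / κ * u ^ e := by
      have h3 : 8 / κ * (κ / 8) = 1 := by field_simp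
      calc (1:ℝ) = 8 / κ * (κ / 8) := h3.symm
        _ ≤ 8 / κ * u ^ e := mul_le_mul_of_nonneg_left h1 (by positivity)
    have h4 : 0 ≤ (20 / κ + 8 / κ * C) * u ^ e := by positivity
    linarith
  push Not at hus
  have hu8 : u ≤ 1 / 8 := by linarith
  have hd' : δ' ≤ u := hN.d
  have h7 : 7 / 8 * δ' ≤ δ := by
    have := (abs_le.1 hN.m).1
    nlinarith
  have h9 : δ ≤ 9 / 8 * δ' := by
    have := (abs_le.1 hN.m).2
    nlinarith
  have huu : u ≤ u ^ e := by
    calc u = u ^ (1:ℝ) := (Real.rpow_one _).symm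
      _ ≤ u ^ e := pow_exp hu (by linarith) he1
  -- the integers
  obtain ⟨n, hn⟩ : ∃ n : ℕ, n = ⌈3 / (κ * δ')⌉₊ := ⟨_, rfl⟩
  obtain ⟨k, hk⟩ : ∃ k : ℕ, k = ⌈3 * u / (κ * δ')⌉₊ := ⟨_, rfl⟩
  obtain ⟨s, hs⟩ : ∃ s : ℤ, s = ⌊κ / (2 * δ')⌋ := ⟨_, rfl⟩
  have n1 : 3 / (κ * δ') ≤ n := by rw [hn]; exact Nat.le_ceil _
  have n2 : (n:ℝ) ≤ 3 / (κ * δ') + 1 := by
    rw [hn]; exact (Nat.ceil_lt_add_one (by positivity)).le
  have k1 : 3 * u / (κ * δ') ≤ k := by rw [hk]; exact Nat.le_ceil _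
  have k2 : (k:ℝ) ≤ 3 * u / (κ * δ') + 1 := by
    rw [hk]; exact (Nat.ceil_lt_add_one (by positivity)).le
  have s1 : (s:ℝ) ≤ κ / (2 * δ') := by rw [hs]; exact Int.floor_le _
  have s2 : κ / (2 * δ') - 1 ≤ s := by rw [hs]; exact (Int.sub_one_lt_floor _).le
  have hκδ : 0 < κ * δ' := by positivity
  have hw : 1 ≤ u / (κ * δ') := by
    rw [le_div_iff₀ hκδ]
    nlinarith
  have hk0 : 1 ≤ k := by
    rw [hk]
    exact Nat.one_le_ceil_iff.2 (by positivity)
  have k3 : (k:ℝ) ≤ 4 * (u / (κ * δ')) := by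
    have : 3 * u / (κ * δ') = 3 * (u / (κ * δ')) := by ring
    linarith
  have hw2 : (1:ℝ) ≤ 1 / (κ * δ') := by
    rw [le_div_iff₀ hκδ]
    nlinarith
  have n3 : (n:ℝ) ≤ 4 / (κ * δ') := by
    have e1 : 3 / (κ * δ') = 3 * (1 / (κ * δ')) := by ring
    have e2 : 4 / (κ * δ') = 4 * (1 / (κ * δ')) := by ring
    rw [e1] at n2
    rw [e2]
    linarith
  have hkn : k ≤ n := by
    have : (k:ℝ) ≤ n := by
      refine k3.trans (le_trans ?_ n1)
      rw [← mul_div_assoc]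
      apply div_le_div_of_nonneg_right _ hκδ.le
      linarith
    exact_mod_cast this
  have hn0 : (0:ℝ) < n := lt_of_lt_of_le (by positivity) n1
  have hkn2 : (k:ℝ) / n ≤ 2 * u := by
    rw [div_le_iff₀ hn0]
    calc (k:ℝ) ≤ 4 * (u / (κ * δ')) := k3
      _ ≤ 2 * u * (3 / (κ * δ')) := by
        have : 0 ≤ u / (κ * δ') := by positivity
        have e1 : 2 * u * (3 / (κ * δ')) = 6 * (u / (κ * δ')) := by ring
        rw [e1]
        linarith
      _ ≤ 2 * u * n := mul_le_mul_of_nonneg_left n1 (by positivity)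
  have hkne : ((k:ℝ) / n) ^ e ≤ 2 * u ^ e := by
    calc ((k:ℝ) / n) ^ e ≤ (2 * u) ^ e := Real.rpow_le_rpow (by positivity) hkn2 he.le
      _ = 2 ^ e * u ^ e := Real.mul_rpow (by norm_num) hu.le
      _ ≤ 2 * u ^ e := by
        apply mul_le_mul_of_nonneg_right _ hue.le
        calc (2:ℝ) ^ e ≤ 2 ^ (1:ℝ) := Real.rpow_le_rpow_of_exponent_le (by norm_num) he1
          _ = 2 := Real.rpow_one _
  have hs4 : κ / (4 * δ') ≤ s := by
    have e1 : κ / (2 * δ') = 2 * (κ / (4 * δ')) := by field_simp; norm_num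
    have e2 : 1 ≤ κ / (4 * δ') := by
      rw [le_div_iff₀ (by positivity)]
      linarith
    linarith
  have hs0 : 0 < s := by
    have : (0:ℝ) < s := lt_of_lt_of_le (by positivity) hs4
    exact_mod_cast this
  have hW : Wide D s := fat_wide hκ hδ h9 hD s1 hs0
  have hW' : Wide D' s := fat_wide hκ hδ' (by linarith) hD' s1 hs0
  have hκn : κ ^ 2 / 16 * n ≤ s := by
    refine le_trans (mul_le_mul_of_nonneg_left n3 (by positivity)) (le_trans (le_of_eq ?_) hs4)
    field_simp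
    norm_num
  -- sizes
  have hinv : ∀ x : ℝ, δ * x ≤ 1 / κ → x ≤ 8 / 7 * (1 / (κ * δ')) := by
    intro x hx
    by_cases hx0 : x ≤ 0
    · exact hx0.trans (by positivity)
    · push Not at hx0
      have h1 : 7 / 8 * δ' * x ≤ 1 / κ := (mul_le_mul_of_nonneg_right h7 hx0.le).trans hx
      have h2 : 8 / 7 * (1 / (κ * δ')) = (8 / 7 * (1 / κ)) / δ' := by field_simp
      rw [h2, le_div_iff₀ hδ']
      linarith
  have hDn : D.r - D.l ≤ n := by
    have h1 := hinv D.r hD.r'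
    have h2 := hinv (-D.l) (by have := hD.l'; linarith)
    have h3 : ((D.r - D.l : ℤ) : ℝ) ≤ ((n : ℤ) : ℝ) := by
      push_cast
      have e1 : 3 / (κ * δ') = 3 * (1 / (κ * δ')) := by ring
      rw [e1] at n1
      have : 0 < 1 / (κ * δ') := by positivity
      linarith
    exact_mod_cast h3
  have hDh : D.h ≤ n := by
    have h1 := hinv D.h hD.h'
    have h3 : ((D.h : ℤ) : ℝ) ≤ ((n : ℤ) : ℝ) := by
      push_cast
      have e1 : 3 / (κ * δ') = 3 * (1 / (κ * δ')) := by ring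
      rw [e1] at n1
      have : 0 < 1 / (κ * δ') := by positivity
      linarith
    exact_mod_cast h3
  -- similar data
  have hsim : ∀ x y : ℤ, |δ * x - δ' * y| ≤ u → δ * |(x:ℝ)| ≤ 1 / κ → |x - y| ≤ k := by
    intro x y h1 h2
    have h3 : |(x:ℝ)| ≤ 8 / 7 * (1 / (κ * δ')) := hinv _ h2
    have h4 : δ' * |(x:ℝ) - y| ≤ u + u * δ' * |(x:ℝ)| := by
      have e1 : δ' * ((x:ℝ) - y) = (δ * x - δ' * y) + (δ' - δ) * x := by ring
      calc δ' * |(x:ℝ) - y| = |δ' * ((x:ℝ) - y)| := by rw [abs_mul, abs_of_pos hδ']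
        _ = |(δ * x - δ' * y) + (δ' - δ) * x| := by rw [e1]
        _ ≤ |δ * x - δ' * y| + |(δ' - δ) * x| := abs_add_le _ _
        _ ≤ u + u * δ' * |(x:ℝ)| := by
          rw [abs_mul, abs_sub_comm δ' δ]
          exact add_le_add h1 (mul_le_mul_of_nonneg_right hN.m (abs_nonneg _))
    have h5 : |(x:ℝ) - y| ≤ 3 * u / (κ * δ') := by
      have e1 : 3 * u / (κ * δ') = (3 * u * (1 / κ)) / δ' := by field_simp
      rw [e1, le_div_iff₀ hδ']
      have e2 : u * δ' * |(x:ℝ)| ≤ u * δ' * (8 / 7 * (1 / (κ * δ'))) :=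
        mul_le_mul_of_nonneg_left h3 (by positivity)
      have e3 : u * δ' * (8 / 7 * (1 / (κ * δ'))) = 8 / 7 * (u * (1 / κ)) := by
        field_simp
      have e4 : u ≤ u * (1 / κ) := le_mul_of_one_le_right hu.le hk1
      have e5 : 3 * u * (1 / κ) = 3 * (u * (1 / κ)) := by ring
      rw [e5]
      linarith
    have h6 : ((|x - y| : ℤ) : ℝ) ≤ ((k : ℤ) : ℝ) := by
      push_cast
      exact h5.trans k1
    exact_mod_cast h6
  have hl0 : (D.l : ℝ) ≤ 0 := by exact_mod_cast hW.ok.l_neg.le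
  have hr0 : (0 : ℝ) ≤ D.r := by exact_mod_cast hW.ok.r_pos.le
  have hh0 : (0 : ℝ) ≤ D.h := by exact_mod_cast hW.ok.h_pos.le
  have hSim : Sim k D D' := by
    refine ⟨hsim _ _ hN.l ?_, hsim _ _ hN.r ?_, hsim _ _ hN.h ?_, hsim _ _ hN.t ?_⟩
    · rw [abs_of_nonpos hl0]
      have := hD.l'
      linarith
    · rw [abs_of_nonneg hr0]
      exact hD.r'
    · rw [abs_of_nonneg hh0]
      exact hD.h'
    · rcases abs_cases (D.t : ℝ) with ⟨e, -⟩ | ⟨e, -⟩
      · rw [e]
        have := hD.tr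
        have := hD.r'
        linarith
      · rw [e]
        have := hD.tl
        have := hD.l'
        linarith
  have hmain := hp D D' s n k δ' S hk0 hkn hW hW' hκn hDn hDh hSim hδ'.le hDS hDS'
  refine (Pr_mono ok ?_).trans (hmain.trans ?_)
  · intro F _ hbad hcon
    apply hbad
    have c1 := crv_mesh (F := F ∩ D.edges) hκ hκ1 hδ hδ' hu8 hD hN.m hd'
      Finset.inter_subset_right
    have c2 := H342L.cdist_triangle (crv D δ (F ∩ D.edges)) (crv D δ' (F ∩ D.edges))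
      (crv D' δ' (F ∩ D'.edges))
    have c3 : C * (δ' * n) * ((k:ℝ) / n) ^ e ≤ 8 / κ * C * u ^ e := by
      have d1 : δ' * (n:ℝ) ≤ 4 / κ := by
        calc δ' * (n:ℝ) ≤ δ' * (4 / (κ * δ')) := mul_le_mul_of_nonneg_left n3 hδ'.le
          _ = 4 / κ := by field_simp
      calc C * (δ' * n) * ((k:ℝ) / n) ^ e ≤ C * (4 / κ) * (2 * u ^ e) := by
            apply mul_le_mul _ hkne (by positivity) (by positivity)
            exact mul_le_mul_of_nonneg_left d1 hC.le
        _ = 8 / κ * C * u ^ e := by ring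
    have c4 : 12 / κ * u ≤ 20 / κ * u ^ e := by
      calc 12 / κ * u ≤ 12 / κ * u ^ e := mul_le_mul_of_nonneg_left huu (by positivity)
        _ ≤ 20 / κ * u ^ e := by
          apply mul_le_mul_of_nonneg_right _ hue.le
          exact div_le_div_of_nonneg_right (by norm_num) hκ.le
    have c5 : 0 ≤ 8 / κ * u ^ e := by positivity
    linarith
  · have d1 : C * ((k:ℝ) / n) ^ e ≤ C * (2 * u ^ e) := mul_le_mul_of_nonneg_left hkne hC.le
    have d2 : 2 * C * u ^ e ≤ 8 / κ * C * u ^ e := by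
      apply mul_le_mul_of_nonneg_right _ hue.le
      apply mul_le_mul_of_nonneg_right _ hC.le
      have : 8 / κ = 8 * (1 / κ) := by ring
      linarith
    have d3 : 0 ≤ (8 / κ + 20 / κ) * u ^ e := by positivity
    linarith

end Pool.Agent.H950.EX
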