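import Pool.Agent.H950.EX.Geo

/-!
The exploration paths with and without the free strips are close, if none of finitely many events
occurs.
-/

set_option autoImplicit false

namespace Pool.Agent.H950.EX

open H974 H12S H389NS H984N H984P H342P H443B Finset
open Pool.Agent.N116.EW
open Pool.Agent.H950.SV (rect_edge rect_reach sd_rfy sd_tps)
open Pool.Agent.H950.AD (adj_En En_adj)

variable {D : Dm} {F G : Finset Edg}
variable {s : ℤ} {k a b c a' b' c' : ℕ}

/-- The bad events. -/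
def BadE (D : Dm) (a b c m ρ R1 R2 r3 N : ℕ) (F : Finset Edg) : Prop :=
  (1 ≤ c ∧ Side (idn.mp D.edges) c m (ρ + 2) R1 N (idn.mp F)) ∨
  (1 ≤ b ∧ Side ((rfy D.h).mp D.edges) b m (ρ + 2) R1 N ((rfy D.h).mp F)) ∨
  (1 ≤ a ∧ Side ((rgt D.r).mp D.edges) a m (ρ + 2) R1 N ((rgt D.r).mp F)) ∨
  Crs D.t D.h (8 * m) (ρ - 8 * m) (↑F : Set Edg) ∨ Crs 0 0 (8 * m) (ρ - 8 * m) (↑F : Set Edg) ∨
  Crs D.t D.h (R1 + 6 * (ρ + 2)) R2 (↑F : Set Edg) ∨
  Crs 0 0 (R1 + 6 * (ρ + 2)) R2 (↑F : Set Edg) ∨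
  Crs (D.r - a) c (R1 + 6 * (ρ + 2)) r3 (↑F : Set Edg) ∨
  Crs (D.r - a) (D.h - b) (R1 + 6 * (ρ + 2)) r3 (↑F : Set Edg)

/-- Conditions on the scales. -/
structure Sc (D : Dm) (s : ℤ) (k m ρ R1 R2 r3 N : ℕ) : Prop where
  m1 : 1 ≤ m
  km : k ≤ m
  mρ : 16 * m ≤ ρ
  ρR : 2 * (ρ + 2) ≤ R1
  hR2 : R1 + 6 * (ρ + 2) ≤ R2
  hR2s : (R2:ℤ) + 4 * k < s
  hr3s : (r3:ℤ) + 4 * k < s
  N1 : D.r - D.l < N * m
  N2 : D.h < N * m

theorem near_crs {m ρ : ℕ} {p q : ℤ} {v w : Vtx} (hv : |v.1 - p| ≤ 8 * m ∧ |v.2 - q| ≤ 8 * m)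
    (hρ : 8 * m ≤ ρ) (hw : (ρ:ℤ) ≤ sd v w) (hr : Reach (↑F : Set Edg) v w) :
    Crs p q (8 * m) (ρ - 8 * m) (↑F : Set Edg) := by
  obtain ⟨h1, h2⟩ := hv
  rw [abs_le] at h1 h2
  refine ⟨v, w, ?_, ?_, hr⟩
  · unfold inR; push_cast; omega
  · unfold sd at hw
    rw [Nat.cast_sub hρ]
    push_cast
    rcases le_max_iff.1 hw with h4 | h4
    · rcases le_abs.1 h4 with h5 | h5 <;> omega
    · rcases le_abs.1 h4 with h5 | h5 <;> omega

theorem corner_crs (hW : Wide D s) (hw : Wd k a b c a' b' c') (hk : 4 * (k:ℤ) < s)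
    (hF : F ⊆ D.edges) {r3 R : ℕ} (hr3 : (r3:ℤ) + 4 * k < s) {q : ℤ} {x : Vtx}
    (hx : x ∈ D.clu (Loc D a b c a' b' c' F))
    (hv : |x.1 - (D.r - a)| ≤ R ∧ |x.2 - q| ≤ R) : Crs (D.r - a) q R r3 (↑F : Set Edg) := by
  obtain ⟨w, h1, h2, h3⟩ := first_wrd hW hw hk hF hx
  obtain ⟨h5, h6⟩ := hv
  rw [abs_le] at h5 h6
  obtain ⟨g0, q1, q2, q3, q4, q5⟩ := hW
  obtain ⟨w1, w2, w3, w4, w5, w6⟩ := hw
  refine ⟨x, w, ?_, Or.inl ?_, h3.mono fun e he => by exact_mod_cast he.1⟩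
  · unfold inR; omega
  · unfold wrd at h1
    simp only [Set.mem_ofPred_eq] at h1
    omega

theorem nv_det (hW : Wide D s) (hw : Wd k a b c a' b' c')
    (hF : F ⊆ D.edges) {m ρ R1 R2 r3 N : ℕ} (hS : Sc D s k m ρ R1 R2 r3 N)
    (hB : ¬ BadE D a b c m ρ R1 R2 r3 N F) :
    NVD D ρ (Loc D a b c a' b' c' F) (Upc D a' b' c' F) := by
  obtain ⟨g1, g2, g3, g4, g5, g6, g7, g8, g9⟩ := hS
  have hk : 4 * (k:ℤ) < s := by omega
  intro e he heF x v hE hx hv w hr
  by_contra hcon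
  push Not at hcon
  apply hB
  obtain ⟨f1, f2⟩ := flip hW hw hk he heF
  have hx1 := clu_off hW hw hk hF hx
  have hvf : v ∈ fre D a b c := by
    have h1 := (mem_Zs.1 f2).2
    rcases hE with ⟨e1, e2⟩ | ⟨e1, e2⟩
    · rw [← e1, ← e2] at h1
      exact h1.resolve_left hx1.2
    · rw [← e1, ← e2] at h1
      exact h1.resolve_right hx1.2
  obtain ⟨X, hX⟩ : ∃ X : Set Edg, X = {g | g ∈ D.cfg (Upc D a' b' c' F) ∧
      src g ∉ D.clu (Loc D a b c a' b' c' F) ∧ tgt g ∉ D.clu (Loc D a b c a' b' c' F)} := ⟨_, rfl⟩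
  rw [← hX] at hr
  have hXF : ∀ g ∈ X, g ∈ F ∧ src g ∉ D.clu (Loc D a b c a' b' c' F) ∧
      tgt g ∉ D.clu (Loc D a b c a' b' c' F) := by
    rw [hX]
    rintro g ⟨h1, h2, h3⟩
    exact ⟨off_F hW hw hk h1 h2, h2, h3⟩
  have hrF : Reach (↑F : Set Edg) v w := hr.mono (fun g hg => by exact_mod_cast (hXF g hg).1)
  obtain ⟨q0, q1, q2, q3, q4, q5⟩ := id hW
  obtain ⟨w1, w2, w3, w4, w5, w6⟩ := id hw
  have h8 : ((8 * m : ℕ) : ℤ) ≤ sd v w := by push_cast; omega
  rcases flip_pos hW hw hk (hF f1) hE hx1.2 hvf with ⟨x1, rfl, rfl, p1, p2, p3⟩ |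
    ⟨x1, rfl, rfl, p1, p2, p3⟩ | ⟨y1, rfl, rfl, p1, p2, p3⟩ | ⟨y1, rfl, rfl, p1, p2⟩ |
    ⟨y1, rfl, rfl, p1, p2⟩
  · -- bottom
    by_cases c1 : x1 ≤ 4 * m
    · have := near_crs (F := F) (m := m) (p := 0) (q := 0) ⟨by simp only; rw [abs_le]; omega,
        by simp only; rw [abs_le]; omega⟩ (by omega) hcon hrF
      exact Or.inr (Or.inr (Or.inr (Or.inr (Or.inl this))))
    by_cases c2 : D.r - a < x1 + 4 * m
    · have := corner_crs (q := c) (R := R1 + 6 * (ρ + 2)) hW hw hk hF g7 hx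
        ⟨by simp only; rw [abs_le]; push_cast; omega, by simp only; rw [abs_le]; push_cast; omega⟩
      exact Or.inr (Or.inr (Or.inr (Or.inr (Or.inr (Or.inr (Or.inr (Or.inl this)))))))
    have hch := chart_bot (r := 4 * m) hW hw hk hF (by push_cast; omega) (by push_cast; omega)
      (by push_cast; omega) hx
    have := nv_sym idn (fun _ _ => rfl) (gg := ρ + 2) (R := R1) (N := N) hch p3
      (by omega) le_rfl
      (by rw [abs_lt]; omega) hXF (fun e he => by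
        have h1 := rect_edge (hF he)
        unfold inR at h1
        exact h1.1.2.1) rfl hv hr h8
    exact Or.inl ⟨p3, this⟩
  · -- top
    by_cases c1 : x1 ≤ D.t + 4 * m
    · have := near_crs (F := F) (m := m) (p := D.t) (q := D.h) ⟨by simp only; rw [abs_le]; omega,
        by simp only; rw [abs_le]; omega⟩ (by omega) hcon hrF
      exact Or.inr (Or.inr (Or.inr (Or.inl this)))
    by_cases c2 : D.r - a < x1 + 4 * m
    · have := corner_crs (q := D.h - b) (R := R1 + 6 * (ρ + 2)) hW hw hk hF g7 hx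
        ⟨by simp only; rw [abs_le]; push_cast; omega, by simp only; rw [abs_le]; push_cast; omega⟩
      exact Or.inr (Or.inr (Or.inr (Or.inr (Or.inr (Or.inr (Or.inr (Or.inr this)))))))
    have hch := chart_top (r := 4 * m) hW hw hk hF (by push_cast; omega) (by push_cast; omega)
      (by push_cast; omega) hx
    have := nv_sym (rfy D.h) (sd_rfy _) (gg := ρ + 2) (R := R1) (N := N) hch p3
      (by omega) le_rfl
      (by rw [abs_lt]; omega) hXF (fun e he => by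
        have h1 := rect_edge (hF he)
        obtain ⟨x, y, q⟩ := e
        unfold inR at h1
        cases q
        · rw [rfy_φf, src_mk]
          rw [src_mk, tgt_false] at h1
          simp only at h1 ⊢
          omega
        · rw [rfy_φt, src_mk]
          rw [src_mk, tgt_true] at h1
          simp only at h1 ⊢
          omega) (by rw [rfy_ψ]; ext <;> simp only; ring) hv hr h8
    exact Or.inr (Or.inl ⟨p3, this⟩)
  · -- right
    by_cases c1 : y1 < c + 4 * m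
    · have := corner_crs (q := c) (R := R1 + 6 * (ρ + 2)) hW hw hk hF g7 hx
        ⟨by simp only; rw [abs_le]; push_cast; omega, by simp only; rw [abs_le]; push_cast; omega⟩
      exact Or.inr (Or.inr (Or.inr (Or.inr (Or.inr (Or.inr (Or.inr (Or.inl this)))))))
    by_cases c2 : D.h - b < y1 + 4 * m
    · have := corner_crs (q := D.h - b) (R := R1 + 6 * (ρ + 2)) hW hw hk hF g7 hx
        ⟨by simp only; rw [abs_le]; push_cast; omega, by simp only; rw [abs_le]; push_cast; omega⟩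
      exact Or.inr (Or.inr (Or.inr (Or.inr (Or.inr (Or.inr (Or.inr (Or.inr this)))))))
    have hch := chart_rgt (r := 4 * m) hW hw hk hF (by push_cast; omega) (by push_cast; omega)
      (by push_cast; omega) hx
    have := nv_sym (rgt D.r) (sd_rgt _) (gg := ρ + 2) (R := R1) (N := N) hch p3
      (by omega) le_rfl
      (by rw [abs_lt]; omega) hXF (fun e he => by
        have h1 := rect_edge (hF he)
        obtain ⟨x, y, q⟩ := e
        unfold inR at h1
        cases q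
        · rw [rgt_φf, src_mk]
          rw [src_mk, tgt_false] at h1
          simp only at h1 ⊢
          omega
        · rw [rgt_φt, src_mk]
          rw [src_mk, tgt_true] at h1
          simp only at h1 ⊢
          omega) (by rw [rgt_ψ]; ext <;> simp only; ring) hv hr h8
    exact Or.inr (Or.inr (Or.inl ⟨p3, this⟩))
  · have := near_crs (F := F) (m := m) (p := D.t) (q := D.h) ⟨by simp only; rw [abs_le]; omega,
      by simp only; rw [abs_le]; omega⟩ (by omega) hcon hrF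
    exact Or.inr (Or.inr (Or.inr (Or.inl this)))
  · have := near_crs (F := F) (m := m) (p := 0) (q := 0) ⟨by simp only; rw [abs_le]; omega,
      by simp only; rw [abs_le]; omega⟩ (by omega) hcon hrF
    exact Or.inr (Or.inr (Or.inr (Or.inr (Or.inl this))))

/-- A path which stays in a box or leaves it. -/
theorem stay_or_exit {H : Set Edg} {a b c d : ℤ} {x w : Vtx} (h : Reach H x w) :
    (Reach (H ∩ ↑(RE a b c d)) x w ∧ (a < w.1 ∧ w.1 < b) ∧ (c < w.2 ∧ w.2 < d)) ∨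
      ∃ w', (w'.1 ≤ a ∨ b ≤ w'.1 ∨ w'.2 ≤ c ∨ d ≤ w'.2) ∧ Reach H x w' := by
  induction h with
  | refl =>
    by_cases hx : (a < x.1 ∧ x.1 < b) ∧ (c < x.2 ∧ x.2 < d)
    · exact Or.inl ⟨Reach.refl _ _, hx⟩
    · exact Or.inr ⟨x, by omega, Reach.refl _ _⟩
  | @tail y z hy hs ih =>
    rcases ih with ⟨h1, h2⟩ | h1
    · by_cases hz : (a < z.1 ∧ z.1 < b) ∧ (c < z.2 ∧ z.2 < d)
      · left
        obtain ⟨e, he, hE⟩ := adj_En hs
        suffices h : e ∈ RE a b c d from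
          ⟨h1.trans (En_adj hE (show e ∈ H ∩ ↑(RE a b c d) from ⟨he, by exact_mod_cast h⟩)).reach,
            hz⟩
        obtain ⟨p, q, o⟩ := e
        cases o
        · rw [mem_RE_false]
          rcases hE with ⟨e1, e2⟩ | ⟨e1, e2⟩
          · rw [e1, src_mk] at h2
            rw [e2, tgt_false] at hz
            simp only at h2 hz
            omega
          · rw [e1, tgt_false] at h2
            rw [e2, src_mk] at hz
            simp only at h2 hz
            omega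
        · rw [mem_RE_true]
          rcases hE with ⟨e1, e2⟩ | ⟨e1, e2⟩
          · rw [e1, src_mk] at h2
            rw [e2, tgt_true] at hz
            simp only at h2 hz
            omega
          · rw [e1, tgt_true] at h2
            rw [e2, src_mk] at hz
            simp only at h2 hz
            omega
      · exact Or.inr ⟨z, by omega, Reach.trans hy hs.reach⟩
    · exact Or.inr h1

/-- Local connections close to an end of the path. -/
theorem near_conn (hW : Wide D s) (hw : Wd k a b c a' b' c') (hk : 4 * (k:ℤ) < s)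
    (hF : F ⊆ D.edges) {R R2 : ℕ} {p q : ℤ} (hno : ¬ Crs p q R R2 (↑F : Set Edg))
    (hP : ∀ w ∈ wrd D a' b' c', inR D.l D.r 0 D.h w → (p - R2 < w.1 ∧ w.1 < p + R2) →
      (q - R2 < w.2 ∧ w.2 < q + R2) → Reach (D.cfg (Loc D a b c a' b' c' F) ∩
        ↑(RE (p - R2) (p + R2) (q - R2) (q + R2))) w (p, q)) {x : Vtx}
    (hx : x ∈ D.clu (Loc D a b c a' b' c' F)) (hv : |x.1 - p| ≤ R ∧ |x.2 - q| ≤ R) :
    Reach (D.cfg (Loc D a b c a' b' c' F) ∩
        ↑(RE (p - R2) (p + R2) (q - R2) (q + R2))) x (p, q) := by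
  obtain ⟨w, h1, h2, h3⟩ := first_wrd hW hw hk hF hx
  rcases stay_or_exit (a := p - R2) (b := p + R2) (c := q - R2) (d := q + R2) h3 with
    ⟨h4, h5, h6⟩ | ⟨w', h4, h5⟩
  · refine (h4.mono ?_).trans (hP w h1 h2 h5 h6)
    rintro e ⟨⟨-, k1⟩, k2⟩
    exact ⟨k1, k2⟩
  · exfalso
    apply hno
    obtain ⟨h7, h8⟩ := hv
    rw [abs_le] at h7 h8
    exact ⟨x, w', by unfold inR; omega, h4, h5.mono (fun e he => by exact_mod_cast he.1)⟩

/-- Two such vertices are connected. -/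
theorem near_two {H : Set Edg} {p q : ℤ} {R R2 Rb : ℕ} (hR : R + R2 ≤ Rb) {x x' : Vtx}
    (h1 : Reach (H ∩ ↑(RE (p - R2) (p + R2) (q - R2) (q + R2))) x (p, q))
    (h2 : Reach (H ∩ ↑(RE (p - R2) (p + R2) (q - R2) (q + R2))) x' (p, q))
    (hv : |x.1 - p| ≤ R ∧ |x.2 - q| ≤ R) :
    Reach {g | g ∈ H ∧ sd x (src g) ≤ Rb ∧ sd x (tgt g) ≤ Rb} x' x := by
  refine (h2.trans h1.symm).mono ?_
  rintro e ⟨k1, k2⟩
  have h3 := rect_edge (show e ∈ RE (p - R2) (p + R2) (q - R2) (q + R2) by exact_mod_cast k2)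
  obtain ⟨h7, h8⟩ := hv
  rw [abs_le] at h7 h8
  unfold inR at h3
  refine ⟨k1, ?_, ?_⟩
  · unfold sd; apply max_le <;> rw [abs_le] <;> constructor <;> omega
  · unfold sd; apply max_le <;> rw [abs_le] <;> constructor <;> omega

theorem conn_a (hW : Wide D s) (hw : Wd k a b c a' b' c') (hk : 4 * (k:ℤ) < s) {R2 : ℕ}
    (hR : (R2:ℤ) + 4 * k < s) : ∀ w ∈ wrd D a' b' c', inR D.l D.r 0 D.h w →
      (D.t - R2 < w.1 ∧ w.1 < D.t + R2) → (D.h - R2 < w.2 ∧ w.2 < D.h + R2) →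
      Reach (D.cfg (Loc D a b c a' b' c' F) ∩
        ↑(RE (D.t - R2) (D.t + R2) (D.h - R2) (D.h + R2))) w (D.t, D.h) := by
  rintro ⟨x, y⟩ h1 h2 h3 h4
  obtain ⟨q0, q1, q2, q3, q4, q5⟩ := id hW
  obtain ⟨w1, w2, w3, w4, w5, w6⟩ := id hw
  unfold wrd at h1
  unfold inR at h2
  simp only [Set.mem_ofPred_eq] at h1 h2 h3 h4
  have hx : x ≤ D.t ∧ D.h - b' ≤ y := by omega
  obtain ⟨H, hH⟩ : ∃ H : Set Edg, H = D.cfg (Loc D a b c a' b' c' F) ∩
    ↑(RE (D.t - R2) (D.t + R2) (D.h - R2) (D.h + R2)) := ⟨_, rfl⟩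
  rw [← hH]
  have r1 : Reach H (x, y) (x, D.h) := by
    refine cline (by omega) (fun i g3 g4 => ?_)
    rw [hH]
    refine ⟨O_Loc hW hw hk ?_ ?_ ?_, ?_⟩
    · unfold Dm.edges; rw [mem_RE_false]; omega
    · unfold wrd; rw [src_mk]; simp only [Set.mem_ofPred_eq]; omega
    · unfold wrd; rw [tgt_false]; simp only [Set.mem_ofPred_eq]; omega
    · rw [Finset.mem_coe, mem_RE_false]; omega
  have r2 : Reach H (x, D.h) (D.t, D.h) := by
    refine rline (by omega) (fun i g3 g4 => ?_)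
    rw [hH]
    refine ⟨O_Loc hW hw hk ?_ ?_ ?_, ?_⟩
    · unfold Dm.edges; rw [mem_RE_true]; omega
    · unfold wrd; rw [src_mk]; simp only [Set.mem_ofPred_eq]; omega
    · unfold wrd; rw [tgt_true]; simp only [Set.mem_ofPred_eq]; omega
    · rw [Finset.mem_coe, mem_RE_true]; omega
  exact r1.trans r2

theorem conn_b (hW : Wide D s) (hw : Wd k a b c a' b' c') (hk : 4 * (k:ℤ) < s) {R2 : ℕ}
    (hR : (R2:ℤ) + 4 * k < s) : ∀ w ∈ wrd D a' b' c', inR D.l D.r 0 D.h w →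
      ((0:ℤ) - R2 < w.1 ∧ w.1 < 0 + R2) → ((0:ℤ) - R2 < w.2 ∧ w.2 < 0 + R2) →
      Reach (D.cfg (Loc D a b c a' b' c' F) ∩
        ↑(RE ((0:ℤ) - R2) (0 + R2) ((0:ℤ) - R2) (0 + R2))) w (0, 0) := by
  rintro ⟨x, y⟩ h1 h2 h3 h4
  obtain ⟨q0, q1, q2, q3, q4, q5⟩ := id hW
  obtain ⟨w1, w2, w3, w4, w5, w6⟩ := id hw
  unfold wrd at h1
  unfold inR at h2
  simp only [Set.mem_ofPred_eq] at h1 h2 h3 h4
  have hx : x ≤ 0 ∧ y ≤ c' := by omega
  obtain ⟨H, hH⟩ : ∃ H : Set Edg, H = D.cfg (Loc D a b c a' b' c' F) ∩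
    ↑(RE ((0:ℤ) - R2) (0 + R2) ((0:ℤ) - R2) (0 + R2)) := ⟨_, rfl⟩
  rw [← hH]
  have r1 : Reach H (x, 0) (x, y) := by
    refine cline (by omega) (fun i g3 g4 => ?_)
    rw [hH]
    refine ⟨O_Loc hW hw hk ?_ ?_ ?_, ?_⟩
    · unfold Dm.edges; rw [mem_RE_false]; omega
    · unfold wrd; rw [src_mk]; simp only [Set.mem_ofPred_eq]; omega
    · unfold wrd; rw [tgt_false]; simp only [Set.mem_ofPred_eq]; omega
    · rw [Finset.mem_coe, mem_RE_false]; omega
  have r2 : Reach H (x, 0) (0, 0) := by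
    refine rline (by omega) (fun i g3 g4 => ?_)
    rw [hH]
    refine ⟨O_Loc hW hw hk ?_ ?_ ?_, ?_⟩
    · unfold Dm.edges; rw [mem_RE_true]; omega
    · unfold wrd; rw [src_mk]; simp only [Set.mem_ofPred_eq]; omega
    · unfold wrd; rw [tgt_true]; simp only [Set.mem_ofPred_eq]; omega
    · rw [Finset.mem_coe, mem_RE_true]; omega
  exact r1.symm.trans r2

theorem lc_det (hW : Wide D s) (hw : Wd k a b c a' b' c')
    (hF : F ⊆ D.edges) {m ρ R1 R2 r3 N Rb : ℕ} (hS : Sc D s k m ρ R1 R2 r3 N)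
    (hRb : R2 + R1 + 6 * (ρ + 2) ≤ Rb) (hB : ¬ BadE D a b c m ρ R1 R2 r3 N F) :
    LCD D ρ Rb (Loc D a b c a' b' c' F) (Upc D a' b' c' F) := by
  obtain ⟨g1, g2, g3, g4, g5, g6, g7, g8, g9⟩ := hS
  have hk : 4 * (k:ℤ) < s := by omega
  intro e he heF e' he' heF' x v x' v' hE hE' hx hx' hxx
  by_contra hno
  apply hB
  obtain ⟨f1, f2⟩ := flip hW hw hk he heF
  obtain ⟨f1', f2'⟩ := flip hW hw hk he' heF'
  have hx1 := clu_off hW hw hk hF hx
  have hx1' := clu_off hW hw hk hF hx'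
  have hvf : v ∈ fre D a b c := by
    have h1 := (mem_Zs.1 f2).2
    rcases hE with ⟨e1, e2⟩ | ⟨e1, e2⟩
    · rw [← e1, ← e2] at h1
      exact h1.resolve_left hx1.2
    · rw [← e1, ← e2] at h1
      exact h1.resolve_right hx1.2
  have hvf' : v' ∈ fre D a b c := by
    have h1 := (mem_Zs.1 f2').2
    rcases hE' with ⟨e1, e2⟩ | ⟨e1, e2⟩
    · rw [← e1, ← e2] at h1
      exact h1.resolve_left hx1'.2
    · rw [← e1, ← e2] at h1
      exact h1.resolve_right hx1'.2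
  obtain ⟨q0, q1, q2, q3, q4, q5⟩ := id hW
  obtain ⟨w1, w2, w3, w4, w5, w6⟩ := id hw
  have hxx' := hxx
  unfold sd at hxx'
  have hd1 := (max_le_iff.1 hxx').1
  have hd2 := (max_le_iff.1 hxx').2
  rw [abs_le] at hd1 hd2
  have et : ∀ z : ℤ, (rfy D.h).ψ (z, D.h - b) = (z, (b:ℤ)) := by
    intro z; rw [rfy_ψ]; ext <;> simp only; ring
  have er : ∀ z : ℤ, (rgt D.r).ψ (D.r - a, z) = (z, (a:ℤ)) := by
    intro z; rw [rgt_ψ]; ext <;> simp only; ring
  -- close to the ends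
  have nearA : |x.1 - D.t| ≤ ((R1 + 4 * (ρ + 2) : ℕ) : ℤ) ∧
      |x.2 - D.h| ≤ ((R1 + 4 * (ρ + 2) : ℕ) : ℤ) →
      Crs D.t D.h (R1 + 6 * (ρ + 2)) R2 (↑F : Set Edg) := by
    rintro ⟨h1, h2⟩
    by_contra hcon
    apply hno
    rw [abs_le] at h1 h2
    refine near_two (p := D.t) (q := D.h) (R := R1 + 6 * (ρ + 2)) (R2 := R2) (by omega)
      (near_conn hW hw hk hF hcon (conn_a hW hw hk g6) hx ?_)
      (near_conn hW hw hk hF hcon (conn_a hW hw hk g6) hx' ?_) ?_ <;>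
      constructor <;> rw [abs_le] <;> push_cast at h1 h2 ⊢ <;> omega
  have nearB : |x.1 - 0| ≤ ((R1 + 4 * (ρ + 2) : ℕ) : ℤ) ∧
      |x.2 - 0| ≤ ((R1 + 4 * (ρ + 2) : ℕ) : ℤ) →
      Crs 0 0 (R1 + 6 * (ρ + 2)) R2 (↑F : Set Edg) := by
    rintro ⟨h1, h2⟩
    by_contra hcon
    apply hno
    rw [abs_le] at h1 h2
    refine near_two (p := 0) (q := 0) (R := R1 + 6 * (ρ + 2)) (R2 := R2) (by omega)
      (near_conn hW hw hk hF hcon (conn_b hW hw hk g6) hx ?_)
      (near_conn hW hw hk hF hcon (conn_b hW hw hk g6) hx' ?_) ?_ <;>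
      constructor <;> rw [abs_le] <;> push_cast at h1 h2 ⊢ <;> omega
  have hside : ∀ {H : Set Edg} {r' : ℕ}, r' ≤ Rb →
      Reach {g | g ∈ D.cfg (Loc D a b c a' b' c' F) ∧ sd x (src g) ≤ (r':ℤ) ∧
        sd x (tgt g) ≤ (r':ℤ)} x' x → False := by
    intro H r' hr' h
    apply hno
    refine h.mono ?_
    rintro g ⟨k1, k2, k3⟩
    have : (r':ℤ) ≤ Rb := by exact_mod_cast hr'
    exact ⟨k1, by omega, by omega⟩
  rcases flip_pos hW hw hk (hF f1) hE hx1.2 hvf with ⟨x1, rfl, rfl, p1, p2, p3⟩ |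
    ⟨x1, rfl, rfl, p1, p2, p3⟩ | ⟨y1, rfl, rfl, p1, p2, p3⟩ | ⟨y1, rfl, rfl, p1, p2⟩ |
    ⟨y1, rfl, rfl, p1, p2⟩
  · -- bottom
    simp only at nearA nearB hd1 hd2
    by_cases c1 : x1 ≤ R1 + 4 * (ρ + 2)
    · have := nearB ⟨by rw [abs_le]; push_cast; omega, by rw [abs_le]; push_cast; omega⟩
      exact Or.inr (Or.inr (Or.inr (Or.inr (Or.inr (Or.inr (Or.inl this))))))
    by_cases c2 : D.r - a < x1 + (R1 + 4 * (ρ + 2))
    · have := corner_crs (q := c) (R := R1 + 6 * (ρ + 2)) hW hw hk hF g7 hx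
        ⟨by simp only; rw [abs_le]; push_cast; omega, by simp only; rw [abs_le]; push_cast; omega⟩
      exact Or.inr (Or.inr (Or.inr (Or.inr (Or.inr (Or.inr (Or.inr (Or.inl this)))))))
    obtain ⟨x1', rfl⟩ : ∃ x1' : ℤ, x' = (x1', (c:ℤ)) := by
      rcases flip_pos hW hw hk (hF f1') hE' hx1'.2 hvf' with ⟨z, rfl, -, k1, k2, -⟩ |
        ⟨z, rfl, -, k1, k2, -⟩ | ⟨z, rfl, -, k1, k2, -⟩ | ⟨z, rfl, -, k1, k2⟩ | ⟨z, rfl, -, k1, k2⟩
      · exact ⟨z, rfl⟩
      · exfalso; simp only at hd1 hd2; omega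
      · exfalso; simp only at hd1 hd2; omega
      · exfalso; simp only at hd1 hd2; omega
      · exfalso; simp only at hd1 hd2; omega
    simp only at hd1 hd2
    rcases lc_sym idn (fun _ _ => rfl) (m := m) (gg := ρ + 2) (R := R1) (N := N)
      (chart_bot (r := R1 + 2 * (ρ + 2)) hW hw hk hF (by push_cast; omega) (by push_cast; omega)
        (by push_cast; omega) hx)
      (chart_bot (r := R1 + 2 * (ρ + 2)) hW hw hk hF (by push_cast; omega) (by push_cast; omega)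
        (by push_cast; omega) hx') g1 (by omega) le_rfl g4 (by rw [abs_lt]; omega)
      (by rw [abs_le]; push_cast; omega) rfl rfl with h1 | h1
    · exact Or.inl ⟨p3, h1⟩
    · exact (hside (H := ∅) (by omega) h1).elim
  · -- top
    simp only at nearA nearB hd1 hd2
    by_cases c1 : x1 ≤ D.t + (R1 + 4 * (ρ + 2))
    · have := nearA ⟨by rw [abs_le]; push_cast; omega, by rw [abs_le]; push_cast; omega⟩
      exact Or.inr (Or.inr (Or.inr (Or.inr (Or.inr (Or.inl this)))))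
    by_cases c2 : D.r - a < x1 + (R1 + 4 * (ρ + 2))
    · have := corner_crs (q := D.h - b) (R := R1 + 6 * (ρ + 2)) hW hw hk hF g7 hx
        ⟨by simp only; rw [abs_le]; push_cast; omega, by simp only; rw [abs_le]; push_cast; omega⟩
      exact Or.inr (Or.inr (Or.inr (Or.inr (Or.inr (Or.inr (Or.inr (Or.inr this)))))))
    obtain ⟨x1', rfl⟩ : ∃ x1' : ℤ, x' = (x1', D.h - b) := by
      rcases flip_pos hW hw hk (hF f1') hE' hx1'.2 hvf' with ⟨z, rfl, -, k1, k2, -⟩ |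
        ⟨z, rfl, -, k1, k2, -⟩ | ⟨z, rfl, -, k1, k2, -⟩ | ⟨z, rfl, -, k1, k2⟩ | ⟨z, rfl, -, k1, k2⟩
      · exfalso; simp only at hd1 hd2; omega
      · exact ⟨z, rfl⟩
      · exfalso; simp only at hd1 hd2; omega
      · exfalso; simp only at hd1 hd2; omega
      · exfalso; simp only at hd1 hd2; omega
    simp only at hd1 hd2
    rcases lc_sym (rfy D.h) (sd_rfy _) (m := m) (gg := ρ + 2) (R := R1) (N := N)
      (chart_top (r := R1 + 2 * (ρ + 2)) hW hw hk hF (by push_cast; omega) (by push_cast; omega)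
        (by push_cast; omega) hx)
      (chart_top (r := R1 + 2 * (ρ + 2)) hW hw hk hF (by push_cast; omega) (by push_cast; omega)
        (by push_cast; omega) hx') g1 (by omega) le_rfl g4 (by rw [abs_lt]; omega)
      (by rw [abs_le]; push_cast; omega) (et x1) (et x1') with h1 | h1
    · exact Or.inr (Or.inl ⟨p3, h1⟩)
    · exact (hside (H := ∅) (by omega) h1).elim
  · -- right
    simp only at nearA nearB hd1 hd2
    by_cases c1 : y1 < c + (R1 + 4 * (ρ + 2))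
    · have := corner_crs (q := c) (R := R1 + 6 * (ρ + 2)) hW hw hk hF g7 hx
        ⟨by simp only; rw [abs_le]; push_cast; omega, by simp only; rw [abs_le]; push_cast; omega⟩
      exact Or.inr (Or.inr (Or.inr (Or.inr (Or.inr (Or.inr (Or.inr (Or.inl this)))))))
    by_cases c2 : D.h - b < y1 + (R1 + 4 * (ρ + 2))
    · have := corner_crs (q := D.h - b) (R := R1 + 6 * (ρ + 2)) hW hw hk hF g7 hx
        ⟨by simp only; rw [abs_le]; push_cast; omega, by simp only; rw [abs_le]; push_cast; omega⟩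
      exact Or.inr (Or.inr (Or.inr (Or.inr (Or.inr (Or.inr (Or.inr (Or.inr this)))))))
    obtain ⟨y1', rfl⟩ : ∃ y1' : ℤ, x' = (D.r - a, y1') := by
      rcases flip_pos hW hw hk (hF f1') hE' hx1'.2 hvf' with ⟨z, rfl, -, k1, k2, -⟩ |
        ⟨z, rfl, -, k1, k2, -⟩ | ⟨z, rfl, -, k1, k2, -⟩ | ⟨z, rfl, -, k1, k2⟩ | ⟨z, rfl, -, k1, k2⟩
      · exfalso; simp only at hd1 hd2; omega
      · exfalso; simp only at hd1 hd2; omega
      · exact ⟨z, rfl⟩
      · exfalso; simp only at hd1 hd2; omega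
      · exfalso; simp only at hd1 hd2; omega
    simp only at hd1 hd2
    rcases lc_sym (rgt D.r) (sd_rgt _) (m := m) (gg := ρ + 2) (R := R1) (N := N)
      (chart_rgt (r := R1 + 2 * (ρ + 2)) hW hw hk hF (by push_cast; omega) (by push_cast; omega)
        (by push_cast; omega) hx)
      (chart_rgt (r := R1 + 2 * (ρ + 2)) hW hw hk hF (by push_cast; omega) (by push_cast; omega)
        (by push_cast; omega) hx') g1 (by omega) le_rfl g4 (by rw [abs_lt]; omega)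
      (by rw [abs_le]; push_cast; omega) (er y1) (er y1') with h1 | h1
    · exact Or.inr (Or.inr (Or.inl ⟨p3, h1⟩))
    · exact (hside (H := ∅) (by omega) h1).elim
  · simp only at nearA nearB hd1 hd2
    have := nearA ⟨by rw [abs_le]; push_cast; omega, by rw [abs_le]; push_cast; omega⟩
    exact Or.inr (Or.inr (Or.inr (Or.inr (Or.inr (Or.inl this)))))
  · simp only at nearA nearB hd1 hd2
    have := nearB ⟨by rw [abs_le]; push_cast; omega, by rw [abs_le]; push_cast; omega⟩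
    exact Or.inr (Or.inr (Or.inr (Or.inr (Or.inr (Or.inr (Or.inl this))))))

theorem lv_det (hW : Wide D s) (hw : Wd k a b c a' b' c') (hk : 4 * (k:ℤ) < s)
    (hF : F ⊆ D.edges) : LvD D (Loc D a b c a' b' c' F) (Upc D a' b' c' F) := by
  intro e he heF x v hE hx hv
  obtain ⟨f1, f2⟩ := flip hW hw hk he heF
  have hx1 := clu_off hW hw hk hF hx
  have hv1 := clu_off hW hw hk hF hv
  have h1 := (mem_Zs.1 f2).2
  rcases hE with ⟨e1, e2⟩ | ⟨e1, e2⟩
  · rw [← e1, ← e2] at h1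
    exact h1.elim hx1.2 hv1.2
  · rw [← e1, ← e2] at h1
    exact h1.elim hv1.2 hx1.2

open H342L (cdist Curve)

/-- **The exploration paths with and without the free strips.** -/
theorem det_main (hW : Wide D s) (hw : Wd k a b c a' b' c')
    (hF : F ⊆ D.edges) {m ρ R1 R2 r3 N : ℕ} (hS : Sc D s k m ρ R1 R2 r3 N) {δ : ℝ} (hδ : 0 ≤ δ)
    (hB : ¬ BadE D a b c m ρ R1 R2 r3 N F) :
    cdist (crv D δ (Loc D a b c a' b' c' F)) (crv D δ (Upc D a' b' c' F)) ≤
      δ * (8 * R2 + 13) := by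
  obtain ⟨g1, g2, g3, g4, g5, g6, g7, g8, g9⟩ := id hS
  have hk : 4 * (k:ℤ) < s := by omega
  have h1 := crv_near hW.ok Loc_sub (Upc_sub hF) hδ (ρ := ρ) (R := 2 * R2) (by omega)
    (nv_det (a' := a') (b' := b') (c' := c') hW hw hF hS hB)
    (lc_det (Rb := 2 * R2) hW hw hF hS (by omega) hB)
    (lv_det hW hw hk hF)
  refine h1.trans ?_
  have h2 : max ρ (2 * R2) = 2 * R2 := max_eq_right (by omega)
  rw [h2]
  push_cast
  apply mul_le_mul_of_nonneg_left _ hδ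
  linarith

end Pool.Agent.H950.EX
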