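import Pool.Agent.H950.EX.Low

/-!
Duality: the exploration path of a configuration is the reflected exploration path of the dual
configuration.
-/

set_option autoImplicit false

namespace Pool.Agent.H950.EX

open H974 H12S H389NS H984N H984P H342P H443B Finset
open Pool.Agent.N116.EW
open H342L (cdist Curve)

variable {D : Dm} {F G : Finset Edg}

/-- The reflected dual of a state. -/
def dS (σ : St) : St := match σ.2 with
  | .ne => ((-σ.1.1, σ.1.2 + 1), .se)
  | .nw => ((-σ.1.1 + 1, σ.1.2 + 1), .sw)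
  | .sw => ((-σ.1.1 + 1, σ.1.2), .nw)
  | .se => ((-σ.1.1, σ.1.2), .ne)

/-- The reflected dual of an edge. -/
def dE : Edg ≃ Edg where
  toFun e := if e.2.2 then (-e.1, e.2.1, false) else (-e.1, e.2.1 + 1, true)
  invFun e := if e.2.2 then (-e.1, e.2.1 - 1, false) else (-e.1, e.2.1, true)
  left_inv := by rintro ⟨x, y, _ | _⟩ <;> simp
  right_inv := by rintro ⟨x, y, _ | _⟩ <;> simp

theorem dE_t (x y : ℤ) : dE (x, y, true) = (-x, y, false) := rfl
theorem dE_f (x y : ℤ) : dE (x, y, false) = (-x, y + 1, true) := rfl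
theorem dEs_t (x y : ℤ) : dE.symm (x, y, true) = (-x, y - 1, false) := rfl
theorem dEs_f (x y : ℤ) : dE.symm (x, y, false) = (-x, y, true) := rfl

theorem ae_dS (σ : St) : ae (dS σ) = dE (ae σ) := by
  obtain ⟨⟨x, y⟩, q⟩ := σ
  cases q
  · show ((-x, y + 1 - 1, false) : Edg) = (-x, y, false)
    rw [add_sub_cancel_right]
  · show ((-x + 1 - 1, y + 1, true) : Edg) = (-x, y + 1, true)
    rw [add_sub_cancel_right]
  · show ((-x + 1, y, false) : Edg) = (-(x - 1), y, false)
    rw [neg_sub, sub_eq_add_neg, add_comm]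
  · show ((-x, y, true) : Edg) = (-x, y - 1 + 1, true)
    rw [sub_add_cancel]

theorem mv_dS (σ : St) : mv (dS σ) = dS (rt σ) := by
  obtain ⟨⟨x, y⟩, q⟩ := σ
  cases q
  · show (((-x, y + 1 - 1), Q4.ne) : St) = ((-x, y), .ne)
    rw [add_sub_cancel_right]
  · show (((-x + 1 - 1, y + 1), Q4.se) : St) = ((-x, y + 1), .se)
    rw [add_sub_cancel_right]
  · rfl
  · rfl

theorem rt_dS (σ : St) : rt (dS σ) = dS (mv σ) := by
  obtain ⟨⟨x, y⟩, q⟩ := σ
  cases q
  · show (((-x, y + 1), Q4.sw) : St) = ((-(x + 1) + 1, y + 1), .sw)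
    congr 3
    ring
  · rfl
  · show (((-x + 1, y), Q4.ne) : St) = ((-(x - 1), y), .ne)
    congr 3
    ring
  · show (((-x, y), Q4.se) : St) = ((-x, y - 1 + 1), .se)
    rw [sub_add_cancel]

/-- Two orbits which examine edges of the same state. -/
theorem orb_congr {H H' : Set Edg} {a : St} {N : ℕ}
    (h : ∀ k < N, (ae (orb H a k) ∈ H ↔ ae (orb H a k) ∈ H')) : ∀ k ≤ N, orb H' a k = orb H a k := by
  intro k
  induction k with
  | zero => intro _; rfl
  | succ k ih =>
    intro hk
    rw [orb_succ, orb_succ, ih (by omega)]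
    have h1 := h k (by omega)
    by_cases hc : ae (orb H a k) ∈ H
    · rw [nxt_open hc, nxt_open (h1.1 hc)]
    · rw [nxt_closed hc, nxt_closed (fun h2 => hc (h1.2 h2))]

/-- The dual of an orbit. -/
theorem orb_dual {H H' : Set Edg} {a : St} {N : ℕ}
    (h : ∀ k < N, (dE (ae (orb H a k)) ∈ H' ↔ ae (orb H a k) ∉ H)) :
    ∀ k ≤ N, orb H' (dS a) k = dS (orb H a k) := by
  intro k
  induction k with
  | zero => intro _; rfl
  | succ k ih =>
    intro hk
    rw [orb_succ, orb_succ, ih (by omega)]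
    have h1 := h k (by omega)
    by_cases hc : ae (orb H a k) ∈ H
    · rw [nxt_open hc, nxt_closed, rt_dS]
      rw [ae_dS]
      intro h2
      exact h1.1 h2 hc
    · rw [nxt_closed hc, nxt_open, mv_dS]
      rw [ae_dS]
      exact h1.2 hc

/-- The dual rectangle. -/
def dD (D : Dm) : Dm := ⟨-D.r, -D.l, D.h + 1, -D.t⟩

theorem dD_ok (hD : D.Ok) : (dD D).Ok := by
  obtain ⟨h1, h2, h3, h4, h5⟩ := hD
  refine ⟨?_, ?_, ?_, ?_, ?_⟩ <;> unfold dD <;> simp only <;> omega

open Classical in
/-- The dual configuration. -/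
noncomputable def dF (D : Dm) (H : Finset Edg) : Finset Edg :=
  (dD D).edges.filter (fun e => dE.symm e ∈ D.edges ∧ dE.symm e ∉ D.cfg H)

theorem mem_dF {H : Finset Edg} {e : Edg} : e ∈ dF D H ↔ e ∈ (dD D).edges ∧
    dE.symm e ∈ D.edges ∧ dE.symm e ∉ D.cfg H := by
  classical
  unfold dF
  rw [Finset.mem_filter]

theorem dF_sub (H : Finset Edg) : dF D H ⊆ (dD D).edges := fun _ he => (mem_dF.1 he).1

/-- Edges of the rectangle which are not wired have their duals in the dual rectangle. -/
theorem dE_in {e : Edg} (he : e ∈ D.edges) (hw : e ∉ D.wir) : dE e ∈ (dD D).edges := by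
  obtain ⟨x, y, q⟩ := e
  unfold Dm.edges at he ⊢
  unfold Dm.wir at hw
  unfold dD
  simp only [Set.mem_ofPred_eq] at hw
  cases q
  · rw [dE_f]
    rw [mem_RE_false] at he
    rw [mem_RE_true]
    simp only [Bool.false_eq_true, false_and, true_and, false_or, or_false] at hw
    simp only
    omega
  · rw [dE_t]
    rw [mem_RE_true] at he
    rw [mem_RE_false]
    simp only
    omega

/-- Duals of edges of the rectangle are not wired. -/
theorem dE_nw {e : Edg} (he : e ∈ D.edges) : dE e ∉ (dD D).wir := by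
  obtain ⟨x, y, q⟩ := e
  unfold Dm.edges at he
  unfold Dm.wir dD
  simp only [Set.mem_ofPred_eq]
  cases q
  · rw [dE_f]
    rw [mem_RE_false] at he
    simp only [Bool.true_eq_false, false_and, true_and, false_or]
    omega
  · rw [dE_t]
    rw [mem_RE_true] at he
    simp only [Bool.false_eq_true, false_and, true_and, false_or, or_false]
    omega

/-- Duals of the edges across the free arc are wired. -/
theorem dE_out (hD : D.Ok) {σ : St} (hv : inR D.l D.r 0 D.h σ.1)
    (hf : face σ ∈ D.outer ∨ ((D.l ≤ (face σ).1 ∧ (face σ).1 < D.r) ∧ 0 ≤ (face σ).2 ∧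
      (face σ).2 < D.h)) (he : ae σ ∉ D.edges) (hns : σ ≠ Dm.stop) :
    dE (ae σ) ∈ (dD D).wir := by
  obtain ⟨⟨x, y⟩, q⟩ := σ
  obtain ⟨h1, h2, h3, h4, h5⟩ := hD
  unfold inR at hv
  unfold Dm.outer at hf
  unfold Dm.edges at he
  unfold Dm.stop at hns
  unfold Dm.wir dD
  simp only [Set.mem_ofPred_eq] at hf ⊢
  cases q
  · simp only [ae_ne, mem_RE_true, face_ne] at he hf hv ⊢
    rw [dE_t]
    simp only [Bool.false_eq_true, false_and, true_and, false_or, or_false]
    omega
  · simp only [ae_nw, mem_RE_false, face_nw] at he hf hv ⊢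
    rw [dE_f]
    simp only [Bool.true_eq_false, false_and, true_and, false_or]
    omega
  · simp only [ae_sw, mem_RE_true, face_sw] at he hf hv ⊢
    rw [dE_t]
    simp only [Bool.false_eq_true, false_and, true_and, false_or, or_false]
    omega
  · simp only [ae_se, mem_RE_false, face_se] at he hf hv ⊢
    rw [dE_f]
    simp only [Bool.true_eq_false, false_and, true_and, false_or]
    have h6 : ¬ (x = 0 ∧ y = 0) := by
      rintro ⟨rfl, rfl⟩
      exact hns rfl
    omega

/-- The dual of the walk. -/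
theorem dual_walk (hD : D.Ok) {H : Finset Edg} (hH : H ⊆ D.edges) :
    ∀ k ≤ D.len H, (dD D).walk (dF D H) (k + 1) = dS (D.walk H k) := by
  intro k hk
  have h1 : ∀ j < D.len H, (dE (ae (orb (D.cfg H) D.start j)) ∈ (dD D).cfg (dF D H) ↔
      ae (orb (D.cfg H) D.start j) ∉ D.cfg H) := by
    intro j hj
    have e1 : orb (D.cfg H) D.start j = D.walk H j := rfl
    rw [e1]
    by_cases he : ae (D.walk H j) ∈ D.edges
    · constructor
      · rintro (h2 | h2)
        · have h3 := (mem_dF.1 (show dE (ae (D.walk H j)) ∈ dF D H by exact_mod_cast h2)).2.2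
          rwa [Equiv.symm_apply_apply] at h3
        · exact absurd h2 (dE_nw he)
      · intro h2
        left
        have h3 : dE (ae (D.walk H j)) ∈ dF D H := by
          refine mem_dF.2 ⟨dE_in he (fun h4 => h2 (Or.inr h4)), ?_, ?_⟩
          · rwa [Equiv.symm_apply_apply]
          · rwa [Equiv.symm_apply_apply]
        exact_mod_cast h3
    · refine ⟨fun _ h2 => he (cfg_sub hD hH h2), fun _ => Or.inr ?_⟩
      exact dE_out hD (walk_in hD hH _) (dclu_in hD (walk_clu hD hH hj.le).2) he (clu_ne_stop hj)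
  have h2 := orb_dual h1 k hk
  have h3 : nxt ((dD D).cfg (dF D H)) (dD D).start = dS D.start := by
    have e1 : (dD D).start = ((-D.t, D.h + 1), .ne) := rfl
    have e2 : dS D.start = ((-D.t, D.h + 1), .se) := rfl
    rw [e1, e2, nxt_closed]
    · rfl
    · rw [ae_ne]
      rintro (h4 | h4)
      · have h5 := (mem_dF.1 (show ((-D.t, D.h + 1, true) : Edg) ∈ dF D H by
          exact_mod_cast h4)).2.1
        rw [dEs_t] at h5
        unfold Dm.edges at h5
        rw [mem_RE_false] at h5
        omega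
      · unfold Dm.wir dD at h4
        simp only [Set.mem_ofPred_eq, Bool.true_eq_false, false_and, true_and, false_or] at h4
        have := hD.h_pos
        omega
  unfold Dm.walk
  rw [orb_add, show orb ((dD D).cfg (dF D H)) (dD D).start 1 = dS D.start from h3]
  exact h2

theorem dual_stop (hD : D.Ok) {H : Finset Edg} (hH : H ⊆ D.edges) :
    (dD D).walk (dF D H) (D.len H + 2) = Dm.stop := by
  rw [show D.len H + 2 = (D.len H + 1) + 1 from rfl, clu_walk_succ,
    dual_walk hD hH _ le_rfl, walk_len hD hH]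
  have e1 : dS Dm.stop = ((0, 0), .ne) := rfl
  rw [e1, nxt_closed]
  · rfl
  · rw [ae_ne]
    rintro (h4 | h4)
    · have h5 := (mem_dF.1 (show ((0, 0, true) : Edg) ∈ dF D H by exact_mod_cast h4)).2.1
      rw [dEs_t] at h5
      unfold Dm.edges at h5
      rw [mem_RE_false] at h5
      omega
    · unfold Dm.wir dD at h4
      simp only [Set.mem_ofPred_eq, Bool.true_eq_false, false_and, true_and, false_or] at h4
      have := hD.h_pos
      omega

theorem dual_len (hD : D.Ok) {H : Finset Edg} (hH : H ⊆ D.edges) :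
    (dD D).len (dF D H) = D.len H + 2 := by
  apply le_antisymm
  · exact Nat.sInf_le (dual_stop hD hH)
  · obtain ⟨j, hj⟩ : ∃ j, j = (dD D).len (dF D H) := ⟨_, rfl⟩
    have hj' : (dD D).walk (dF D H) j = Dm.stop := by
      rw [hj]
      exact walk_len (dD_ok hD) (dF_sub H)
    by_contra hcon
    push Not at hcon
    rw [← hj] at hcon
    clear hj
    rcases j with _ | j
    · have e1 : (dD D).walk (dF D H) 0 = ((-D.t, D.h + 1), .ne) := rfl
      rw [e1] at hj'
      have := congrArg Prod.snd hj'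
      simp [Dm.stop] at this
    · have hjl : j ≤ D.len H := by omega
      rw [dual_walk hD hH j hjl] at hj'
      have h1 := walk_in hD hH j
      obtain ⟨σ, hσ⟩ : ∃ σ, σ = D.walk H j := ⟨_, rfl⟩
      rw [← hσ] at h1 hj'
      obtain ⟨⟨x, y⟩, q⟩ := σ
      unfold inR at h1
      unfold dS Dm.stop at hj'
      have h2 : 0 ≤ y := h1.2.1
      cases q
      · have h3 : y + 1 = 0 := congrArg (fun s : St => s.1.2) hj'
        omega
      all_goals exact absurd (congrArg Prod.snd hj') (by simp)

/-- The reflection of the plane. -/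
noncomputable def Jr (δ : ℝ) (z : ℂ) : ℂ := ⟨-z.re + δ / 2, z.im + δ / 2⟩

theorem pos_dS (δ : ℝ) (σ : St) : pos δ (dS σ) = Jr δ (pos δ σ) := by
  obtain ⟨⟨x, y⟩, q⟩ := σ
  cases q <;> unfold dS pos Jr <;> simp only <;> push_cast <;>
    apply Complex.ext <;> simp only <;> ring

theorem Jr_dist (δ : ℝ) (z w : ℂ) : dist (Jr δ z) (Jr δ w) = dist z w := by
  rw [Complex.dist_eq, Complex.dist_eq]
  unfold Jr
  rw [Complex.norm_def, Complex.norm_def]
  congr 1
  rw [Complex.normSq_apply, Complex.normSq_apply]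
  simp only [Complex.sub_re, Complex.sub_im]
  ring

end Pool.Agent.H950.EX
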