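import Pool.Agent.H950.EX.StepB

/-!
A lattice rectangle inside a larger one: the strips between the two are wired along the wired arc
and free along the free arc.
-/

set_option autoImplicit false

namespace Pool.Agent.H950.EX

open H974 H12S H389NS H984N H984P H342P H443B Finset
open Pool.Agent.N116.EW
open H342L (cdist Curve)

variable {D D' : Dm} {F F' : Finset Edg} {s : ℤ} {k a b c a' b' c' : ℕ}

/-- A walk which contains another one. -/
theorem emb_gen (hD : D.Ok) (hF : F ⊆ D.edges) {N0 : ℕ} (h0 : D'.walk F' N0 = D.start)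
    (hne : ∀ j < N0, D'.walk F' j ≠ Dm.stop)
    (hc : ∀ j < D.len F, (ae (D.walk F j) ∈ D.cfg F ↔ ae (D.walk F j) ∈ D'.cfg F')) :
    (∀ j ≤ D.len F, D'.walk F' (N0 + j) = D.walk F j) ∧ D'.len F' = N0 + D.len F := by
  have h1 : ∀ j ≤ D.len F, D'.walk F' (N0 + j) = D.walk F j := by
    intro j hj
    have h2 := orb_congr (H := D.cfg F) (H' := D'.cfg F') (a := D.start) (N := D.len F) hc j hj
    unfold Dm.walk at h0 ⊢
    rw [Nat.add_comm, orb_add, h0]
    exact h2
  refine ⟨h1, le_antisymm ?_ ?_⟩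
  · apply Nat.sInf_le
    show D'.walk F' (N0 + D.len F) = Dm.stop
    rw [h1 _ le_rfl, walk_len hD hF]
  · apply le_csInf ⟨N0 + D.len F, show D'.walk F' (N0 + D.len F) = Dm.stop by
      rw [h1 _ le_rfl, walk_len hD hF]⟩
    intro j hj
    by_contra hcon
    push Not at hcon
    rcases Nat.lt_or_ge j N0 with h3 | h3
    · exact hne j h3 hj
    · obtain ⟨i, rfl⟩ : ∃ i, j = N0 + i := ⟨j - N0, by omega⟩
      have hi : i < D.len F := by omega
      have hj' : D'.walk F' (N0 + i) = Dm.stop := hj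
      rw [h1 i hi.le] at hj'
      exact clu_ne_stop hi hj'

/-- The smaller rectangle. -/
def inn (D : Dm) (kl kr kt : ℕ) : Dm := ⟨D.l + kl, D.r - kr, D.h - kt, D.t⟩

variable {kl kr kt : ℕ}

theorem inn_ok (hW : Wide D s) (h1 : kl ≤ k) (h2 : kr ≤ k) (h3 : kt ≤ k)
    (hk : 4 * (k:ℤ) < s) : (inn D kl kr kt).Ok := by
  obtain ⟨g0, g1, g2, g3, g4, g5⟩ := hW
  refine ⟨?_, ?_, ?_, ?_, ?_⟩ <;> unfold inn <;> simp only <;> omega

theorem inn_sub : (inn D kl kr kt).edges ⊆ D.edges := by
  show RE (D.l + kl) (D.r - kr) 0 (D.h - kt) ⊆ RE D.l D.r 0 D.h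
  exact RE_subset (by omega) (by omega) le_rfl (by omega)

/-- Edges of the smaller rectangle. -/
theorem inn_edge (hW : Wide D s) (h3 : kt ≤ k) (hk : 4 * (k:ℤ) < s) (hk1 : 1 ≤ k) {e : Edg} (he : e ∈ (inn D kl kr kt).edges) :
    e ∉ Zs D kr kt 0 ∧ (e ∈ (inn D kl kr kt).wir ↔ e ∈ Os D kl kt 0 ∨ e ∈ D.wir) := by
  obtain ⟨g0, g1, g2, g3, g4, g5⟩ := hW
  obtain ⟨x, y, q⟩ := e
  rw [mem_Zs, mem_Os]
  unfold inn Dm.edges at he
  unfold inn Dm.edges Dm.wir fre wrd
  cases q
  · rw [mem_RE_false] at he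
    simp only at he
    rw [mem_RE_false, src_mk, tgt_false]
    simp only [Set.mem_ofPred_eq, Bool.false_eq_true, false_and, true_and, false_or, or_false]
    push_cast
    constructor
    · omega
    · constructor <;> intro h <;> omega
  · rw [mem_RE_true] at he
    simp only at he
    rw [mem_RE_true, src_mk, tgt_true]
    simp only [Set.mem_ofPred_eq, Bool.true_eq_false, false_and, true_and, false_or]
    push_cast
    constructor
    · omega
    · constructor <;> intro h <;> omega

/-- Edges examined outside of the smaller rectangle. -/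
theorem inn_out (hW : Wide D s) (h1 : kl ≤ k) (h2 : kr ≤ k) (h3 : kt ≤ k)
    (hk : 4 * (k:ℤ) < s) {σ : St}
    (hv : inR (inn D kl kr kt).l (inn D kl kr kt).r 0 (inn D kl kr kt).h σ.1)
    (hf : face σ ∈ (inn D kl kr kt).outer ∨ (((inn D kl kr kt).l ≤ (face σ).1 ∧
      (face σ).1 < (inn D kl kr kt).r) ∧ 0 ≤ (face σ).2 ∧ (face σ).2 < (inn D kl kr kt).h))
    (he : ae σ ∉ (inn D kl kr kt).edges) (hns : σ ≠ Dm.stop) :
    ae σ ∉ D.wir ∧ ae σ ∉ Os D kl kt 0 ∧ (ae σ ∈ D.edges → ae σ ∈ Zs D kr kt 0) := by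
  obtain ⟨g0, g1, g2, g3, g4, g5⟩ := hW
  obtain ⟨⟨x, y⟩, q⟩ := σ
  unfold inR inn at hv
  unfold Dm.outer inn at hf
  unfold Dm.edges inn at he
  unfold Dm.stop at hns
  simp only [Set.mem_ofPred_eq] at hf hv
  rw [mem_Zs, mem_Os]
  unfold Dm.edges Dm.wir fre wrd
  cases q
  · simp only [ae_ne, mem_RE_true, face_ne, src_mk, tgt_true, Set.mem_ofPred_eq,
      Bool.true_eq_false, false_and, true_and, false_or] at he hf hv ⊢
    push_cast
    refine ⟨?_, ?_, ?_⟩ <;> omega
  · simp only [ae_nw, mem_RE_false, face_nw, src_mk, tgt_false, Set.mem_ofPred_eq,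
      Bool.false_eq_true, false_and, true_and, false_or, or_false] at he hf hv ⊢
    push_cast
    refine ⟨?_, ?_, ?_⟩ <;> omega
  · simp only [ae_sw, mem_RE_true, face_sw, src_mk, tgt_true, Set.mem_ofPred_eq,
      Bool.true_eq_false, false_and, true_and, false_or] at he hf hv ⊢
    push_cast
    refine ⟨?_, ?_, ?_⟩ <;> omega
  · simp only [ae_se, mem_RE_false, face_se, src_mk, tgt_false, Set.mem_ofPred_eq,
      Bool.false_eq_true, false_and, true_and, false_or, or_false] at he hf hv ⊢
    have h6 : ¬ (x = 0 ∧ y = 0) := by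
      rintro ⟨rfl, rfl⟩
      exact hns rfl
    push_cast
    refine ⟨?_, ?_, ?_⟩ <;> omega

/-- The first steps in the larger rectangle go down. -/
theorem down (hW : Wide D s) (h1 : kl ≤ k) (h3 : kt ≤ k) (hk : 4 * (k:ℤ) < s) : ∀ i ≤ kt,
    D.walk (Hc D kr kt 0 kl kt 0 F) (2 * i) = ((D.t, D.h - i), .ne) ∧
    (i < kt → D.walk (Hc D kr kt 0 kl kt 0 F) (2 * i + 1) = ((D.t, D.h - i), .se)) := by
  obtain ⟨g0, g1, g2, g3, g4, g5⟩ := hW
  have step1 : ∀ i < kt, nxt (D.cfg (Hc D kr kt 0 kl kt 0 F)) ((D.t, D.h - i), .ne) =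
      ((D.t, D.h - i), .se) := by
    intro i hi
    rw [nxt_closed]
    · rfl
    · rw [ae_ne]
      rintro (h | h)
      · have h' : ((D.t, D.h - i, true) : Edg) ∈ Hc D kr kt 0 kl kt 0 F := by exact_mod_cast h
        rcases Finset.mem_union.1 h' with h' | h'
        · apply (Finset.mem_sdiff.1 h').2
          rw [mem_Zs]
          unfold Dm.edges fre
          rw [mem_RE_true, src_mk, tgt_true]
          simp only [Set.mem_ofPred_eq]
          push_cast
          omega
        · rw [mem_Os] at h'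
          unfold wrd at h'
          rw [src_mk, tgt_true] at h'
          simp only [Set.mem_ofPred_eq] at h'
          push_cast at h'
          omega
      · unfold Dm.wir at h
        simp only [Set.mem_ofPred_eq, Bool.true_eq_false, false_and, true_and, false_or] at h
        omega
  have step2 : ∀ i < kt, nxt (D.cfg (Hc D kr kt 0 kl kt 0 F)) ((D.t, D.h - i), .se) =
      ((D.t, D.h - (i + 1 : ℕ)), .ne) := by
    intro i hi
    rw [nxt_open]
    · show (((D.t, D.h - i - 1), Q4.ne) : St) = ((D.t, D.h - (i + 1 : ℕ)), .ne)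
      congr 2
      push_cast
      ring
    · rw [ae_se]
      left
      have : ((D.t, D.h - i - 1, false) : Edg) ∈ Hc D kr kt 0 kl kt 0 F := by
        apply Finset.mem_union_right
        rw [mem_Os]
        unfold Dm.edges wrd
        rw [mem_RE_false, src_mk, tgt_false]
        simp only [Set.mem_ofPred_eq]
        push_cast
        omega
      exact_mod_cast this
  intro i
  induction i with
  | zero =>
    intro _
    have e0 : D.walk (Hc D kr kt 0 kl kt 0 F) (2 * 0) = ((D.t, D.h - (0 : ℕ)), .ne) := by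
      show D.start = _
      unfold Dm.start
      push_cast
      rw [sub_zero]
    refine ⟨e0, fun hi => ?_⟩
    rw [clu_walk_succ, e0]
    exact step1 0 hi
  | succ i ih =>
    intro hi
    have h4 := (ih (by omega)).2 (by omega)
    have e0 : D.walk (Hc D kr kt 0 kl kt 0 F) (2 * (i + 1)) = ((D.t, D.h - (i + 1 : ℕ)), .ne) := by
      rw [show 2 * (i + 1) = 2 * i + 1 + 1 by ring, clu_walk_succ, h4]
      exact step2 i (by omega)
    refine ⟨e0, fun hi' => ?_⟩
    rw [clu_walk_succ, e0]
    exact step1 (i + 1) hi'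

/-- **The embedding.** -/
theorem emb (hW : Wide D s) (h1 : kl ≤ k) (h2 : kr ≤ k) (h3 : kt ≤ k)
    (hk : 4 * (k:ℤ) < s) (hk1 : 1 ≤ k) (hF : F ⊆ D.edges) {δ : ℝ} (hδ : 0 ≤ δ) :
    cdist (crv (inn D kl kr kt) δ (F ∩ (inn D kl kr kt).edges))
      (crv D δ (Hc D kr kt 0 kl kt 0 F)) ≤ δ * (2 * k + 2) := by
  have hI := inn_ok hW h1 h2 h3 hk
  have hdn := down (F := F) (kr := kr) hW h1 h3 hk
  have hFI : F ∩ (inn D kl kr kt).edges ⊆ (inn D kl kr kt).edges := Finset.inter_subset_right
  have hpos : ∀ j ≤ 2 * kt, ∃ i ≤ kt,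
      (D.walk (Hc D kr kt 0 kl kt 0 F) j).1 = (D.t, D.h - (i : ℕ)) := by
    intro j hj
    rcases Nat.even_or_odd' j with ⟨i, rfl | rfl⟩
    · exact ⟨i, by omega, by rw [(hdn i (by omega)).1]⟩
    · exact ⟨i, by omega, by rw [(hdn i (by omega)).2 (by omega)]⟩
  have hWc := hW
  obtain ⟨g0, g1, g2, g3, g4, g5⟩ := hWc
  obtain ⟨hw, hl⟩ := emb_gen (D := inn D kl kr kt) (D' := D)
    (F := F ∩ (inn D kl kr kt).edges) (F' := Hc D kr kt 0 kl kt 0 F) (N0 := 2 * kt) hI hFI
    (by
      rw [(hdn kt le_rfl).1]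
      rfl)
    (by
      intro j hj hcon
      obtain ⟨i, hi, hij⟩ := hpos j hj.le
      rw [hcon] at hij
      have : (0:ℤ) = D.h - (i : ℕ) := congrArg Prod.snd hij
      omega)
    (by
      intro j hj
      obtain ⟨σ, hσ⟩ : ∃ σ, σ = (inn D kl kr kt).walk (F ∩ (inn D kl kr kt).edges) j :=
        ⟨_, rfl⟩
      have hv := walk_in hI hFI j
      have hf := dclu_in hI (walk_clu hI hFI hj.le).2
      have hns := clu_ne_stop hj
      rw [← hσ] at hv hf hns ⊢
      by_cases he : ae σ ∈ (inn D kl kr kt).edges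
      · obtain ⟨e1, e2⟩ := inn_edge hW h3 hk hk1 he
        constructor
        · rintro (h | h)
          · left
            have h' : ae σ ∈ F ∩ (inn D kl kr kt).edges := by exact_mod_cast h
            have : ae σ ∈ Hc D kr kt 0 kl kt 0 F :=
              Finset.mem_union_left _ (Finset.mem_sdiff.2 ⟨(Finset.mem_inter.1 h').1, e1⟩)
            exact_mod_cast this
          · rcases e2.1 h with h | h
            · left
              have : ae σ ∈ Hc D kr kt 0 kl kt 0 F := Finset.mem_union_right _ h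
              exact_mod_cast this
            · exact Or.inr h
        · rintro (h | h)
          · have h' : ae σ ∈ Hc D kr kt 0 kl kt 0 F := by exact_mod_cast h
            rcases Finset.mem_union.1 h' with h' | h'
            · left
              have : ae σ ∈ F ∩ (inn D kl kr kt).edges :=
                Finset.mem_inter.2 ⟨(Finset.mem_sdiff.1 h').1, he⟩
              exact_mod_cast this
            · exact Or.inr (e2.2 (Or.inl h'))
          · exact Or.inr (e2.2 (Or.inr h))
      · obtain ⟨e1, e2, e3⟩ := inn_out hW h1 h2 h3 hk hv hf he hns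
        constructor
        · intro h
          exact absurd (cfg_sub hI hFI h) he
        · rintro (h | h)
          · exfalso
            have h' : ae σ ∈ Hc D kr kt 0 kl kt 0 F := by exact_mod_cast h
            rcases Finset.mem_union.1 h' with h' | h'
            · obtain ⟨h4, h5⟩ := Finset.mem_sdiff.1 h'
              exact h5 (e3 (hF h4))
            · exact e2 h'
          · exact absurd h e1)
  have hl' : D.len (Hc D kr kt 0 kl kt 0 F) = 2 * kt +
      (inn D kl kr kt).len (F ∩ (inn D kl kr kt).edges) + 0 := by rw [hl, add_zero]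
  refine (crv_ext (N0 := 2 * kt) (N1 := 0) (ρ := k) hI hFI hδ hl' hw ?_ ?_).trans (le_of_eq ?_)
  · intro j hj
    obtain ⟨i, hi, hij⟩ := hpos j hj
    rw [hij]
    show sd (D.t, D.h - kt) (D.t, D.h - (i:ℕ)) ≤ k
    unfold sd
    simp only [sub_self, abs_zero]
    apply max_le (by positivity)
    rw [abs_le]
    omega
  · intro j hj1 hj2
    have : j = 2 * kt + (inn D kl kr kt).len (F ∩ (inn D kl kr kt).edges) := by omega
    rw [this, ← hl, walk_len hW.ok (Hc_sub hF), sd_self']
    positivity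
  · ring

end Pool.Agent.H950.EX
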