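import Pool.Agent.H950.EX.Dual

/-!
Curves with additional pieces at the ends, and reflected curves.
-/

set_option autoImplicit false

namespace Pool.Agent.H950.EX

open H974 H12S H389NS H984N H984P H342P H443B Finset
open Pool.Agent.N116.EW
open H342L (cdist Curve)

variable {D : Dm} {F G : Finset Edg}

/-- A curve with additional pieces at the ends. -/
theorem pl_ext {N N0 N1 : ℕ} (hN : 0 < N) {X Y : ℕ → ℂ} {r s : ℝ} (hr : 0 ≤ r) (hs : 0 ≤ s)
    (hst : ∀ i < N, dist (X i) (X (i + 1)) ≤ s)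
    (hXY : ∀ i ≤ N, Y (N0 + i) = X i)
    (h0 : ∀ j ≤ N0, dist (X 0) (Y j) ≤ r)
    (h1 : ∀ j, N0 + N ≤ j → j ≤ N0 + N + N1 → dist (X N) (Y j) ≤ r) :
    cdist (pl N X) (pl (N0 + N + N1) Y) ≤ r + s := by
  obtain ⟨b, hb⟩ : ∃ b : ℕ → ℕ, b = fun i => if i = 0 then 0 else if i = N then N0 + N + N1
    else N0 + i := ⟨_, rfl⟩
  have b0 : b 0 = 0 := by rw [hb]; simp
  have bN : b N = N0 + N + N1 := by
    rw [hb]
    show (if N = 0 then 0 else if N = N then N0 + N + N1 else N0 + N) = N0 + N + N1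
    rw [if_neg (by omega), if_pos rfl]
  have hbd : ∀ i, i = 0 ∧ b i = 0 ∨ i = N ∧ b i = N0 + N + N1 ∨ i ≠ 0 ∧ i ≠ N ∧ b i = N0 + i := by
    intro i
    rw [hb]
    simp only
    by_cases h : i = 0
    · left; exact ⟨h, by rw [if_pos h]⟩
    · by_cases h' : i = N
      · right; left; exact ⟨h', by rw [if_neg h, if_pos h']⟩
      · right; right; exact ⟨h, h', by rw [if_neg h, if_neg h']⟩
  have key : ∀ i < N, ∀ k l : ℕ, i ≤ k → k ≤ i + 1 → b i ≤ l → l ≤ b (i + 1) →
      dist (X k) (Y l) ≤ r + s := by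
    intro i hi k l hk1 hk2 hl1 hl2
    have hXX : dist (X k) (X i) ≤ s ∧ dist (X k) (X (i + 1)) ≤ s := by
      rcases Nat.eq_or_lt_of_le hk1 with rfl | hk
      · exact ⟨by rw [dist_self]; exact hs, hst _ hi⟩
      · have : k = i + 1 := by omega
        rw [this]
        exact ⟨by rw [dist_comm]; exact hst _ hi, by rw [dist_self]; exact hs⟩
    have hYY : dist (X i) (Y l) ≤ r ∨ dist (X (i + 1)) (Y l) ≤ r := by
      rcases Nat.lt_or_ge N0 l with hl | hl
      · rcases Nat.lt_or_ge l (N0 + N) with hl' | hl'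
        · obtain ⟨j, rfl⟩ : ∃ j, l = N0 + j := ⟨l - N0, by omega⟩
          rw [hXY j (by omega)]
          rcases hbd i with ⟨e1, e2⟩ | ⟨e1, e2⟩ | ⟨e1, e1', e2⟩ <;>
            rcases hbd (i + 1) with ⟨f1, f2⟩ | ⟨f1, f2⟩ | ⟨f1, f1', f2⟩
          all_goals first
            | omega
            | skip
          all_goals
            rcases (show j = i ∨ j = i + 1 by omega) with e | e
          all_goals
            rw [e]
            first
              | exact Or.inl (by rw [dist_self]; exact hr)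
              | exact Or.inr (by rw [dist_self]; exact hr)
        · right
          have : i + 1 = N := by
            rcases hbd (i + 1) with ⟨f1, f2⟩ | ⟨f1, f2⟩ | ⟨f1, f1', f2⟩ <;> omega
          rw [this]
          apply h1 l hl'
          have : b (i + 1) ≤ N0 + N + N1 := by
            rcases hbd (i + 1) with ⟨f1, f2⟩ | ⟨f1, f2⟩ | ⟨f1, f1', f2⟩ <;> omega
          omega
      · left
        have : i = 0 := by
          rcases hbd i with ⟨f1, f2⟩ | ⟨f1, f2⟩ | ⟨f1, f1', f2⟩ <;> omega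
        rw [this]
        exact h0 l hl
    rcases hYY with h | h
    · exact (dist_triangle _ (X i) _).trans (by linarith [hXX.1])
    · exact (dist_triangle _ (X (i + 1)) _).trans (by linarith [hXX.2])
  obtain ⟨φ, hφ⟩ := Pool.Agent.N839.EW.plIso N (N0 + N + N1) N X Y (fun i => i) b (r + s) hN
    (by omega) rfl b0 rfl bN (fun i _ => Nat.lt_succ_self i) (fun i hi => by
      rcases hbd i with ⟨e1, e2⟩ | ⟨e1, e2⟩ | ⟨e1, e1', e2⟩ <;>
        rcases hbd (i + 1) with ⟨f1, f2⟩ | ⟨f1, f2⟩ | ⟨f1, f1', f2⟩ <;> omega) key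
  exact cdist_le_of (by positivity) φ hφ

/-- Two walks of which one is a piece of the other. -/
theorem crv_ext {D' : Dm} {F' : Finset Edg} (hD : D.Ok) (hF : F ⊆ D.edges) {δ : ℝ} (hδ : 0 ≤ δ)
    {N0 N1 ρ : ℕ} (hlen : D'.len F' = N0 + D.len F + N1)
    (hw : ∀ i ≤ D.len F, D'.walk F' (N0 + i) = D.walk F i)
    (h0 : ∀ j ≤ N0, sd D.start.1 (D'.walk F' j).1 ≤ ρ)
    (h1 : ∀ j, N0 + D.len F ≤ j → j ≤ N0 + D.len F + N1 → sd Dm.stop.1 (D'.walk F' j).1 ≤ ρ) :
    cdist (crv D δ F) (crv D' δ F') ≤ δ * (2 * ρ + 2) := by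
  have hc : ∀ (σ τ : St), sd σ.1 τ.1 ≤ ρ → dist (pos δ σ) (pos δ τ) ≤ δ * (2 * ρ + 1) := by
    intro σ τ h
    refine (dist_pos_le hδ _ _).trans ?_
    apply mul_le_mul_of_nonneg_left _ hδ
    have : ((sd σ.1 τ.1 : ℤ) : ℝ) ≤ ((ρ : ℤ) : ℝ) := by exact_mod_cast h
    push_cast at this
    linarith
  have h := pl_ext (N := D.len F) (N0 := N0) (N1 := N1) (len_pos hD hF)
    (X := fun k => pos δ (D.walk F k)) (Y := fun k => pos δ (D'.walk F' k))
    (r := δ * (2 * ρ + 1)) (s := δ / 2) (by positivity) (by positivity)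
    (fun i _ => by
      rw [clu_walk_succ]
      exact pos_nxt hδ _ _)
    (fun i hi => by rw [hw i hi])
    (fun j hj => hc _ _ (h0 j hj))
    (fun j hj1 hj2 => by
      rw [walk_len hD hF]
      exact hc _ _ (h1 j hj1 hj2))
  unfold crv
  rw [hlen]
  refine h.trans ?_
  nlinarith

theorem pl_Jr (δ : ℝ) (N : ℕ) (X : ℕ → ℂ) (s : unitInterval) :
    pl N (fun k => Jr δ (X k)) s = Jr δ (pl N X s) := by
  have h : ∀ z w : ℂ, Jr δ z - Jr δ w = -(starRingEnd ℂ) (z - w) := by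
    intro z w
    unfold Jr
    apply Complex.ext
    · simp only [Complex.sub_re, Complex.neg_re, Complex.conj_re]; ring
    · simp only [Complex.sub_im, Complex.neg_im, Complex.conj_im]; ring
  have h2 : ∀ z w : ℂ, Jr δ (z + w) = Jr δ z + -(starRingEnd ℂ) w := by
    intro z w
    unfold Jr
    apply Complex.ext
    · simp only [Complex.add_re, Complex.neg_re, Complex.conj_re]; ring
    · simp only [Complex.add_im, Complex.neg_im, Complex.conj_im]; ring
  show Jr δ (X 0) + ∑ k ∈ Finset.range N, ((clamp (s * N - k) : ℝ) : ℂ) *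
    (Jr δ (X (k + 1)) - Jr δ (X k)) = Jr δ (X 0 + ∑ k ∈ Finset.range N,
    ((clamp (s * N - k) : ℝ) : ℂ) * (X (k + 1) - X k))
  rw [h2, map_sum, ← Finset.sum_neg_distrib]
  congr 1
  apply Finset.sum_congr rfl
  intro k _
  rw [h, map_mul, Complex.conj_ofReal]
  ring

theorem cdist_Jr {δ : ℝ} {γ γ' ξ ξ' : C(unitInterval, ℂ)} (h : ∀ s, ξ s = Jr δ (γ s))
    (h' : ∀ s, ξ' s = Jr δ (γ' s)) : cdist γ γ' = cdist ξ ξ' := by
  unfold H342L.cdist
  congr 1
  funext φ
  congr 1
  funext t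
  rw [h, h', Jr_dist]

/-- The dual of a curve. -/
theorem crv_dual (hD : D.Ok) {H : Finset Edg} (hH : H ⊆ D.edges) {δ : ℝ} (hδ : 0 ≤ δ) :
    ∃ ξ : C(unitInterval, ℂ), (∀ s, ξ s = Jr δ (crv D δ H s)) ∧
      cdist ξ (crv (dD D) δ (dF D H)) ≤ δ * 4 := by
  refine ⟨pl (D.len H) (fun k => Jr δ (pos δ (D.walk H k))), fun s => pl_Jr δ _ _ s, ?_⟩
  have h := pl_ext (N := D.len H) (N0 := 1) (N1 := 1) (len_pos hD hH)
    (X := fun k => Jr δ (pos δ (D.walk H k)))
    (Y := fun k => pos δ ((dD D).walk (dF D H) k))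
    (r := δ / 2) (s := δ / 2) (by positivity) (by positivity)
    (fun i _ => by
      rw [Jr_dist, clu_walk_succ]
      exact pos_nxt hδ _ _)
    (fun i hi => by
      rw [add_comm 1 i, dual_walk hD hH i hi, pos_dS])
    (fun j hj => by
      rw [← pos_dS, ← dual_walk hD hH 0 (Nat.zero_le _)]
      rcases (show j = 0 ∨ j = 1 by omega) with rfl | rfl
      · rw [dist_comm, clu_walk_succ]
        exact pos_nxt hδ _ _
      · rw [dist_self]; positivity)
    (fun j hj1 hj2 => by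
      rw [← pos_dS, ← dual_walk hD hH _ le_rfl]
      rcases (show j = D.len H + 1 ∨ j = D.len H + 1 + 1 by omega) with rfl | rfl
      · rw [dist_self]; positivity
      · rw [clu_walk_succ (dD D) (dF D H) (D.len H + 1)]
        exact pos_nxt hδ _ _)
  unfold crv
  rw [dual_len hD hH, show D.len H + 2 = 1 + D.len H + 1 by ring]
  refine h.trans ?_
  linarith

/-- Closeness of the dual curves. -/
theorem crv_dual_le (hD : D.Ok) {H H' : Finset Edg} (hH : H ⊆ D.edges) (hH' : H' ⊆ D.edges)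
    {δ : ℝ} (hδ : 0 ≤ δ) : cdist (crv D δ H) (crv D δ H') ≤
      cdist (crv (dD D) δ (dF D H)) (crv (dD D) δ (dF D H')) + δ * 8 := by
  obtain ⟨ξ, h1, h2⟩ := crv_dual hD hH hδ
  obtain ⟨ξ', h1', h2'⟩ := crv_dual hD hH' hδ
  rw [cdist_Jr h1 h1']
  have k1 := H342L.cdist_triangle ξ (crv (dD D) δ (dF D H)) ξ'
  have k2 := H342L.cdist_triangle (crv (dD D) δ (dF D H)) (crv (dD D) δ (dF D H')) ξ'
  rw [H342L.cdist_comm (crv (dD D) δ (dF D H')) ξ'] at k2
  linarith

/-- The curve depends only on the edges of the configuration and the wired edges. -/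
theorem crv_cfg {H H' : Finset Edg} (h : D.cfg H = D.cfg H') (δ : ℝ) :
    crv D δ H = crv D δ H' := by
  have hw : D.walk H = D.walk H' := by unfold Dm.walk; rw [h]
  have hl : D.len H = D.len H' := by unfold Dm.len; rw [hw]
  unfold crv
  rw [hl, hw]

end Pool.Agent.H950.EX
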