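import Pool.Agent.H950.EX.Lim

/-!
Families of limits of the exploration paths in rectangles.
-/

set_option autoImplicit false

namespace Pool.Agent.H950.EX

open H974 H12S H984N H984P MeasureTheory Filter Topology Finset
open H342L (cdist Curve)

theorem small_pow {C e ε : ℝ} (hC : 0 < C) (he : 0 < e) (hε : 0 < ε) :
    ∃ ρ : ℝ, 0 < ρ ∧ ∀ x : ℝ, 0 ≤ x → x ≤ ρ → C * x ^ e ≤ ε := by
  refine ⟨(ε / C) ^ (1 / e), by positivity, fun x hx h => ?_⟩
  calc C * x ^ e ≤ C * ((ε / C) ^ (1 / e)) ^ e :=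
        mul_le_mul_of_nonneg_left (Real.rpow_le_rpow hx h he.le) hC.le
    _ = ε := by
        rw [← Real.rpow_mul (by positivity), one_div, inv_mul_cancel₀ he.ne', Real.rpow_one]
        field_simp

theorem fR_approx (R : Rect) {ε : ℝ} (hε : 0 < ε) : ∃ ρ : ℝ, 0 < ρ ∧ ∀ (R' : Rect) (δ δ' : ℝ),
    gap R R' ≤ ρ → 0 < δ → 0 < δ' → δ' ≤ ρ → |δ - δ'| ≤ ρ * δ' →
    dist (fR R δ) (fR R' δ') ≤ ε := by
  obtain ⟨κ, hκ, hκ1, hR⟩ := exists_good R
  obtain ⟨e, he, he1, h⟩ := rect_lp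
  obtain ⟨C, hC, h'⟩ := h κ hκ hκ1
  obtain ⟨ρ, hρ, hp⟩ := small_pow hC he hε
  refine ⟨min (κ / 4) (ρ / 3), lt_min (by positivity) (by positivity), ?_⟩
  intro R' δ δ' hg hδ hδ' hd hm
  have h1 : gap R R' ≤ κ / 4 := hg.trans (min_le_left _ _)
  have hR1 : Good κ R := good_of_gap hκ hR (by rw [gap_self]; positivity) hκ1
  have hR' : Good κ R' := good_of_gap hκ hR h1 hκ1
  refine (h' R R' δ δ' hR1 hR' hδ hδ').2.trans (hp _ (dev_pos R δ R' hδ').le ?_)
  unfold dev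
  have h2 : |δ - δ'| / δ' ≤ ρ / 3 := by
    rw [div_le_iff₀ hδ']
    exact hm.trans (mul_le_mul_of_nonneg_right (min_le_right _ _) hδ'.le)
  have h3 := hg.trans (min_le_right _ _)
  have h4 := hd.trans (min_le_right _ _)
  linarith

theorem fR_slow (R : Rect) : Slow (fR R) := by
  intro ε hε
  obtain ⟨ρ, hρ, h⟩ := fR_approx R hε
  exact ⟨ρ, hρ, fun δ δ' hδ hδ' hd hm => h R δ δ' (by rw [gap_self]; exact hρ.le) hδ hδ' hd hm⟩

/-- A dense sequence of rectangles. -/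
theorem dense_rect : ∃ T : ℕ → Rect, ∀ (R : Rect) (ε : ℝ), 0 < ε → ∃ n, gap R (T n) < ε := by
  obtain ⟨f, hf⟩ : ∃ f : Rect → ℝ × ℝ × ℝ × ℝ, f = fun R => (R.A, R.B, R.H, R.t) := ⟨_, rfl⟩
  have hgap : ∀ R R' : Rect, gap R R' = dist (f R) (f R') := by
    intro R R'
    rw [hf]
    unfold gap
    rw [Prod.dist_eq, Prod.dist_eq, Prod.dist_eq, Real.dist_eq, Real.dist_eq, Real.dist_eq,
      Real.dist_eq, max_assoc]
  have hne : Nonempty (Set.range f) := ⟨⟨f ⟨1, 1, 1, 0, one_pos, one_pos, one_pos, by norm_num,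
    by norm_num⟩, ⟨_, rfl⟩⟩⟩
  obtain ⟨u, hu⟩ := TopologicalSpace.exists_dense_seq (Set.range f)
  have h1 : ∀ n, ∃ R : Rect, f R = (u n : ℝ × ℝ × ℝ × ℝ) := fun n => (u n).2
  choose T hT using h1
  refine ⟨T, fun R ε hε => ?_⟩
  obtain ⟨n, hn⟩ := Metric.denseRange_iff.1 hu ⟨f R, ⟨R, rfl⟩⟩ ε hε
  refine ⟨n, ?_⟩
  rw [hgap, hT n]
  exact hn

theorem clu_seq {x : ℕ → Yc} {φ : ℕ → ℕ} (hφ : StrictMono φ) {y : Yc}
    (h : Tendsto (fun i => x (φ i)) atTop (𝓝 y)) : MapClusterPt y atTop x :=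
  MapClusterPt.of_comp hφ.tendsto_atTop h.mapClusterPt

/-- **Simultaneous subsequential limits.** -/
theorem fam {δ : ℕ → ℝ} (h0 : ∀ i, 0 < δ i) (h1 : Tendsto δ atTop (𝓝 0)) :
    ∃ φ : ℕ → ℕ, StrictMono φ ∧ ∀ R : Rect, ∃ y : Yc,
      Tendsto (fun i => fR R (δ (φ i))) atTop (𝓝 y) := by
  obtain ⟨T, hT⟩ := dense_rect
  obtain ⟨φ, hφ, hn⟩ := diag (x := fun n k => fR (T n) (δ k)) (fun n φ hφ =>
    fR_cpt (T n) (δ ∘ φ) (fun i => h0 _) (h1.comp hφ.tendsto_atTop))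
  refine ⟨φ, hφ, fun R => ?_⟩
  obtain ⟨ψ, hψ, y, hy⟩ := fR_cpt R (δ ∘ φ) (fun i => h0 _) (h1.comp hφ.tendsto_atTop)
  refine ⟨y, approx_lim (clu_seq (x := fun i => fR R (δ (φ i))) hψ hy) ?_⟩
  intro ε hε
  obtain ⟨ρ, hρ, h⟩ := fR_approx R hε
  obtain ⟨n, hn'⟩ := hT R ρ hρ
  obtain ⟨z, hz⟩ := hn n
  refine ⟨_, z, hz, ?_⟩
  filter_upwards [(h1.comp hφ.tendsto_atTop).eventually_le_const hρ] with i hi
  exact h (T n) _ _ hn'.le (h0 _) (h0 _) hi (by
    rw [sub_self, abs_zero]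
    exact mul_nonneg hρ.le (h0 _).le)

/-- **Convergence from a sequence of meshes and nearby rectangles.** -/
theorem full {δ : ℕ → ℝ} (h0 : ∀ i, 0 < δ i) (h1 : Tendsto δ atTop (𝓝 0))
    (h2 : Tendsto (fun i => δ (i + 1) / δ i) atTop (𝓝 1)) (R : Rect)
    (h : ∀ ε > 0, ∃ R' : Rect, gap R R' < ε ∧ ∃ y : Yc,
      Tendsto (fun i => fR R' (δ i)) atTop (𝓝 y)) :
    ∃ y : Yc, Tendsto (fR R) (𝓝[>] 0) (𝓝 y) := by
  obtain ⟨y, hy⟩ := clu_nonempty (fR_cpt R)
  refine ⟨y, approx_lim hy ?_⟩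
  intro ε hε
  obtain ⟨ρ, hρ, ha⟩ := fR_approx R hε
  obtain ⟨R', hR', z, hz⟩ := h ρ hρ
  refine ⟨fR R', z, seq_lim (fR_slow R') h0 h1 h2 hz, ?_⟩
  have h3 : ∀ᶠ x : ℝ in 𝓝[>] 0, 0 < x ∧ x < ρ := Ioo_mem_nhdsGT hρ
  filter_upwards [h3] with x hx
  exact ha R' x x hR'.le hx.1 hx.1 hx.2.le (by
    rw [sub_self, abs_zero]
    exact mul_nonneg hρ.le hx.1.le)

/-- **Hölder continuity of the limits.** -/
theorem holder_lim {C e : ℝ} (he : 0 < e) {R R' : Rect} {ι : Type*} {l : Filter ι}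
    [l.NeBot] {δ : ι → ℝ} (h0 : ∀ᶠ i in l, 0 < δ i) (h1 : Tendsto δ l (𝓝 0)) {y y' : Yc}
    (hy : Tendsto (fun i => fR R (δ i)) l (𝓝 y)) (hy' : Tendsto (fun i => fR R' (δ i)) l (𝓝 y'))
    (h : ∀ δ : ℝ, 0 < δ → dist (fR R δ) (fR R' δ) ≤ C * dev R δ R' δ ^ e) :
    dist y y' ≤ C * gap R R' ^ e := by
  have h2 : Tendsto (fun i => dist (fR R (δ i)) (fR R' (δ i))) l (𝓝 (dist y y')) := hy.dist hy'
  have h3 : Tendsto (fun i => C * (gap R R' + δ i) ^ e) l (𝓝 (C * (gap R R' + 0) ^ e)) := by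
    apply Tendsto.const_mul
    apply Tendsto.rpow_const _ (Or.inr he.le)
    exact tendsto_const_nhds.add h1
  rw [add_zero] at h3
  refine le_of_tendsto_of_tendsto h2 h3 ?_
  filter_upwards [h0] with i hi
  refine (h (δ i) hi).trans (le_of_eq ?_)
  unfold dev
  rw [sub_self, abs_zero, zero_div, add_zero]

/-- **All discretisations.** -/
theorem all_disc (R : Rect) {D : ℕ → Dm} {δ : ℕ → ℝ} (h0 : ∀ i, 0 < δ i)
    (h1 : Tendsto δ atTop (𝓝 0)) (hl : Tendsto (fun i => δ i * (D i).l) atTop (𝓝 (-R.A)))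
    (hr : Tendsto (fun i => δ i * (D i).r) atTop (𝓝 R.B))
    (hh : Tendsto (fun i => δ i * (D i).h) atTop (𝓝 R.H))
    (ht : Tendsto (fun i => δ i * (D i).t) atTop (𝓝 R.t)) :
    Tendsto (fun i => dist (LevyProkhorov.ofMeasure (law (D i) (δ i)) : Yc) (fR R (δ i))) atTop
      (𝓝 0) := by
  obtain ⟨κ, hκ, hκ1, hR⟩ := exists_good R
  obtain ⟨e, he, he1, hc⟩ := cont
  obtain ⟨C, hC, hc'⟩ := hc κ hκ hκ1
  -- the rectangles of `R`
  have kl : Tendsto (fun i => δ i * (R.dm (δ i)).l) atTop (𝓝 (-R.A)) := by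
    refine tendsto_of_tendsto_of_tendsto_of_le_of_le (g := fun _ => -R.A)
      (h := fun i => -R.A + δ i) tendsto_const_nhds ?_ (fun i => (dm_l R (h0 i)).1)
      (fun i => (dm_l R (h0 i)).2)
    simpa using (tendsto_const_nhds (x := -R.A)).add h1
  have kr : Tendsto (fun i => δ i * (R.dm (δ i)).r) atTop (𝓝 R.B) := by
    refine tendsto_of_tendsto_of_tendsto_of_le_of_le (g := fun i => R.B - δ i)
      (h := fun _ => R.B) ?_ tendsto_const_nhds (fun i => (dm_r R (h0 i)).1)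
      (fun i => (dm_r R (h0 i)).2)
    simpa using (tendsto_const_nhds (x := R.B)).sub h1
  have kh : Tendsto (fun i => δ i * (R.dm (δ i)).h) atTop (𝓝 R.H) := by
    refine tendsto_of_tendsto_of_tendsto_of_le_of_le (g := fun i => R.H - 2 * δ i)
      (h := fun _ => R.H) ?_ tendsto_const_nhds (fun i => (dm_h R (h0 i)).1)
      (fun i => (dm_h R (h0 i)).2)
    simpa using (tendsto_const_nhds (x := R.H)).sub (h1.const_mul 2)
  have kt : Tendsto (fun i => δ i * (R.dm (δ i)).t) atTop (𝓝 R.t) := by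
    refine tendsto_of_tendsto_of_tendsto_of_le_of_le (g := fun i => R.t - δ i)
      (h := fun _ => R.t) ?_ tendsto_const_nhds (fun i => (dm_t R (h0 i)).1)
      (fun i => (dm_t R (h0 i)).2)
    simpa using (tendsto_const_nhds (x := R.t)).sub h1
  obtain ⟨u, hu⟩ : ∃ u : ℕ → ℝ, u = fun i => |δ i * (D i).l - δ i * (R.dm (δ i)).l| +
    |δ i * (D i).r - δ i * (R.dm (δ i)).r| + |δ i * (D i).h - δ i * (R.dm (δ i)).h| +
    |δ i * (D i).t - δ i * (R.dm (δ i)).t| + δ i := ⟨_, rfl⟩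
  have hut : Tendsto u atTop (𝓝 0) := by
    have a1 := (hl.sub kl).abs
    have a2 := (hr.sub kr).abs
    have a3 := (hh.sub kh).abs
    have a4 := (ht.sub kt).abs
    rw [sub_self, abs_zero] at a1 a2 a3 a4
    have := (((a1.add a2).add a3).add a4).add h1
    rw [hu]
    simpa using this
  have hut' : Tendsto (fun i => C * u i ^ e) atTop (𝓝 0) := by
    have := (hut.rpow_const (Or.inr he.le : (0:ℝ) ≠ 0 ∨ 0 ≤ e)).const_mul C
    rw [Real.zero_rpow he.ne', mul_zero] at this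
    exact this
  have hinv : 1 / (2 * κ) < 1 / κ := one_div_lt_one_div_of_lt hκ (by linarith)
  have ev : ∀ᶠ i in atTop, Fat κ (D i) (δ i) := by
    have tl := (ht.sub hl)
    have tr := (hr.sub ht)
    filter_upwards [hl.eventually_lt_const (show -R.A < -κ by linarith [hR.A]),
      hr.eventually_const_lt (show κ < R.B by linarith [hR.B]),
      hh.eventually_const_lt (show κ < R.H by linarith [hR.H]),
      tl.eventually_const_lt (show κ < R.t - -R.A by linarith [hR.tl]),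
      tr.eventually_const_lt (show κ < R.B - R.t by linarith [hR.tr]),
      hl.eventually_const_lt (show -(1 / κ) < -R.A by linarith [hR.A']),
      hr.eventually_lt_const (show R.B < 1 / κ by linarith [hR.B']),
      hh.eventually_lt_const (show R.H < 1 / κ by linarith [hR.H'])] with i a b c d e f g h
    exact ⟨by linarith, b.le, c.le, d.le, e.le, by linarith, g.le, h.le⟩
  refine squeeze_zero' (Eventually.of_forall fun i => dist_nonneg) ?_ hut'
  filter_upwards [ev, h1.eventually_le_const (show (0:ℝ) < 2 * κ / 16 by positivity)] with i hi hd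
  have hi' : Fat κ (R.dm (δ i)) (δ i) := by
    have := good_fat (κ := 2 * κ) (by positivity) hR (h0 i) hd
    rwa [show 2 * κ / 2 = κ by ring] at this
  have hui : 0 < u i := by
    rw [hu]
    have := h0 i
    positivity
  have hn : Near (u i) (D i) (δ i) (R.dm (δ i)) (δ i) := by
    have b1 := abs_nonneg (δ i * (D i).l - δ i * (R.dm (δ i)).l)
    have b2 := abs_nonneg (δ i * (D i).r - δ i * (R.dm (δ i)).r)
    have b3 := abs_nonneg (δ i * (D i).h - δ i * (R.dm (δ i)).h)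
    have b4 := abs_nonneg (δ i * (D i).t - δ i * (R.dm (δ i)).t)
    have b5 := h0 i
    have hui' := hui
    rw [hu] at hui' ⊢
    simp only at hui' ⊢
    refine ⟨by linarith, by linarith, by linarith, by linarith, ?_, by linarith⟩
    rw [sub_self, abs_zero]
    positivity
  exact lp_of (S := (D i).edges ∪ (R.dm (δ i)).edges) (by positivity)
    Finset.subset_union_left Finset.subset_union_right
    (hc' (D i) (R.dm (δ i)) (δ i) (δ i) (u i) _ (h0 i) (h0 i) hui hi hi' hn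
      Finset.subset_union_left Finset.subset_union_right)

end Pool.Agent.H950.EX
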