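import Pool.Agent.H950.EX.Strip

/-!
The three sides of the free strip.
-/

set_option autoImplicit false

namespace Pool.Agent.H950.EX

open H974 H12S H389NS H984N H984P H342P H443B Finset
open Pool.Agent.N116.EW
open Pool.Agent.H950.SV (rect_edge rect_reach sd_rfy sd_tps)
open Pool.Agent.H950.AD (adj_En En_adj)

variable {D : Dm} {F G : Finset Edg}
variable {s : ℤ} {k a b c a' b' c' : ℕ}

/-- Composition of symmetries. -/
def cmp (g g' : LSym) : LSym where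
  φ := g.φ.trans g'.φ
  ψ := g.ψ.trans g'.ψ
  compat := by
    intro e
    simp only [Equiv.trans_apply]
    rcases g.compat e with ⟨h1, h2⟩ | ⟨h1, h2⟩ <;>
      rcases g'.compat (g.φ e) with ⟨h3, h4⟩ | ⟨h3, h4⟩ <;>
      rw [h3, h4, h1, h2] <;> simp

/-- The right side. -/
def rgt (r : ℤ) : LSym := cmp tps (rfy r)

/-- The identity. -/
def idn : LSym where
  φ := Equiv.refl _
  ψ := Equiv.refl _
  compat := fun e => Or.inl ⟨rfl, rfl⟩

theorem idn_mp (F : Finset Edg) : idn.mp F = F := by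
  ext e
  rw [LSym.mem_mp]
  rfl

theorem rgt_φt (r x y : ℤ) : (rgt r).φ (x, y, true) = (y, r - x - 1, false) := rfl
theorem rgt_φf (r x y : ℤ) : (rgt r).φ (x, y, false) = (y, r - x, true) := rfl
theorem rgt_ψ (r x y : ℤ) : (rgt r).ψ (x, y) = (y, r - x) := rfl
theorem rgt_φst (r x y : ℤ) : (rgt r).φ.symm (x, y, true) = (r - y, x, false) := rfl
theorem rgt_φsf (r x y : ℤ) : (rgt r).φ.symm (x, y, false) = (r - y - 1, x, true) := rfl

theorem sd_rgt (r : ℤ) (x y : Vtx) : sd ((rgt r).ψ x) ((rgt r).ψ y) = sd x y := by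
  have h : ∀ z, (rgt r).ψ z = (rfy r).ψ (tps.ψ z) := fun z => rfl
  rw [h, h, sd_rfy, sd_tps]

theorem rgt_RE (r a b c d : ℤ) : (rgt r).mp (RE a b c d) = RE c d (r - b) (r - a) := by
  ext ⟨x, y, _ | _⟩ <;>
    simp only [LSym.mem_mp, rgt_φst, rgt_φsf, mem_RE_true, mem_RE_false] <;> omega

/-- Excursions, seen in a chart. -/
theorem nv_sym (g : LSym) (hg : ∀ x y, sd (g.ψ x) (g.ψ y) = sd x y) {H : Set Edg} {C : Set Vtx}
    {S F : Finset Edg} {κ m gg R N r : ℕ} {x1 : ℤ} {X : Set Edg}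
    (h : Chart (g.mp S) (g.mp F) (g.φ '' H) (g.ψ '' C) κ x1 r) (hκ : 1 ≤ κ) (hκm : κ ≤ m)
    (hr : 4 * m ≤ r) (hx : |x1| < N * m)
    (hX : ∀ e ∈ X, e ∈ F ∧ src e ∉ C ∧ tgt e ∉ C) (hF : ∀ e ∈ F, 0 ≤ (src (g.φ e)).2)
    {v w : Vtx} (hvx : g.ψ v = (x1, (κ:ℤ) - 1)) (hv : v ∉ C) (hw : Reach X v w)
    (hd : ((8 * m : ℕ) : ℤ) ≤ sd v w) : Side (g.mp S) κ m gg R N (g.mp F) := by
  have hmem : ∀ y, g.ψ y ∈ g.ψ '' C ↔ y ∈ C := fun y => g.ψ.injective.mem_set_image
  refine chart_nv (X := g.φ '' X) (w := g.ψ w) h hκ hκm hr hx ?_ ?_ ?_ ?_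
  · rintro _ ⟨e, he, rfl⟩
    obtain ⟨h1, h2, h3⟩ := hX e he
    refine ⟨?_, hF e h1, ?_, ?_⟩
    · rw [g.mem_mp, Equiv.symm_apply_apply]; exact h1
    · rcases g.compat e with ⟨e1, e2⟩ | ⟨e1, e2⟩
      · rw [e1, hmem]; exact h2
      · rw [e1, hmem]; exact h3
    · rcases g.compat e with ⟨e1, e2⟩ | ⟨e1, e2⟩
      · rw [e2, hmem]; exact h3
      · rw [e2, hmem]; exact h2
  · rw [← hvx, hmem]; exact hv
  · rw [← hvx]; exact g.reach hw
  · rw [← hvx, hg]; exact hd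

/-- Local connections, seen in a chart. -/
theorem lc_sym (g : LSym) (hg : ∀ x y, sd (g.ψ x) (g.ψ y) = sd x y) {H : Set Edg} {C : Set Vtx}
    {S F : Finset Edg} {κ m gg R N r : ℕ} {x1 x1' : ℤ} {x x' : Vtx}
    (h : Chart (g.mp S) (g.mp F) (g.φ '' H) (g.ψ '' C) κ x1 r)
    (h' : Chart (g.mp S) (g.mp F) (g.φ '' H) (g.ψ '' C) κ x1' r) (hm : 1 ≤ m) (hmg : m ≤ gg)
    (hr : R + 2 * gg ≤ r) (hgR : 2 * gg ≤ R) (hx : |x1| < N * m) (hxx : |x1 - x1'| ≤ gg)
    (e1 : g.ψ x = (x1, (κ:ℤ))) (e2 : g.ψ x' = (x1', (κ:ℤ))) :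
    Side (g.mp S) κ m gg R N (g.mp F) ∨ Reach {e | e ∈ H ∧ sd x (src e) ≤ ((R + gg : ℕ) : ℤ) ∧
      sd x (tgt e) ≤ ((R + gg : ℕ) : ℤ)} x' x := by
  rcases chart_lc h h' hm hmg hr hgR hx hxx with h1 | h1
  · exact Or.inl h1
  · right
    rw [← e1, ← e2] at h1
    rw [← g.reach_iff]
    refine h1.mono ?_
    rintro _ ⟨⟨e, he, rfl⟩, h3, h4⟩
    refine ⟨e, ⟨he, ?_, ?_⟩, rfl⟩
    · rcases g.compat e with ⟨e1, e2⟩ | ⟨e1, e2⟩
      · rw [e1, hg] at h3; exact h3
      · rw [e2, hg] at h4; exact h4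
    · rcases g.compat e with ⟨e1, e2⟩ | ⟨e1, e2⟩
      · rw [e2, hg] at h4; exact h4
      · rw [e1, hg] at h3; exact h3

/-- The chart of the bottom. -/
theorem chart_bot (hW : Wide D s) (hw : Wd k a b c a' b' c') (hk : 4 * (k:ℤ) < s)
    (hF : F ⊆ D.edges) {r : ℕ} (hr : (r:ℤ) + 3 * k < s) {x1 : ℤ} (h1 : (r:ℤ) < x1)
    (h2 : x1 + r ≤ D.r - a) (hx : (x1, (c:ℤ)) ∈ D.clu (Loc D a b c a' b' c' F)) :
    Chart (idn.mp D.edges) (idn.mp F) (idn.φ '' D.cfg (Loc D a b c a' b' c' F))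
      (idn.ψ '' D.clu (Loc D a b c a' b' c' F)) c x1 r := by
  rw [idn_mp, idn_mp]
  have e1 : idn.φ '' D.cfg (Loc D a b c a' b' c' F) = D.cfg (Loc D a b c a' b' c' F) :=
    Set.image_id _
  have e2 : idn.ψ '' D.clu (Loc D a b c a' b' c' F) = D.clu (Loc D a b c a' b' c' F) :=
    Set.image_id _
  rw [e1, e2]
  obtain ⟨h0, q1, q2, q3, q4, q5⟩ := id hW
  obtain ⟨w1, w2, w3, w4, w5, w6⟩ := id hw
  refine ⟨?_, ?_, ?_, hx, fun u v hu hv => Reach.trans hu hv, ?_⟩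
  · intro e he hbox
    have h3 := rect_edge hbox
    unfold inR at h3
    rcases cfg_Loc hW hF he with ⟨h4, -⟩ | ⟨h4, h5, -⟩
    · exfalso
      unfold wrd at h4
      simp only [Set.mem_ofPred_eq] at h4
      omega
    · refine ⟨h4, ?_⟩
      unfold fre at h5
      simp only [Set.mem_ofPred_eq] at h5
      omega
  · intro e he hbox
    have h3 := rect_edge hbox
    unfold inR at h3
    refine F_Loc he ?_ ?_
    · unfold fre; simp only [Set.mem_ofPred_eq]; omega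
    · unfold fre; simp only [Set.mem_ofPred_eq]; omega
  · unfold Dm.edges
    exact RE_subset (by omega) (by omega) (by omega) (by omega)
  · refine ⟨(0, 0), Or.inl (by simp only; omega), ?_⟩
    have h3 : Reach (D.cfg (Loc D a b c a' b' c' F)) (0, 0) (x1, (c:ℤ)) := hx
    exact h3.symm

/-- The chart of the top. -/
theorem chart_top (hW : Wide D s) (hw : Wd k a b c a' b' c') (hk : 4 * (k:ℤ) < s)
    (hF : F ⊆ D.edges) {r : ℕ} (hr : (r:ℤ) + 3 * k < s) {x1 : ℤ} (h1 : D.t + r < x1)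
    (h2 : x1 + r ≤ D.r - a) (hx : (x1, D.h - b) ∈ D.clu (Loc D a b c a' b' c' F)) :
    Chart ((rfy D.h).mp D.edges) ((rfy D.h).mp F)
      ((rfy D.h).φ '' D.cfg (Loc D a b c a' b' c' F))
      ((rfy D.h).ψ '' D.clu (Loc D a b c a' b' c' F)) b x1 r := by
  obtain ⟨h0, q1, q2, q3, q4, q5⟩ := id hW
  obtain ⟨w1, w2, w3, w4, w5, w6⟩ := id hw
  have hψ : (rfy D.h).ψ (x1, D.h - b) = (x1, (b:ℤ)) := by
    rw [rfy_ψ]; ext <;> simp only; ring
  refine ⟨?_, ?_, ?_, ?_, ?_, ?_⟩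
  · rintro _ ⟨e, he, rfl⟩ hbox
    have h4 := cfg_Loc hW hF he
    obtain ⟨x, y, q⟩ := e
    cases q
    · rw [rfy_φf] at hbox ⊢
      rw [mem_RE_false] at hbox
      rw [src_mk, tgt_false] at h4
      rcases h4 with ⟨h4, h5⟩ | ⟨h4, h5, h6⟩
      · exfalso
        unfold wrd at h4 h5
        simp only [Set.mem_ofPred_eq] at h4 h5
        omega
      · refine ⟨?_, ?_⟩
        · rw [LSym.mem_mp, rfy_φsf]
          convert h4 using 3
          ring
        · unfold fre at h5 h6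
          simp only [Set.mem_ofPred_eq] at h5 h6
          rw [src_mk]
          simp only
          omega
    · rw [rfy_φt] at hbox ⊢
      rw [mem_RE_true] at hbox
      rw [src_mk, tgt_true] at h4
      rcases h4 with ⟨h4, h5⟩ | ⟨h4, h5, h6⟩
      · exfalso
        unfold wrd at h4 h5
        simp only [Set.mem_ofPred_eq] at h4 h5
        omega
      · refine ⟨?_, ?_⟩
        · rw [LSym.mem_mp, rfy_φst]
          convert h4 using 3
          ring
        · unfold fre at h5 h6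
          simp only [Set.mem_ofPred_eq] at h5 h6
          rw [src_mk]
          simp only
          omega
  · rintro ⟨x, y, q⟩ he hbox
    cases q
    · rw [LSym.mem_mp, rfy_φsf] at he
      rw [mem_RE_false] at hbox
      refine ⟨_, F_Loc he ?_ ?_, ?_⟩
      · rw [src_mk]; unfold fre; simp only [Set.mem_ofPred_eq]; omega
      · rw [tgt_false]; unfold fre; simp only [Set.mem_ofPred_eq]; omega
      · rw [rfy_φf]; congr 2; ring
    · rw [LSym.mem_mp, rfy_φst] at he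
      rw [mem_RE_true] at hbox
      refine ⟨_, F_Loc he ?_ ?_, ?_⟩
      · rw [src_mk]; unfold fre; simp only [Set.mem_ofPred_eq]; omega
      · rw [tgt_true]; unfold fre; simp only [Set.mem_ofPred_eq]; omega
      · rw [rfy_φt]; congr 2; ring
  · unfold Dm.edges
    rw [rfy_RE]
    exact RE_subset (by omega) (by omega) (by omega) (by omega)
  · exact ⟨_, hx, hψ⟩
  · rintro _ v ⟨u, hu, rfl⟩ hr
    obtain ⟨v, rfl⟩ := (rfy D.h).ψ.surjective v
    rw [LSym.reach_iff] at hr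
    exact ⟨v, Reach.trans hu hr, rfl⟩
  · refine ⟨(rfy D.h).ψ (0, 0), ?_, ?_⟩
    · rw [rfy_ψ]; simp only; omega
    · rw [← hψ, LSym.reach_iff]
      have h3 : Reach (D.cfg (Loc D a b c a' b' c' F)) (0, 0) (x1, D.h - b) := hx
      exact h3.symm

/-- The chart of the right side. -/
theorem chart_rgt (hW : Wide D s) (hw : Wd k a b c a' b' c') (hk : 4 * (k:ℤ) < s)
    (hF : F ⊆ D.edges) {r : ℕ} (hr : (r:ℤ) + 3 * k < s) {y1 : ℤ} (h1 : c + r ≤ y1)
    (h2 : y1 + r ≤ D.h - b) (hx : (D.r - a, y1) ∈ D.clu (Loc D a b c a' b' c' F)) :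
    Chart ((rgt D.r).mp D.edges) ((rgt D.r).mp F)
      ((rgt D.r).φ '' D.cfg (Loc D a b c a' b' c' F))
      ((rgt D.r).ψ '' D.clu (Loc D a b c a' b' c' F)) a y1 r := by
  obtain ⟨h0, q1, q2, q3, q4, q5⟩ := id hW
  obtain ⟨w1, w2, w3, w4, w5, w6⟩ := id hw
  have hψ : (rgt D.r).ψ (D.r - a, y1) = (y1, (a:ℤ)) := by
    rw [rgt_ψ]; ext <;> simp only; ring
  refine ⟨?_, ?_, ?_, ?_, ?_, ?_⟩
  · rintro _ ⟨e, he, rfl⟩ hbox
    have h4 := cfg_Loc hW hF he
    obtain ⟨x, y, q⟩ := e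
    cases q
    · rw [rgt_φf] at hbox ⊢
      rw [mem_RE_true] at hbox
      rw [src_mk, tgt_false] at h4
      rcases h4 with ⟨h4, h5⟩ | ⟨h4, h5, h6⟩
      · exfalso
        unfold wrd at h4 h5
        simp only [Set.mem_ofPred_eq] at h4 h5
        omega
      · refine ⟨?_, ?_⟩
        · rw [LSym.mem_mp, rgt_φst]
          convert h4 using 2
          ring
        · unfold fre at h5 h6
          simp only [Set.mem_ofPred_eq] at h5 h6
          rw [src_mk]
          simp only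
          omega
    · rw [rgt_φt] at hbox ⊢
      rw [mem_RE_false] at hbox
      rw [src_mk, tgt_true] at h4
      rcases h4 with ⟨h4, h5⟩ | ⟨h4, h5, h6⟩
      · exfalso
        unfold wrd at h4 h5
        simp only [Set.mem_ofPred_eq] at h4 h5
        omega
      · refine ⟨?_, ?_⟩
        · rw [LSym.mem_mp, rgt_φsf]
          convert h4 using 2
          ring
        · unfold fre at h5 h6
          simp only [Set.mem_ofPred_eq] at h5 h6
          rw [src_mk]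
          simp only
          omega
  · rintro ⟨x, y, q⟩ he hbox
    cases q
    · rw [LSym.mem_mp, rgt_φsf] at he
      rw [mem_RE_false] at hbox
      refine ⟨_, F_Loc he ?_ ?_, ?_⟩
      · rw [src_mk]; unfold fre; simp only [Set.mem_ofPred_eq]; omega
      · rw [tgt_true]; unfold fre; simp only [Set.mem_ofPred_eq]; omega
      · rw [rgt_φt]; congr 2; ring
    · rw [LSym.mem_mp, rgt_φst] at he
      rw [mem_RE_true] at hbox
      refine ⟨_, F_Loc he ?_ ?_, ?_⟩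
      · rw [src_mk]; unfold fre; simp only [Set.mem_ofPred_eq]; omega
      · rw [tgt_false]; unfold fre; simp only [Set.mem_ofPred_eq]; omega
      · rw [rgt_φf]; congr 2; ring
  · unfold Dm.edges
    rw [rgt_RE]
    exact RE_subset (by omega) (by omega) (by omega) (by omega)
  · exact ⟨_, hx, hψ⟩
  · rintro _ v ⟨u, hu, rfl⟩ hr
    obtain ⟨v, rfl⟩ := (rgt D.r).ψ.surjective v
    rw [LSym.reach_iff] at hr
    exact ⟨v, Reach.trans hu hr, rfl⟩
  · refine ⟨(rgt D.r).ψ (0, 0), ?_, ?_⟩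
    · rw [rgt_ψ]; simp only; omega
    · rw [← hψ, LSym.reach_iff]
      have h3 : Reach (D.cfg (Loc D a b c a' b' c' F)) (0, 0) (D.r - a, y1) := hx
      exact h3.symm

end Pool.Agent.H950.EX
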