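import Pool.Agent.H950.EX.Mv

/-!
The exploration paths of two nested rectangles.
-/

set_option autoImplicit false

namespace Pool.Agent.H950.EX

open H974 H12S H389NS H984N H984P H342P H443B Finset
open Pool.Agent.N116.EW
open H342L (cdist Curve)

variable {D D' : Dm} {F G F' : Finset Edg} {s : ℤ} {k a b c a' b' c' : ℕ}

theorem Loc_eq (hW : Wide D s) (hw : Wd k a b c a' b' c') (hk : 4 * (k:ℤ) < s) :
    Loc D a b c a' b' c' F = Hc D a b c a' b' c' F := by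
  ext e
  unfold Loc Hc
  rw [Finset.mem_sdiff, Finset.mem_union, Finset.mem_union, Finset.mem_sdiff]
  constructor
  · rintro ⟨h1 | h1, h2⟩
    · exact Or.inl ⟨h1, h2⟩
    · exact Or.inr h1
  · rintro (⟨h1, h2⟩ | h1)
    · exact ⟨Or.inl h1, h2⟩
    · exact ⟨Or.inr h1, Os_Zs hW hw hk h1⟩

theorem Os_zero (hW : Wide D s) (hs : 1 < s) {e : Edg} (he : e ∈ Os D 0 0 0) : e ∈ D.wir := by
  obtain ⟨g0, g1, g2, g3, g4, g5⟩ := hW
  obtain ⟨x, y, q⟩ := e
  rw [mem_Os] at he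
  unfold Dm.edges wrd at he
  unfold Dm.wir
  cases q
  · rw [mem_RE_false, src_mk, tgt_false] at he
    simp only [Set.mem_ofPred_eq, Bool.false_eq_true, false_and, true_and, false_or,
      or_false] at he ⊢
    push_cast at he
    omega
  · rw [mem_RE_true, src_mk, tgt_true] at he
    simp only [Set.mem_ofPred_eq, Bool.true_eq_false, false_and, true_and, false_or] at he ⊢
    push_cast at he
    omega

theorem Upc_zero (hW : Wide D s) (hs : 1 < s) : D.cfg (Upc D 0 0 0 F) = D.cfg F := by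
  ext e
  constructor
  · rintro (h | h)
    · rcases Finset.mem_union.1 (show e ∈ Upc D 0 0 0 F by exact_mod_cast h) with h | h
      · exact Or.inl (by exact_mod_cast h)
      · exact Or.inr (Os_zero hW hs h)
    · exact Or.inr h
  · rintro (h | h)
    · left
      have : e ∈ Upc D 0 0 0 F := Finset.mem_union_left _ (by exact_mod_cast h)
      exact_mod_cast this
    · exact Or.inr h

/-- **Nested rectangles.** -/
theorem stepI : ∃ (E : ℕ), 1 ≤ E ∧ ∀ κ : ℝ, 0 < κ → κ ≤ 1 → ∃ C : ℝ, 0 < C ∧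
    ∀ (D : Dm) (s : ℤ) (n k : ℕ) (L δ : ℝ) (kl kr kt : ℕ), 1 ≤ k → kl ≤ k → kr ≤ k → kt ≤ k →
    Wide D s → κ * n ≤ s → D.r - D.l ≤ n → D.h + 1 ≤ n → 200 / κ ≤ L → 0 ≤ δ →
    L ^ E = (n:ℝ) / ((k + 1 : ℕ) : ℝ) →
    PQ (1/2) D.edges (fun F => ¬ (cdist (crv (inn D kl kr kt) δ (F ∩ (inn D kl kr kt).edges))
      (crv D δ F) ≤ δ * (24 * (n / L) + 2 * k + 49))) ≤ C / L := by
  obtain ⟨p, hp, hB⟩ := stepB
  refine ⟨(p * (p + 1) + p) * (1 + p), Nat.mul_pos (by omega) (by omega), ?_⟩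
  intro κ hκ hκ1
  obtain ⟨C, hC, hst⟩ := hB κ hκ hκ1
  refine ⟨3 * C, by positivity, ?_⟩
  intro D s n k L δ kl kr kt hk h1 h2 h3 hW hs hDn hDh hL hδ hLe
  have ok := okq (q := 1/2) (by norm_num) (by norm_num)
  have hE : 1 ≤ (p * (p + 1) + p) * (1 + p) := Nat.mul_pos (by omega) (by omega)
  have hk200 := scale_k hκ hκ1 hE hs hL hLe (by omega)
  push_cast at hk200
  have hk4 : 4 * (k:ℤ) < s := by omega
  have hs1 : 1 < s := by omega
  have w0 : Wd k kr kt 0 0 0 0 := ⟨h2, h3, by omega, by omega, by omega, by omega⟩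
  have w1 : Wd k kr kt 0 kl kt 0 := ⟨h2, h3, by omega, h1, h3, by omega⟩
  obtain ⟨b1, -⟩ := hst D s n k L δ kr kt 0 0 0 0 hk w0 hW hs hDn hDh hL hδ hLe
  obtain ⟨-, b2⟩ := hst D s n k L δ kr kt 0 kl kt 0 hk w1 hW hs hDn hDh hL hδ hLe
  have key : PQ (1/2) D.edges (fun F => ¬ (cdist (crv (inn D kl kr kt) δ
      (F ∩ (inn D kl kr kt).edges)) (crv D δ F) ≤ δ * (24 * (n / L) + 2 * k + 49))) ≤
      PQ (1/2) D.edges (fun F => ¬ (cdist (crv D δ (Loc D kr kt 0 0 0 0 F))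
      (crv D δ (Upc D 0 0 0 F)) ≤ δ * (8 * (n / L) + 13))) +
      PQ (1/2) D.edges (fun F => ¬ (cdist (crv D δ (Hc D kr kt 0 kl kt 0 F))
      (crv D δ (Hc D kr kt 0 0 0 0 F)) ≤ δ * (16 * (n / L) + 34))) := by
    unfold PQ
    refine (Pr_mono ok ?_).trans (Pr_or_le ok _ _ _)
    intro F hF hbad
    by_contra hcon
    push Not at hcon
    obtain ⟨c1, c2⟩ := hcon
    apply hbad
    rw [Loc_eq hW w0 hk4, crv_cfg (Upc_zero hW hs1) δ] at c1
    have d1 := emb hW h1 h2 h3 hk4 hk hF hδ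
    have d2 := H342L.cdist_triangle (crv (inn D kl kr kt) δ (F ∩ (inn D kl kr kt).edges))
      (crv D δ (Hc D kr kt 0 kl kt 0 F)) (crv D δ F)
    have d3 := H342L.cdist_triangle (crv D δ (Hc D kr kt 0 kl kt 0 F))
      (crv D δ (Hc D kr kt 0 0 0 0 F)) (crv D δ F)
    linarith
  refine key.trans ((add_le_add b1 b2).trans (le_of_eq ?_))
  ring

end Pool.Agent.H950.EX
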