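import Pool.Agent.H950.EX.Cont
import Mathlib.MeasureTheory.Measure.LevyProkhorovMetric

/-!
The laws of the exploration paths of two similar rectangles.
-/

set_option autoImplicit false

namespace Pool.Agent.H950.EX

open H974 H12S H984N H984P MeasureTheory Filter Topology Finset
open H342L (cdist Curve)

/-- The law of the exploration path (up to reparametrisation) of the lattice rectangle `D` with
mesh `δ`: all sets of open edges have the same probability. -/
noncomputable def lawM (D : Dm) (δ : ℝ) : Measure Curve :=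
  ∑ F ∈ D.edges.powerset, ENNReal.ofReal ((1 / 2) ^ D.edges.card) •
    Measure.dirac (⟨crv D δ F⟩ : Curve)

theorem lawM_apply (D : Dm) (δ : ℝ) {G : Set Curve} (hG : MeasurableSet G) :
    lawM D δ G = ENNReal.ofReal (PQ (1/2) D.edges (fun F => (⟨crv D δ F⟩ : Curve) ∈ G)) := by
  classical
  unfold lawM
  rw [Measure.finsetSum_apply]
  unfold PQ Pr
  have h := H984N.Ex_half D.edges (fun F => ind ((⟨crv D δ F⟩ : Curve) ∈ G))
  unfold E at h
  rw [h, ENNReal.ofReal_mul (by positivity), ENNReal.ofReal_sum_of_nonneg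
    (fun _ _ => ind_nonneg _), Finset.mul_sum]
  apply Finset.sum_congr rfl
  intro F _
  rw [Measure.smul_apply, Measure.dirac_apply' _ hG, smul_eq_mul]
  congr 1
  by_cases h : (⟨crv D δ F⟩ : Curve) ∈ G
  · rw [ind_of h, Set.indicator_of_mem h]; simp
  · rw [ind_not_of h, Set.indicator_of_notMem h]; simp

theorem lawM_univ (D : Dm) (δ : ℝ) : lawM D δ Set.univ = 1 := by
  rw [lawM_apply D δ MeasurableSet.univ]
  have : PQ (1/2) D.edges (fun F => (⟨crv D δ F⟩ : Curve) ∈ (Set.univ : Set Curve)) = 1 :=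
    Pr_true _ (fun F _ => Set.mem_univ _)
  rw [this]
  simp

/-- The law of the exploration path. -/
noncomputable def law (D : Dm) (δ : ℝ) : ProbabilityMeasure Curve :=
  ⟨lawM D δ, ⟨lawM_univ D δ⟩⟩

theorem law_apply (D : Dm) (δ : ℝ) {G : Set Curve} (hG : MeasurableSet G) :
    (law D δ : Measure Curve) G =
      ENNReal.ofReal (PQ (1/2) D.edges (fun F => (⟨crv D δ F⟩ : Curve) ∈ G)) :=
  lawM_apply D δ hG

/-- From the coupling to the laws. -/
theorem lp_of {D D' : Dm} {δ δ' r : ℝ} {S : Finset Edg} (hr : 0 ≤ r) (hDS : D.edges ⊆ S)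
    (hDS' : D'.edges ⊆ S) (h : PQ (1/2) S (fun F => ¬ (cdist (crv D δ (F ∩ D.edges))
      (crv D' δ' (F ∩ D'.edges)) ≤ r)) ≤ r) :
    levyProkhorovDist (law D δ : Measure Curve) (law D' δ' : Measure Curve) ≤ r := by
  have ok := okq (q := 1/2) (by norm_num) (by norm_num)
  apply levyProkhorovDist_le_of_forall_le _ _ hr
  intro ε B hε hB
  have hε0 : 0 ≤ ε := hr.trans hε.le
  rw [law_apply D δ hB, law_apply D' δ' Metric.isOpen_thickening.measurableSet,
    ← PQ_restrict hDS, ← PQ_restrict hDS', ← ENNReal.ofReal_add (Pr_nonneg ok _ _) hε0]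
  apply ENNReal.ofReal_le_ofReal
  have key : PQ (1/2) S (fun F => (⟨crv D δ (F ∩ D.edges)⟩ : Curve) ∈ B) ≤
      PQ (1/2) S (fun F => (⟨crv D' δ' (F ∩ D'.edges)⟩ : Curve) ∈ Metric.thickening ε B) +
      PQ (1/2) S (fun F => ¬ (cdist (crv D δ (F ∩ D.edges))
        (crv D' δ' (F ∩ D'.edges)) ≤ r)) := by
    unfold PQ
    refine (Pr_mono ok ?_).trans (Pr_or_le ok _ _ _)
    intro F _ hF
    by_cases hc : cdist (crv D δ (F ∩ D.edges)) (crv D' δ' (F ∩ D'.edges)) ≤ r
    · left
      rw [Metric.mem_thickening_iff]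
      refine ⟨_, hF, ?_⟩
      rw [H342L.Curve.dist_def, H342L.cdist_comm]
      exact lt_of_le_of_lt hc hε
    · exact Or.inr hc
  exact key.trans (add_le_add le_rfl (h.trans hε.le))

/-- The Lévy-Prokhorov distance is at most `1`. -/
theorem lp_le_one (μ ν : ProbabilityMeasure Curve) :
    levyProkhorovDist (μ : Measure Curve) (ν : Measure Curve) ≤ 1 := by
  unfold levyProkhorovDist
  have h := levyProkhorovEDist_le_max_measure_univ (μ : Measure Curve) (ν : Measure Curve)
  rw [measure_univ, measure_univ, max_self] at h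
  exact ENNReal.toReal_mono (by simp) h

end Pool.Agent.H950.EX
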