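import Pool.Agent.H950.EX.Rct
import Pool.Graph.R_seed8.Results.MP_fe58d8_pr.NaturalCurve

/-!
Limits of the exploration paths in rectangles.
-/

set_option autoImplicit false

namespace Pool.Agent.H950.EX

open H974 H12S H984N H984P MeasureTheory Filter Topology Finset
open H342L (cdist Curve)

/-- From a parametrised curve with its time to a curve up to reparametrisation. -/
def toCurve (p : X) : Curve := ⟨p.1⟩

theorem cdist_le_dist (γ γ' : C(unitInterval, ℂ)) : cdist γ γ' ≤ dist γ γ' := by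
  have h := H342L.cdist_le γ γ' (OrderIso.refl _)
  have e : H342L.rep γ' (OrderIso.refl _) = γ' := by ext t; rfl
  rwa [e] at h

theorem mk_lip : LipschitzWith 1 (fun γ : C(unitInterval, ℂ) => (⟨γ⟩ : Curve)) := by
  apply LipschitzWith.of_dist_le_mul
  intro γ γ'
  rw [NNReal.coe_one, one_mul, H342L.Curve.dist_def]
  exact cdist_le_dist γ γ'

theorem toCurve_cont : Continuous toCurve := mk_lip.continuous.comp continuous_fst

instance sepCurve : TopologicalSpace.SeparableSpace Curve := by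
  have h : Function.Surjective (fun γ : C(unitInterval, ℂ) => (⟨γ⟩ : Curve)) :=
    fun c => ⟨c.path, rfl⟩
  exact h.denseRange.separableSpace mk_lip.continuous

theorem law_map (R : Rect) (δ : ℝ) :
    law (R.dm δ) δ = (R.law δ).map toCurve_cont.measurable.aemeasurable := by
  apply ProbabilityMeasure.toMeasure_injective
  rw [ProbabilityMeasure.toMeasure_map]
  ext G hG
  rw [Measure.map_apply toCurve_cont.measurable hG]
  have h1 := law_apply (R.dm δ) δ hG
  have h2 := R.law_apply δ (toCurve_cont.measurable hG)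
  exact h1.trans h2.symm

/-- Laws with the Lévy-Prokhorov metric. -/
abbrev Yc : Type := LevyProkhorov (ProbabilityMeasure Curve)

/-- The law of the exploration path at mesh `δ`. -/
noncomputable def fR (R : Rect) (δ : ℝ) : Yc := LevyProkhorov.ofMeasure (law (R.dm δ) δ)

theorem tendsto_iff {ι : Type*} {l : Filter ι} {f : ι → ProbabilityMeasure Curve}
    {μ : ProbabilityMeasure Curve} : Tendsto (fun i => (LevyProkhorov.ofMeasure (f i) : Yc)) l
      (𝓝 (LevyProkhorov.ofMeasure μ)) ↔ Tendsto f l (𝓝 μ) := by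
  constructor
  · intro h
    exact (LevyProkhorov.continuous_toMeasure_probabilityMeasure.tendsto _).comp h
  · intro h
    exact (LevyProkhorov.continuous_ofMeasure_probabilityMeasure.tendsto _).comp h

theorem fR_cpt (R : Rect) : Cpt (fR R) := by
  intro δ h0 h1
  obtain ⟨φ, hφ, μ, hμ⟩ :=
    (Pool.Agent.Results.MP_fe58d8_pr.NaturalCurve.result R).2.2.1 δ h0 h1
  refine ⟨φ, hφ, LevyProkhorov.ofMeasure (μ.map toCurve_cont.measurable.aemeasurable), ?_⟩
  have h2 := ProbabilityMeasure.tendsto_map_of_tendsto_of_continuous (fun i => R.law (δ (φ i)))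
    μ hμ toCurve_cont
  have h3 : (fun i => (R.law (δ (φ i))).map toCurve_cont.measurable.aemeasurable) =
      fun i => law (R.dm (δ (φ i))) (δ (φ i)) := by
    funext i
    rw [law_map]
  rw [h3] at h2
  exact tendsto_iff.2 h2

/-- **Hölder continuity of the law, uniformly in the mesh.** -/
theorem rect_lp : ∃ (e : ℝ), 0 < e ∧ e ≤ 1 ∧ ∀ κ : ℝ, 0 < κ → κ ≤ 1 → ∃ C : ℝ, 0 < C ∧
    ∀ (R R' : Rect) (δ δ' : ℝ), Good κ R → Good κ R' → 0 < δ → 0 < δ' →
    (∀ S : Finset Edg, (R.dm δ).edges ⊆ S → (R'.dm δ').edges ⊆ S →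
      PQ (1/2) S (fun F => ¬ (cdist (crv (R.dm δ) δ (F ∩ (R.dm δ).edges))
        (crv (R'.dm δ') δ' (F ∩ (R'.dm δ').edges)) ≤
        C * dev R δ R' δ' ^ e)) ≤ C * dev R δ R' δ' ^ e) ∧
    dist (fR R δ) (fR R' δ') ≤ C * dev R δ R' δ' ^ e := by
  obtain ⟨e, he, he1, h⟩ := rect_cont
  refine ⟨e, he, he1, fun κ hκ hκ1 => ?_⟩
  obtain ⟨C, hC, h'⟩ := h κ hκ hκ1
  refine ⟨C, hC, fun R R' δ δ' hR hR' hδ hδ' => ?_⟩
  have h1 := fun (S : Finset Edg) hS hS' => h' R R' δ δ' S hR hR' hδ hδ' hS hS'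
  refine ⟨h1, ?_⟩
  have hu0 := dev_pos R δ R' hδ'
  exact lp_of (S := (R.dm δ).edges ∪ (R'.dm δ').edges) (by positivity)
    Finset.subset_union_left Finset.subset_union_right
    (h1 _ Finset.subset_union_left Finset.subset_union_right)

theorem exists_good (R : Rect) : ∃ κ : ℝ, 0 < κ ∧ κ ≤ 1 ∧ Good (2 * κ) R := by
  obtain ⟨m, hm⟩ : ∃ m : ℝ, m = min (min (min R.A R.B) (min R.H (R.t + R.A)))
      (min (min (R.B - R.t) (1 / R.A)) (min (1 / R.B) (min (1 / R.H) 1))) := ⟨_, rfl⟩
  have h1 := R.hA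
  have h2 := R.hB
  have h3 := R.hH
  have h4 : 0 < R.t + R.A := by linarith [R.ht1]
  have h5 : 0 < R.B - R.t := by linarith [R.ht2]
  have hm0 : 0 < m := by
    rw [hm]
    repeat' apply lt_min
    all_goals first
      | assumption
      | positivity
  have a1 : m ≤ R.A := by rw [hm]; exact ((min_le_left _ _).trans (min_le_left _ _)).trans (min_le_left _ _)
  have a2 : m ≤ R.B := by rw [hm]; exact ((min_le_left _ _).trans (min_le_left _ _)).trans (min_le_right _ _)
  have a3 : m ≤ R.H := by rw [hm]; exact ((min_le_left _ _).trans (min_le_right _ _)).trans (min_le_left _ _)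
  have a4 : m ≤ R.t + R.A := by rw [hm]; exact ((min_le_left _ _).trans (min_le_right _ _)).trans (min_le_right _ _)
  have a5 : m ≤ R.B - R.t := by rw [hm]; exact ((min_le_right _ _).trans (min_le_left _ _)).trans (min_le_left _ _)
  have a6 : m ≤ 1 / R.A := by rw [hm]; exact ((min_le_right _ _).trans (min_le_left _ _)).trans (min_le_right _ _)
  have a7 : m ≤ 1 / R.B := by rw [hm]; exact ((min_le_right _ _).trans (min_le_right _ _)).trans (min_le_left _ _)
  have a8 : m ≤ 1 / R.H := by rw [hm]; exact (((min_le_right _ _).trans (min_le_right _ _)).trans (min_le_right _ _)).trans (min_le_left _ _)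
  have a9 : m ≤ 1 := by rw [hm]; exact (((min_le_right _ _).trans (min_le_right _ _)).trans (min_le_right _ _)).trans (min_le_right _ _)
  refine ⟨m / 2, by positivity, by linarith, ?_⟩
  have e : 2 * (m / 2) = m := by ring
  rw [e]
  refine ⟨a1, a2, a3, a4, a5, ?_, ?_, ?_⟩
  · rw [le_div_iff₀ hm0, mul_comm]
    rwa [le_div_iff₀ h1] at a6
  · rw [le_div_iff₀ hm0, mul_comm]
    rwa [le_div_iff₀ h2] at a7
  · rw [le_div_iff₀ hm0, mul_comm]
    rwa [le_div_iff₀ h3] at a8

theorem gap_self (R : Rect) : gap R R = 0 := by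
  unfold gap
  simp

theorem gap_comm (R R' : Rect) : gap R R' = gap R' R := by
  unfold gap
  rw [abs_sub_comm R.A, abs_sub_comm R.B, abs_sub_comm R.H, abs_sub_comm R.t]

theorem good_of_gap {κ : ℝ} (hκ : 0 < κ) {R R' : Rect} (h : Good (2 * κ) R)
    (hg : gap R R' ≤ κ / 4) (hκ1 : κ ≤ 1) : Good κ R' := by
  have gA : |R.A - R'.A| ≤ κ / 4 := ((le_max_left _ _).trans (le_max_left _ _)).trans hg
  have gB : |R.B - R'.B| ≤ κ / 4 := ((le_max_right _ _).trans (le_max_left _ _)).trans hg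
  have gH : |R.H - R'.H| ≤ κ / 4 := ((le_max_left _ _).trans (le_max_right _ _)).trans hg
  have gt : |R.t - R'.t| ≤ κ / 4 := ((le_max_right _ _).trans (le_max_right _ _)).trans hg
  rw [abs_le] at gA gB gH gt
  obtain ⟨h1, h2, h3, h4, h5, h6, h7, h8⟩ := h
  have e : 1 / (2 * κ) = 1 / κ / 2 := by field_simp
  have e1 : 1 ≤ 1 / κ := by rw [le_div_iff₀ hκ]; linarith
  rw [e] at h6 h7 h8
  refine ⟨?_, ?_, ?_, ?_, ?_, ?_, ?_, ?_⟩
  all_goals linarith [gA.1, gA.2, gB.1, gB.2, gH.1, gH.2, gt.1, gt.2]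

end Pool.Agent.H950.EX
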