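import Pool.Agent.H950.SV.Symm
import Pool.Agent.H950.SV.Bound

/-!
Local events next to a flat side of a domain.
-/

set_option autoImplicit false

namespace Pool.Agent.H950.EX

open H974 H12S H389NS H984N H984P H342P H443B Finset
open H973 (EV no_cross hline' vline' reach_EV)
open H973S (sep_bottom rim Om Tg)
open Pool.Agent.H950.SV
open Pool.Agent.H950.AD (adj_En En_adj)
open Pool.Agent.N116.EW (sd_comm' sd_tri sd_self' sd_nxt sd_mv sd_face sd_face_rt En)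

/-- An additional path behind the end of a local cluster. -/
theorem nv_loc {F : Finset Edg} {z x1 : ℤ} {κ m : ℕ} {C : Set Vtx} {X : Set Edg} (hκ : 1 ≤ κ)
    (hκm : κ ≤ m) (hxz : |x1 - z| ≤ m)
    (hKC : ∀ y, Reach ((↑F : Set Edg) ∩ ↑(Om z κ m)) (x1, (κ:ℤ)) y → y ∈ C)
    (hex : ∃ y ∈ Tg z κ m, Reach ((↑F : Set Edg) ∩ ↑(Om z κ m)) (x1, (κ:ℤ)) y)
    (hX : ∀ g ∈ X, g ∈ F ∧ 0 ≤ (src g).2 ∧ src g ∉ C ∧ tgt g ∉ C)
    (hv : (x1, (κ:ℤ) - 1) ∉ C) {w : Vtx} (hw : Reach X (x1, (κ:ℤ) - 1) w)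
    (hd : ((8 * m : ℕ) : ℤ) ≤ sd (x1, (κ:ℤ) - 1) w) :
    ∃ s : ℤ, (s = 1 ∨ s = -1) ∧ ∃ b ∈ Finset.Icc (z - 3 * (m:ℤ)) (z + 3 * m),
      Wev s z κ m b (4 * m) F := by
  classical
  rw [abs_le] at hxz
  obtain ⟨K, hK⟩ : ∃ K, K = lcl z κ m x1 F := ⟨_, rfl⟩
  have hKm : ∀ y, y ∈ K ↔ Reach ((↑F : Set Edg) ∩ ↑(Om z κ m)) (x1, (κ:ℤ)) y := by
    intro y
    rw [hK]
    exact Iff.rfl
  have hxK : (x1, (κ:ℤ)) ∈ K := (hKm _).2 (Reach.refl _ _)
  have hKC' : ∀ y ∈ K, y ∈ C := fun y hy => hKC y ((hKm y).1 hy)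
  have hxbox : inR (z - 3 * m) (z + 3 * m) κ (κ + 3 * m) (x1, (κ:ℤ)) := by
    unfold inR; simp only; omega
  have hKbox : ∀ y ∈ K, inR (z - 3 * m) (z + 3 * m) κ (κ + 3 * m) y := by
    intro y hy
    by_cases hxy : (x1, (κ:ℤ)) = y
    · rw [← hxy]; exact hxbox
    · exact rect_reach (fun g hg => by exact_mod_cast hg.2) ((hKm y).1 hy) hxy
  have hXK : ∀ y, Reach X (x1, (κ:ℤ) - 1) y → y ∉ K := by
    intro y hy
    have key : y ∉ C := by
      induction hy with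
      | refl => exact hv
      | @tail z' z'' _ hs ih =>
        obtain ⟨g, hg, hE'⟩ := adj_En hs
        rcases hE' with ⟨-, h2⟩ | ⟨-, h2⟩
        · rw [h2]; exact (hX g hg).2.2.2
        · rw [h2]; exact (hX g hg).2.2.1
    exact fun h1 => key (hKC' y h1)
  have hXy : ∀ y, Reach X (x1, (κ:ℤ) - 1) y → 0 ≤ y.2 := by
    intro y hy
    induction hy with
    | refl => simp only; omega
    | @tail z' z'' _ hs ih =>
      obtain ⟨g, hg, hE'⟩ := adj_En hs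
      have h0 := (hX g hg).2.1
      obtain ⟨x0, y0, q⟩ := g
      cases q
      · rcases hE' with ⟨-, h2⟩ | ⟨-, h2⟩
        · rw [h2]; simp only [src_mk, tgt_false] at h0 ⊢; omega
        · rw [h2]; exact h0
      · rcases hE' with ⟨-, h2⟩ | ⟨-, h2⟩
        · rw [h2]; simp only [src_mk, tgt_true] at h0 ⊢; omega
        · rw [h2]; exact h0
  -- production of the event
  have hprod : ∀ (s c i : ℤ), (c, (κ : ℤ)) ∈ K → 0 ≤ i → i < κ →
      Reach X (x1, (κ:ℤ) - 1) (c, i) →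
      (∀ b', s * c < s * b' → (b', (κ : ℤ)) ∉ K) → Wev s z κ m c (4 * m) F := by
    intro s c i hc hi0 hik hvc hext
    have hcl : lcl z κ m c F = K := by
      ext y
      have h1 := (hKm _).1 hc
      rw [hKm]
      exact ⟨fun h2 => h1.trans h2, fun h2 => h1.symm.trans h2⟩
    refine ⟨⟨?_, ?_, ?_⟩, ?_⟩
    · rw [hcl]
      obtain ⟨y, hy1, hy2⟩ := hex
      exact ⟨y, hy1, (hKm y).2 hy2⟩
    · rw [hcl]
      exact ⟨x1, by rw [abs_le]; omega, hxK⟩
    · rw [hcl]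
      exact hext
    · have hsub : X ⊆ (↑(F \ Kb z κ m c F) : Set Edg) := by
        intro g hg
        obtain ⟨h1, -, h2, h3⟩ := hX g hg
        rw [Finset.coe_sdiff]
        refine ⟨by exact_mod_cast h1, ?_⟩
        intro h4
        have h5 : g ∈ Kb z κ m c F := by exact_mod_cast h4
        unfold Kb at h5
        rw [Finset.mem_filter, hcl] at h5
        rcases h5.2 with h6 | h6
        · exact h2 (hKC' _ h6)
        · exact h3 (hKC' _ h6)
      have hfar2 : ∀ y : Vtx, ((4 * m : ℕ) : ℤ) ≤ sd (c, (κ : ℤ)) y →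
          (y.1 ≤ c - (4 * m : ℕ) ∨ c + (4 * m : ℕ) ≤ y.1 ∨ y.2 ≤ κ - (4 * m : ℕ) ∨
            (κ : ℤ) + (4 * m : ℕ) ≤ y.2) := by
        intro y hy
        unfold sd at hy
        simp only at hy
        rcases le_max_iff.1 hy with h4 | h4
        · rcases le_abs.1 h4 with h5 | h5 <;> omega
        · rcases le_abs.1 h4 with h5 | h5 <;> omega
      have hci : inR (c - κ) (c + κ) ((κ : ℤ) - κ) (κ + κ) (c, i) := by
        unfold inR; simp only; omega
      by_cases hcase : ((4 * m : ℕ) : ℤ) ≤ sd (c, (κ : ℤ)) (x1, (κ:ℤ) - 1)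
      · exact ⟨(c, i), _, hci, hfar2 _ hcase, (hvc.symm).mono hsub⟩
      · refine ⟨(c, i), w, hci, hfar2 w ?_, (hvc.symm.trans hw).mono hsub⟩
        have k1 := sd_tri (x1, (κ:ℤ) - 1) (c, (κ : ℤ)) w
        rw [sd_comm' (x1, (κ:ℤ) - 1) (c, (κ : ℤ))] at k1
        push_cast at hcase hd ⊢
        omega
  -- extreme points
  obtain ⟨B, hB⟩ : ∃ B : Finset ℤ, ∀ c, c ∈ B ↔ (c, (κ : ℤ)) ∈ K := by
    refine ⟨(Finset.Icc (z - 3 * m) (z + 3 * m)).filter (fun c => (c, (κ : ℤ)) ∈ K), ?_⟩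
    intro c
    rw [Finset.mem_filter, Finset.mem_Icc]
    refine ⟨fun h1 => h1.2, fun h1 => ⟨?_, h1⟩⟩
    have := hKbox _ h1
    unfold inR at this
    exact this.1
  have hBne : B.Nonempty := ⟨x1, (hB _).2 hxK⟩
  obtain ⟨b, hb, hbmax⟩ : ∃ b ∈ B, ∀ c ∈ B, c ≤ b := B.exists_max_image id hBne
  obtain ⟨a, ha, hamin⟩ : ∃ a ∈ B, ∀ c ∈ B, a ≤ c := B.exists_min_image id hBne
  have hbK := (hB b).1 hb
  have haK := (hB a).1 ha
  have hbI : b ∈ Finset.Icc (z - 3 * m) (z + 3 * m) := by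
    have := hKbox _ hbK
    unfold inR at this
    rw [Finset.mem_Icc]
    exact this.1
  have haI : a ∈ Finset.Icc (z - 3 * m) (z + 3 * m) := by
    have := hKbox _ haK
    unfold inR at this
    rw [Finset.mem_Icc]
    exact this.1
  by_cases hcase : ∃ i : ℤ, 0 ≤ i ∧ i < κ ∧ (Reach X (x1, (κ:ℤ) - 1) (a, i) ∨
      Reach X (x1, (κ:ℤ) - 1) (b, i))
  · obtain ⟨i, hi1, hi2, hi3 | hi3⟩ := hcase
    · refine ⟨-1, Or.inr rfl, a, haI, hprod (-1) a i haK hi1 hi2 hi3 ?_⟩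
      intro b' hb' hcon
      have := hamin b' ((hB b').2 hcon)
      omega
    · refine ⟨1, Or.inl rfl, b, hbI, hprod 1 b i hbK hi1 hi2 hi3 ?_⟩
      intro b' hb' hcon
      have := hbmax b' ((hB b').2 hcon)
      omega
  exfalso
  push Not at hcase
  -- strict inequalities
  have hax : a < x1 := by
    rcases lt_or_eq_of_le (hamin x1 ((hB _).2 hxK)) with h1 | h1
    · exact h1
    · exfalso
      apply (hcase (κ - 1) (by omega) (by omega)).1
      rw [h1]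
      exact Reach.refl _ _
  have hxb : x1 < b := by
    rcases lt_or_eq_of_le (hbmax x1 ((hB _).2 hxK)) with h1 | h1
    · exact h1
    · exfalso
      apply (hcase (κ - 1) (by omega) (by omega)).2
      rw [← h1]
      exact Reach.refl _ _
  rw [Finset.mem_Icc] at haI hbI
  -- the barrier
  obtain ⟨W, hW⟩ : ∃ W : Vtx → Prop, W = fun y => y ∈ K ∨ ((y.1 = a ∨ y.1 = b) ∧ 0 ≤ y.2 ∧
    y.2 < κ) := ⟨_, rfl⟩
  have hWK : ∀ y ∈ K, W y := fun y hy => by rw [hW]; exact Or.inl hy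
  have hXW : ∀ y, Reach X (x1, (κ:ℤ) - 1) y → ¬ W y := by
    intro y hy
    rw [hW]
    rintro (h1 | ⟨h1, h2, h3⟩)
    · exact hXK y hy h1
    · rcases h1 with h1 | h1
      · apply (hcase y.2 h2 h3).1
        rw [← h1]
        exact hy
      · apply (hcase y.2 h2 h3).2
        rw [← h1]
        exact hy
  -- the exit of the excursion
  obtain ⟨y, ⟨hy1, hy2⟩, hy3⟩ := exit_half (H := X) (a := z - 3 * m) (b := z + 3 * m) (k := 0)
    (d := κ + 3 * m) (fun g hg => (hX g hg).2.1) (v := (x1, (κ:ℤ) - 1)) (y := w)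
    (by unfold inR; simp only; omega) (by
      have k1 := hXy w hw
      by_contra hno
      push Not at hno
      have : sd (x1, (κ:ℤ) - 1) w < ((8 * m : ℕ) : ℤ) := by
        unfold sd
        simp only
        apply max_lt <;> rw [abs_lt] <;> constructor <;> push_cast <;> omega
      omega) hw
  refine sep_bottom (a := z - 3 * m) (b := z + 3 * m) (c := 0) (d := κ + 3 * m) (x1 := a)
    (x2 := x1) (x3 := b) hax hxb (by omega) (by omega) (by omega) (W := W) ?_ ?_ ?_ hy1 hy2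
    (hXW y (hy3.mono Set.inter_subset_left)) ?_ ?_
  · rw [hW]; exact Or.inr ⟨Or.inl rfl, le_rfl, by simp only; omega⟩
  · rw [hW]; exact Or.inr ⟨Or.inr rfl, le_rfl, by simp only; omega⟩
  · rw [hW]
    rintro (h1 | ⟨h1, -⟩)
    · have := hKbox _ h1
      unfold inR at this
      simp only at this
      omega
    · simp only at h1
      omega
  · -- the path in the barrier
    have v1 : ∀ c : ℤ, (c = a ∨ c = b) → (c, (κ : ℤ)) ∈ K →
        Reach (EV W ∩ ↑(RE (z - 3 * m) (z + 3 * m) 0 (κ + 3 * m))) (c, 0) (c, (κ : ℤ)) := by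
      intro c hc hcK
      refine vline' (by omega) (by omega) (by omega) (by omega) ?_
      intro i hi1 hi2
      rcases lt_or_eq_of_le hi2 with h1 | h1
      · rw [hW]; exact Or.inr ⟨hc, hi1, h1⟩
      · rw [h1]; exact hWK _ hcK
    refine (v1 a (Or.inl rfl) haK).trans (Reach.trans ?_ (v1 b (Or.inr rfl) hbK).symm)
    have h1 : Reach ((↑F : Set Edg) ∩ ↑(Om z κ m)) (a, (κ : ℤ)) (b, (κ : ℤ)) :=
      ((hKm _).1 haK).symm.trans ((hKm _).1 hbK)
    refine reach_EV (V := W) ?_ ?_ h1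
    · intro y' hy'
      exact hWK _ ((hKm _).2 (((hKm _).1 haK).trans hy'))
    · rintro g ⟨-, hg⟩
      have h2 : g ∈ Om z κ m := by exact_mod_cast hg
      unfold Om at h2
      exact_mod_cast RE_subset (by omega) (by omega) (by omega) (by omega) h2
  · -- the path in its complement
    have h1 : Reach (EV (fun y => ¬ W y) ∩ ↑(RE (z - 3 * m) (z + 3 * m) 0 (κ + 3 * m)))
        (x1, 0) (x1, (κ:ℤ) - 1) := by
      refine vline' (by omega) (by omega) (by omega) (by omega) ?_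
      intro i hi1 hi2
      rw [hW]
      rintro (h1 | ⟨h1, -⟩)
      · have := hKbox _ h1
        unfold inR at this
        simp only at this
        omega
      · simp only at h1
        omega
    refine h1.trans ?_
    refine reach_EV (V := fun y => ¬ W y) ?_ ?_ hy3
    · intro y' hy'
      exact hXW y' (hy'.mono Set.inter_subset_left)
    · rintro g ⟨-, hg⟩
      exact hg

/-- A path which leaves a box next to the side. -/
theorem arm_exit {H : Set Edg} {F : Finset Edg} {a b k d : ℤ}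
    (hloc : ∀ g ∈ H, g ∈ RE a b (k - 1) d → g ∈ F ∧ k ≤ (src g).2) {x w : Vtx}
    (hx : inR a b k d x) (hw : w.1 ≤ a ∨ b ≤ w.1 ∨ w.2 ≤ k - 1 ∨ d ≤ w.2) (h : Reach H x w) :
    ∃ u, (inR a b k d u ∧ (u.1 = a ∨ u.1 = b ∨ u.2 = d)) ∧
      Reach ((↑F : Set Edg) ∩ ↑(RE a b k d)) x u := by
  obtain ⟨w', w1, w2, w3⟩ := first_exit (a := a) (b := b) (c := k - 1) (d := d)
    (by unfold inR at hx ⊢; omega) h hw
  have h3 : Reach (↑(F ∩ RE a b k d) : Set Edg) x w' := by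
    refine w3.mono ?_
    rintro ⟨x0, y0, q⟩ ⟨h1, h2⟩
    have h2' : (x0, y0, q) ∈ RE a b (k - 1) d := by exact_mod_cast h2
    obtain ⟨h4, h5⟩ := hloc _ h1 h2'
    rw [src_mk] at h5
    simp only at h5
    rw [Finset.coe_inter]
    refine ⟨by exact_mod_cast h4, ?_⟩
    cases q
    · rw [mem_RE_false] at h2'
      rw [Finset.mem_coe, mem_RE_false]; omega
    · rw [mem_RE_true] at h2'
      rw [Finset.mem_coe, mem_RE_true]; omega
  have hin : inR a b k d w' := by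
    by_cases hxw : x = w'
    · rw [← hxw]; exact hx
    · exact rect_reach (fun g hg => (Finset.mem_inter.1 (show g ∈ F ∩ RE a b k d by
        exact_mod_cast hg)).2) h3 hxw
  refine ⟨w', ⟨hin, ?_⟩, h3.mono ?_⟩
  · unfold inR at hin; omega
  · intro g hg
    rw [Finset.coe_inter] at hg
    exact hg

/-- The local situation next to a side. -/
structure Chart (S F : Finset Edg) (H : Set Edg) (C : Set Vtx) (κ : ℕ) (x1 : ℤ) (r : ℕ) :
    Prop where
  l1 : ∀ g ∈ H, g ∈ RE (x1 - r) (x1 + r) ((κ:ℤ) - 1) (κ + r) → g ∈ F ∧ (κ:ℤ) ≤ (src g).2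
  l2 : ∀ g ∈ F, g ∈ RE (x1 - r) (x1 + r) κ (κ + r) → g ∈ H
  l3 : RE (x1 - r) (x1 + r) κ (κ + r) ⊆ S
  xC : (x1, (κ:ℤ)) ∈ C
  cl : ∀ u v, u ∈ C → Reach H u v → v ∈ C
  far : ∃ w : Vtx, (w.1 ≤ x1 - r ∨ x1 + r ≤ w.1 ∨ w.2 ≤ (κ:ℤ) - 1 ∨ κ + r ≤ w.2) ∧
    Reach H (x1, (κ:ℤ)) w

/-- Bad windows on a side. -/
def Side (S : Finset Edg) (κ m g R : ℕ) (N : ℕ) (F : Finset Edg) : Prop :=
  ∃ j ∈ Finset.Icc (-(N:ℤ)) N,
    (Om (j * m) κ m ⊆ S ∧ ∃ b ∈ Finset.Icc (j * m - 3 * (m:ℤ)) (j * m + 3 * m),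
      Wev 1 (j * m) κ m b (4 * m) F) ∨
    (Om (j * m) κ m ⊆ S ∧ ∃ b ∈ Finset.Icc (j * m - 3 * (m:ℤ)) (j * m + 3 * m),
      Wev (-1) (j * m) κ m b (4 * m) F) ∨
    (hbU (j * g) κ R ⊆ S ∧ H3 (j * g) κ (2 * g) R (↑F : Set Edg))

theorem ex_win {x1 : ℤ} {m N : ℕ} (hm : 1 ≤ m) (hx : |x1| < N * m) :
    ∃ j ∈ Finset.Icc (-(N:ℤ)) N, j * m ≤ x1 ∧ x1 < j * m + m := by
  have hm0 : (0:ℤ) < m := by omega
  rw [abs_lt] at hx
  have h1 : x1 / m * m ≤ x1 := Int.ediv_mul_le _ (by omega)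
  have h2 : x1 < x1 / m * m + m := by
    have := Int.lt_ediv_add_one_mul_self x1 hm0
    rw [add_mul, one_mul] at this
    exact this
  refine ⟨x1 / m, ?_, h1, h2⟩
  rw [Finset.mem_Icc]
  constructor
  · rw [Int.le_ediv_iff_mul_le hm0]
    linarith
  · rw [← Int.lt_add_one_iff]
    rw [Int.ediv_lt_iff_lt_mul hm0]
    nlinarith

/-- Failure of the bound for the excursions. -/
theorem chart_nv {S F : Finset Edg} {H : Set Edg} {C : Set Vtx} {κ m g R N r : ℕ} {x1 : ℤ}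
    {X : Set Edg} (h : Chart S F H C κ x1 r) (hκ : 1 ≤ κ) (hκm : κ ≤ m) (hr : 4 * m ≤ r)
    (hx : |x1| < N * m) (hX : ∀ g ∈ X, g ∈ F ∧ 0 ≤ (src g).2 ∧ src g ∉ C ∧ tgt g ∉ C)
    (hv : (x1, (κ:ℤ) - 1) ∉ C) {w : Vtx} (hw : Reach X (x1, (κ:ℤ) - 1) w)
    (hd : ((8 * m : ℕ) : ℤ) ≤ sd (x1, (κ:ℤ) - 1) w) : Side S κ m g R N F := by
  obtain ⟨j, hj, hj1, hj2⟩ := ex_win (by omega) hx
  obtain ⟨z, hz⟩ : ∃ z : ℤ, z = j * m := ⟨_, rfl⟩
  rw [← hz] at hj1 hj2
  have hOm : Om z κ m ⊆ RE (x1 - r) (x1 + r) κ (κ + r) := by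
    unfold Om
    exact RE_subset (by omega) (by omega) le_rfl (by omega)
  obtain ⟨s, hs, b, hb, hW⟩ := nv_loc (F := F) (z := z) (C := C) hκ hκm
    (by rw [abs_le]; omega) (fun y hy => by
      refine h.cl _ _ h.xC (hy.mono ?_)
      rintro g ⟨h1, h2⟩
      exact h.l2 g (by exact_mod_cast h1) (hOm (by exact_mod_cast h2))) (by
      obtain ⟨w', hw1, hw2⟩ := h.far
      obtain ⟨u, hu1, hu2⟩ := arm_exit (F := F) (a := z - 3 * m) (b := z + 3 * m) (k := κ)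
        (d := κ + 3 * m) (H := H) (x := (x1, (κ:ℤ))) (w := w') (fun g hg hg' =>
          h.l1 g hg (RE_subset (by omega) (by omega) le_rfl (by omega) hg'))
        (by unfold inR; simp only; omega) (by omega) hw2
      exact ⟨u, hu1, hu2⟩) hX hv hw hd
  refine ⟨j, hj, ?_⟩
  rw [← hz]
  rcases hs with rfl | rfl
  · exact Or.inl ⟨hOm.trans h.l3, b, hb, hW⟩
  · exact Or.inr (Or.inl ⟨hOm.trans h.l3, b, hb, hW⟩)

/-- Failure of the local connections. -/
theorem chart_lc {S F : Finset Edg} {H : Set Edg} {C : Set Vtx} {κ m g R N r : ℕ} {x1 x1' : ℤ}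
    (h : Chart S F H C κ x1 r) (h' : Chart S F H C κ x1' r) (hm : 1 ≤ m) (hmg : m ≤ g)
    (hr : R + 2 * g ≤ r) (hgR : 2 * g ≤ R)
    (hx : |x1| < N * m) (hxx : |x1 - x1'| ≤ g) :
    Side S κ m g R N F ∨ Reach {e | e ∈ H ∧ sd (x1, (κ:ℤ)) (src e) ≤ ((R + g : ℕ) : ℤ) ∧
      sd (x1, (κ:ℤ)) (tgt e) ≤ ((R + g : ℕ) : ℤ)} (x1', (κ:ℤ)) (x1, (κ:ℤ)) := by
  obtain ⟨j, hj, hj1, hj2⟩ := ex_win (x1 := x1) (m := g) (N := N) (by omega) (by
    refine hx.trans_le ?_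
    have : (m:ℤ) ≤ g := by exact_mod_cast hmg
    exact mul_le_mul_of_nonneg_left this (Int.natCast_nonneg N))
  obtain ⟨t, ht⟩ : ∃ t : ℤ, t = j * g := ⟨_, rfl⟩
  rw [← ht] at hj1 hj2
  rw [abs_le] at hxx
  by_cases hcon : Reach ((↑F : Set Edg) ∩ ↑(hbU t κ R)) (x1', (κ:ℤ)) (x1, (κ:ℤ))
  · right
    refine hcon.mono ?_
    rintro e ⟨h1, h2⟩
    have h2' : e ∈ RE (t - R) (t + R) κ (κ + R) := by
      unfold hbU at h2
      exact_mod_cast h2
    have h3 := rect_edge h2'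
    refine ⟨h.l2 e (by exact_mod_cast h1) (RE_subset (by omega) (by omega) le_rfl (by omega) h2'),
      ?_, ?_⟩
    · unfold inR at h3
      unfold sd
      apply max_le <;> rw [abs_le] <;> constructor <;> push_cast <;> omega
    · unfold inR at h3
      unfold sd
      apply max_le <;> rw [abs_le] <;> constructor <;> push_cast <;> omega
  left
  refine ⟨j, hj, Or.inr (Or.inr ?_)⟩
  rw [← ht]
  refine ⟨?_, ?_⟩
  · unfold hbU
    exact (RE_subset (by omega) (by omega) le_rfl (by omega)).trans h.l3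
  have harm : ∀ y : ℤ, Chart S F H C κ y r → |y - t| ≤ 2 * g →
      ∃ b ∈ rimU t κ R, Reach ((↑F : Set Edg) ∩ ↑(hbU t κ R)) (y, (κ:ℤ)) b := by
    intro y hy hyt
    rw [abs_le] at hyt
    obtain ⟨w', hw1, hw2⟩ := hy.far
    obtain ⟨u, hu1, hu2⟩ := arm_exit (F := F) (a := t - R) (b := t + R) (k := κ)
      (d := κ + R) (H := H) (x := (y, (κ:ℤ))) (w := w') (fun g hg hg' =>
        hy.l1 g hg (RE_subset (by omega) (by omega) le_rfl (by omega) hg'))
      (by unfold inR; simp only; omega) (by omega) hw2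
    exact ⟨u, hu1, hu2⟩
  refine ⟨(x1, (κ:ℤ)), ⟨rfl, ?_, ?_⟩, (x1', (κ:ℤ)), ⟨rfl, ?_, ?_⟩,
    harm x1 h (by rw [abs_le]; omega), harm x1' h' (by rw [abs_le]; omega), fun h1 =>
    hcon h1.symm⟩
  · push_cast; omega
  · push_cast; omega
  · push_cast; omega
  · push_cast; omega

end Pool.Agent.H950.EX
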