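import Pool.Agent.H950.EX.Seq
import Pool.Agent.H950.SV.Strip

/-!
Excursions of the exploration path of the lower configuration are enclosed by excursions of the
upper one and local connections.
-/

set_option autoImplicit false

namespace Pool.Agent.H950.EX

open H974 H12S H389NS H984N H984P H342P H443B Finset
open Pool.Agent.N116.EW
open Pool.Agent.H950.SV (out_col out_row rect_edge mv_other)
open Pool.Agent.H950.AD (adj_En En_adj)

variable {D : Dm} {F G : Finset Edg}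

/-- Excursions of the upper configuration behind flipped edges are small. -/
def NVD (D : Dm) (ρ : ℕ) (F G : Finset Edg) : Prop :=
  ∀ e ∈ G, e ∉ D.cfg F → ∀ x v : Vtx, En e x v → x ∈ D.clu F → v ∉ D.clu F → ∀ w,
    Reach {g | g ∈ D.cfg G ∧ src g ∉ D.clu F ∧ tgt g ∉ D.clu F} v w → sd v w < ρ

/-- Ends of flipped edges which are close are locally connected. -/
def LCD (D : Dm) (ρ R : ℕ) (F G : Finset Edg) : Prop :=
  ∀ e ∈ G, e ∉ D.cfg F → ∀ e' ∈ G, e' ∉ D.cfg F → ∀ x v x' v' : Vtx, En e x v → En e' x' v' →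
    x ∈ D.clu F → x' ∈ D.clu F → sd x x' ≤ ρ + 2 →
    Reach {g | g ∈ D.cfg F ∧ sd x (src g) ≤ R ∧ sd x (tgt g) ≤ R} x' x

/-- Flipped edges leave the cluster. -/
def LvD (D : Dm) (F G : Finset Edg) : Prop :=
  ∀ e ∈ G, e ∉ D.cfg F → ∀ x v : Vtx, En e x v → x ∈ D.clu F → v ∉ D.clu F

theorem nv_badV {ρ : ℕ} (h : NVD D ρ F G) : ¬ BadV D ρ F G := by
  rintro ⟨e, he, heF, x, v, y, hE, -, hx, hv, -, w, hw, hr⟩
  have := h e he heF x v hE hx hv w hr
  omega

/-- Faces outside of a box. -/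
theorem out_faceD {l a b c d : ℤ} (ha : l ≤ a) (hc : 0 ≤ c) {Z : Set Edg}
    (hZ : ∀ g ∈ Z, a ≤ (src g).1 ∧ (tgt g).1 ≤ b) (hZ' : ∀ g ∈ Z, c ≤ (src g).2 ∧ (tgt g).2 ≤ d)
    {x y : ℤ} (h : (x < a ∨ b ≤ x) ∨ (y < c ∨ d ≤ y)) : DReach Zᶜ (x, y) (l - 1, -1) := by
  rcases h with h | h
  · exact (out_col hZ h y (-1)).trans (out_row hZ' (Or.inl (by omega)) x (l - 1))
  · exact (out_row hZ' h x (l - 1)).trans (out_col hZ (Or.inl (by omega)) y (-1))

theorem wir_sub (hD : D.Ok) {e : Edg} (he : e ∈ D.wir) : e ∈ D.edges := by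
  obtain ⟨x, y, q⟩ := e
  obtain ⟨h1, h2, h3, h4, h5⟩ := hD
  unfold Dm.wir at he
  unfold Dm.edges
  simp only [Set.mem_ofPred_eq] at he
  cases q
  · rw [mem_RE_false]
    simp only [Bool.false_eq_true, false_and, true_and, false_or, or_false] at he
    omega
  · rw [mem_RE_true]
    simp only [Bool.true_eq_false, false_and, true_and, false_or] at he
    omega

theorem cfg_sub (hD : D.Ok) (hG : G ⊆ D.edges) {e : Edg} (he : e ∈ D.cfg G) : e ∈ D.edges := by
  rcases he with he | he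
  · exact hG (by exact_mod_cast he)
  · exact wir_sub hD he

theorem cfg_mono (h : F ⊆ G) {e : Edg} (he : e ∈ D.cfg F) : e ∈ D.cfg G := by
  rcases he with he | he
  · exact Or.inl (h he)
  · exact Or.inr he

/-- Faces of the dual cluster are connected to the outside. -/
theorem dclu_out (hD : D.Ok) (hG : G ⊆ D.edges) {f : Vtx} (hf : f ∈ D.dclu G) {Z : Set Edg}
    (hZ : Z ⊆ D.cfg G) : DReach Zᶜ f (D.l - 1, -1) := by
  obtain ⟨g, hg, hr⟩ := hf
  have h1 : DReach Zᶜ g f := by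
    refine hr.mono ?_
    rintro e ⟨-, he⟩ he'
    exact he (hZ he')
  have h2 : DReach Zᶜ g (D.l - 1, -1) := by
    obtain ⟨x, y⟩ := g
    refine out_faceD (a := D.l) (b := D.r) (c := 0) (d := D.h) le_rfl le_rfl ?_ ?_ ?_
    · intro e he
      have := rect_edge (cfg_sub hD hG (hZ he))
      unfold inR at this
      omega
    · intro e he
      have := rect_edge (cfg_sub hD hG (hZ he))
      unfold inR at this
      omega
    · unfold Dm.outer at hg
      simp only [Set.mem_ofPred_eq] at hg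
      omega
  exact h1.symm.trans h2

/-- **Excursions of the lower path are enclosed.** -/
theorem exc_lowD (hD : D.Ok) (hFG : F ⊆ G) (hG : G ⊆ D.edges) {ρ R : ℕ} (hρ : 1 ≤ ρ)
    (hV : NVD D ρ F G) (hC : LCD D ρ R F G) (hS : LvD D F G) {m : ℕ} {p q : ℕ → ℕ}
    (h : Pcs D F G m p q) {i : ℕ} (hi : i < m) {k : ℕ} (hk1 : p i ≤ k)
    (hk2 : k ≤ p (i + 1)) :
    sd (D.walk F (p i)).1 (D.walk F k).1 ≤ ((max ρ R : ℕ) : ℤ) + 3 := by
  have hF : F ⊆ D.edges := hFG.trans hG
  have hV' := nv_badV hV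
  obtain ⟨σ, hσ⟩ : ∃ σ, σ = D.walk F (p i) := ⟨_, rfl⟩
  have hσM : σ ∈ MM D F G := by rw [hσ]; exact h.mem i hi.le
  have hσG : D.walk G (q i) = σ := by rw [hσ]; exact h.eq i hi.le
  have hpi := h.ai i hi
  have hqi := h.bi i hi
  have hlF := h.ale (i + 1) hi
  have hlG := h.ble (i + 1) hi
  obtain ⟨M, hM⟩ : ∃ M : ℤ, M = ((max ρ R : ℕ) : ℤ) + 1 := ⟨_, rfl⟩
  have hM0 : 1 ≤ M := by rw [hM]; omega
  have hMρ : (ρ : ℤ) + 1 ≤ M := by rw [hM]; push_cast; omega
  have hMR : (R : ℤ) ≤ M := by rw [hM]; push_cast; omega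
  rw [← hσ]
  by_cases hnext : D.walk F (p i + 1) ∈ MM D F G
  · -- one step
    have hp1 : p (i + 1) = p i + 1 := by
      by_contra hne
      exact h.ga i hi (p i + 1) (by omega) (by omega) hnext
    rcases Nat.eq_or_lt_of_le hk1 with rfl | hk1
    · rw [← hσ, sd_self']; positivity
    · have : k = p i + 1 := by omega
      rw [this, clu_walk_succ, ← hσ]
      have := sd_nxt (D.cfg F) σ
      omega
  -- the examined edge is flipped
  rw [clu_walk_succ, ← hσ] at hnext
  have hcl : ae σ ∉ D.cfg F := by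
    intro hc
    apply hnext
    rw [nxt_open hc]
    refine ⟨?_, by rw [p2_face_mv]; exact hσM.2⟩
    have hr : Reach (D.cfg F) (0, 0) σ.1 := hσM.1
    exact hr.trans (Adj.reach ⟨ae σ, hc, p2_ends _⟩)
  rw [nxt_closed hcl] at hnext
  have hed : ae σ ∈ D.edges := by
    by_contra hc
    apply hnext
    refine ⟨by rw [p2_rt_fst]; exact hσM.1, outer_dclu (rt_outer hD ?_ ?_ hc ?_) G⟩
    · rw [hσ]; exact walk_in hD hF _
    · rw [hσ]; exact dclu_in hD (walk_clu hD hF (by omega)).2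
    · rw [hσ]; exact clu_ne_stop (by omega)
  have hcG : ae σ ∈ D.cfg G := by
    by_contra hc
    apply hnext
    refine ⟨by rw [p2_rt_fst]; exact hσM.1, ?_⟩
    obtain ⟨g, hg, hr⟩ := hσM.2
    exact ⟨g, hg, hr.trans (DAdj.reach ⟨ae σ, ⟨hed, hc⟩, p2_dends _⟩)⟩
  have heG : ae σ ∈ G := by
    rcases hcG with h | h
    · exact h
    · exact absurd (Or.inr h) hcl
  have hrt : face (rt σ) ∉ D.dclu G := by
    intro hc
    exact hnext ⟨by rw [p2_rt_fst]; exact hσM.1, hc⟩
  have hEσ : En (ae σ) σ.1 (mv σ).1 := by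
    rcases p2_ends σ with ⟨e1, e2⟩ | ⟨e1, e2⟩
    · exact Or.inl ⟨e1.symm, e2.symm⟩
    · exact Or.inr ⟨e2.symm, e1.symm⟩
  have hvC : (mv σ).1 ∉ D.clu F := hS _ heG hcl _ _ hEσ hσM.1
  have hGnext : D.walk G (q i + 1) = mv σ := by
    rw [clu_walk_succ, hσG, nxt_open hcG]
  -- the upper piece
  have hoffG : ∀ j, q i < j → j < q (i + 1) → (D.walk G j).1 ∉ D.clu F := by
    intro j hj1 hj2 hj3
    exact h.gb i hi j hj1 hj2 ⟨hj3, (walk_clu hD hG (by omega)).2⟩
  have hq2 : q i + 1 < q (i + 1) := by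
    rcases Nat.lt_or_ge (q i + 1) (q (i + 1)) with h1 | h1
    · exact h1
    · exfalso
      have h2 : q (i + 1) = q i + 1 := by omega
      have h3 := h.mem (i + 1) hi
      rw [← h.eq (i + 1) hi, h2, hGnext] at h3
      exact hvC h3.1
  obtain ⟨σ', hσ'⟩ : ∃ σ', σ' = D.walk G (q (i + 1)) := ⟨_, rfl⟩
  have hσ'M : σ' ∈ MM D F G := by rw [hσ', h.eq (i + 1) hi]; exact h.mem (i + 1) hi
  obtain ⟨L, hL⟩ : ∃ L, q (i + 1) = L + 1 := ⟨q (i + 1) - 1, by omega⟩
  obtain ⟨τ, hτ⟩ : ∃ τ, τ = D.walk G L := ⟨_, rfl⟩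
  have hτC : τ.1 ∉ D.clu F := by rw [hτ]; exact hoffG L (by omega) (by omega)
  have hτσ' : nxt (D.cfg G) τ = σ' := by rw [hσ', hL, clu_walk_succ, hτ]
  have hτG : ae τ ∈ D.cfg G := by
    by_contra hc
    rw [nxt_closed hc] at hτσ'
    apply hτC
    have := hσ'M.1
    rw [← hτσ', p2_rt_fst] at this
    exact this
  rw [nxt_open hτG] at hτσ'
  have hEτ : En (ae τ) σ'.1 τ.1 := by
    rw [← hτσ']
    rcases p2_ends τ with ⟨e1, e2⟩ | ⟨e1, e2⟩
    · exact Or.inr ⟨e2.symm, e1.symm⟩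
    · exact Or.inl ⟨e1.symm, e2.symm⟩
  have hτF : ae τ ∉ D.cfg F := by
    intro hc
    apply hτC
    have h1 : Reach (D.cfg F) (0, 0) σ'.1 := hσ'M.1
    exact h1.trans (En_adj hEτ hc).reach
  have hτG' : ae τ ∈ G := by
    rcases hτG with h | h
    · exact h
    · exact absurd (Or.inr h) hτF
  have hne : ae σ ≠ ae τ := by
    intro hcon
    apply hnext
    have h1 : σ ≠ τ := by
      intro h2
      apply hτC
      rw [← h2]
      exact hσM.1
    rw [← mv_other hcon h1, hτσ']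
    exact hσ'M
  -- distances
  have hdG : ∀ j, q i ≤ j → j ≤ q (i + 1) → sd σ.1 (D.walk G j).1 ≤ ρ + 1 := by
    intro j hj1 hj2
    have := exc_G hD hG hρ hV' hqi hlG (by rw [hσG]; exact hσM) (h.gb i hi) hj1 hj2
    rw [hσG] at this
    exact this
  -- the closed curve
  obtain ⟨Z, hZ⟩ : ∃ Z : Set Edg, Z = {g | (g ∈ D.cfg G ∧ ∃ j, q i ≤ j ∧ j < q (i + 1) ∧
      g = ae (D.walk G j)) ∨ (g ∈ D.cfg F ∧ sd σ.1 (src g) ≤ R ∧
      sd σ.1 (tgt g) ≤ R)} := ⟨_, rfl⟩
  have hends : ∀ j, ae (D.walk G j) ∈ D.cfg G → ∀ z,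
      (z = src (ae (D.walk G j)) ∨ z = tgt (ae (D.walk G j))) →
      z = (D.walk G j).1 ∨ z = (D.walk G (j + 1)).1 := by
    intro j hj z hz
    rw [clu_walk_succ, nxt_open hj]
    rcases p2_ends (D.walk G j) with ⟨e1, e2⟩ | ⟨e1, e2⟩
    · rw [← e1, ← e2]; exact hz
    · rw [← e1, ← e2]; exact hz.symm
  have hZE : Z ⊆ D.cfg G := by
    rw [hZ]
    rintro g (⟨h1, -⟩ | ⟨h1, -, -⟩)
    · exact h1
    · exact cfg_mono hFG h1
  have hZM : ∀ g ∈ Z, sd σ.1 (src g) ≤ M ∧ sd σ.1 (tgt g) ≤ M := by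
    rw [hZ]
    rintro g (⟨h1, j, h2, h3, h4⟩ | ⟨h1, h2, h3⟩)
    · rw [h4] at h1 ⊢
      have k1 := hdG j h2 (by omega)
      have k2 := hdG (j + 1) (by omega) (by omega)
      constructor
      · rcases hends j h1 _ (Or.inl rfl) with h5 | h5 <;> rw [h5] <;> omega
      · rcases hends j h1 _ (Or.inr rfl) with h5 | h5 <;> rw [h5] <;> omega
    · omega
  -- the circuit
  have heZ : ae σ ∈ Z := by
    rw [hZ]
    exact Or.inl ⟨hcG, q i, le_rfl, hqi, by rw [hσG]⟩
  have hxe : ∀ g : Edg, (∀ x, (x = src g ∨ x = tgt g) → x ∉ D.clu F) → g ≠ ae σ := by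
    rintro g hg rfl
    rcases hEσ with ⟨e1, -⟩ | ⟨e1, -⟩
    · exact hg _ (Or.inl e1) hσM.1
    · exact hg _ (Or.inr e1) hσM.1
  have hU : ∀ t, q i + 1 + t < q (i + 1) →
      Reach (Z \ {ae σ}) (mv σ).1 (D.walk G (q i + 1 + t)).1 := by
    intro t
    induction t with
    | zero =>
      intro _
      rw [add_zero, hGnext]
      exact Reach.refl _ _
    | succ t ih =>
      intro ht
      have h1 := ih (by omega)
      rw [← add_assoc, clu_walk_succ]
      by_cases hc : ae (D.walk G (q i + 1 + t)) ∈ D.cfg G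
      · rw [nxt_open hc]
        refine h1.trans (Adj.reach ⟨ae (D.walk G (q i + 1 + t)), ⟨?_, ?_⟩, p2_ends _⟩)
        · rw [hZ]
          exact Or.inl ⟨hc, _, by omega, by omega, rfl⟩
        · apply hxe
          intro x hx
          rcases hends _ hc x hx with h5 | h5
          · rw [h5]; exact hoffG _ (by omega) (by omega)
          · rw [h5]; exact hoffG _ (by omega) (by omega)
      · rw [nxt_closed hc, p2_rt_fst]
        exact h1
  have hcirc : Reach (Z \ {ae σ}) (mv σ).1 σ.1 := by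
    have r1 := hU (L - (q i + 1)) (by omega)
    rw [show q i + 1 + (L - (q i + 1)) = L by omega, ← hτ] at r1
    have r2 : Reach (Z \ {ae σ}) τ.1 σ'.1 := by
      have hmem : ae τ ∈ Z \ {ae σ} := by
        refine ⟨?_, fun h1 => hne h1.symm⟩
        rw [hZ]
        exact Or.inl ⟨hτG, L, by omega, by omega, by rw [hτ]⟩
      exact (En_adj hEτ hmem).reach.symm
    have r3 := hC (ae σ) heG hcl (ae τ) hτG' hτF σ.1 (mv σ).1 σ'.1 τ.1 hEσ hEτ
      hσM.1 hσ'M.1 (by
        have := hdG (q (i + 1)) hqi.le le_rfl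
        rw [← hσ'] at this
        omega)
    have r4 : Reach (Z \ {ae σ}) σ'.1 σ.1 := by
      refine r3.mono ?_
      rintro g ⟨h1, h2, h3⟩
      refine ⟨?_, ?_⟩
      · rw [hZ]
        exact Or.inr ⟨h1, h2, h3⟩
      · intro h4
        apply hcl
        rw [← h4]
        exact h1
    exact r1.trans (r2.trans r4)
  have hnotO : ¬ DReach Zᶜ (face (rt σ)) (D.l - 1, -1) := by
    intro hcon
    have h1 : DReach Zᶜ (face σ) (D.l - 1, -1) := dclu_out hD hG hσM.2 hZE
    have h3 : DReach Zᶜ (face σ) (face (rt σ)) := h1.trans hcon.symm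
    have h4 : DReach Zᶜ (dsrc (ae σ)) (dtgt (ae σ)) := by
      rcases p2_dends σ with ⟨e1, e2⟩ | ⟨e1, e2⟩
      · rw [e1, e2]; exact h3
      · rw [e1, e2]; exact h3.symm
    have h5 := H342N.t_BRI Z (ae σ) heZ h4
    apply h5
    rcases p2_ends σ with ⟨e1, e2⟩ | ⟨e1, e2⟩
    · rw [e1, e2]; exact hcirc.symm
    · rw [e1, e2]; exact hcirc
  -- the lower piece
  have hoffF : ∀ j, p i < j → j < p (i + 1) → face (D.walk F j) ∉ D.dclu G := by
    intro j hj1 hj2 hj3
    exact h.ga i hi j hj1 hj2 ⟨(walk_clu hD hF (by omega)).1, hj3⟩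
  have hZout : ∀ g ∈ Z, g ∉ D.cfg F → dsrc g ∈ D.dclu G ∨ dtgt g ∈ D.dclu G := by
    rw [hZ]
    rintro g (⟨h1, j, h2, h3, h4⟩ | ⟨h1, -, -⟩) hgF
    · have h5 := (walk_clu hD hG (show j ≤ D.len G by omega)).2
      rw [h4]
      rcases p2_dends (D.walk G j) with ⟨e1, e2⟩ | ⟨e1, e2⟩
      · rw [e1]; exact Or.inl h5
      · rw [e2]; exact Or.inr h5
    · exact absurd h1 hgF
  have hch : ∀ t, p i + 1 + t < p (i + 1) →
      DReach Zᶜ (face (rt σ)) (face (D.walk F (p i + 1 + t))) := by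
    intro t
    induction t with
    | zero =>
      intro _
      rw [add_zero, clu_walk_succ, ← hσ, nxt_closed hcl]
      exact DReach.refl _ _
    | succ t ih =>
      intro ht
      have h1 := ih (by omega)
      have u1 := hoffF (p i + 1 + t) (by omega) (by omega)
      have u2 := hoffF (p i + 1 + (t + 1)) (by omega) (by omega)
      rw [← add_assoc, clu_walk_succ] at u2 ⊢
      by_cases hc : ae (D.walk F (p i + 1 + t)) ∈ D.cfg F
      · rw [nxt_open hc, p2_face_mv]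
        exact h1
      · rw [nxt_closed hc] at u2 ⊢
        refine h1.trans (DAdj.reach ⟨ae (D.walk F (p i + 1 + t)), ?_, p2_dends _⟩)
        intro hgZ
        rcases hZout _ hgZ hc with h2 | h2 <;>
          rcases p2_dends (D.walk F (p i + 1 + t)) with ⟨e1, e2⟩ | ⟨e1, e2⟩
        · rw [e1] at h2; exact u1 h2
        · rw [e1] at h2; exact u2 h2
        · rw [e2] at h2; exact u2 h2
        · rw [e2] at h2; exact u1 h2
  have hbox : ∀ j, p i < j → j < p (i + 1) → sd σ.1 (D.walk F j).1 ≤ M + 1 := by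
    intro j hj1 hj2
    have h1 := hch (j - (p i + 1)) (by omega)
    rw [show p i + 1 + (j - (p i + 1)) = j by omega] at h1
    have h2 : ¬ DReach Zᶜ (face (D.walk F j)) (D.l - 1, -1) := fun h3 =>
      hnotO (h1.trans h3)
    have h3 : sd σ.1 (face (D.walk F j)) ≤ M := by
      by_contra hcon
      push Not at hcon
      apply h2
      obtain ⟨⟨x, y⟩, hxy⟩ : ∃ f : Vtx, f = face (D.walk F j) := ⟨_, rfl⟩
      rw [← hxy] at hcon ⊢
      have hfar : x < σ.1.1 - M ∨ σ.1.1 + M < x ∨ y < σ.1.2 - M ∨ σ.1.2 + M < y := by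
        by_contra hno
        push Not at hno
        have h4 : sd σ.1 (x, y) ≤ M := by
          unfold sd
          apply max_le <;> rw [abs_le] <;> constructor <;> simp only <;> omega
        omega
      refine out_faceD (a := max D.l (σ.1.1 - M)) (b := σ.1.1 + M) (c := max 0 (σ.1.2 - M))
        (d := σ.1.2 + M) (le_max_left _ _) (le_max_left _ _) ?_ ?_ (by omega)
      · intro g hg
        have k1 := hZM g hg
        have k2 := (rect_edge (cfg_sub hD hG (hZE hg)))
        unfold inR at k2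
        unfold sd at k1
        have k3 := k1.1.trans' (le_max_left _ _)
        have k4 := k1.2.trans' (le_max_left _ _)
        rw [abs_le] at k3 k4
        constructor
        · apply max_le <;> omega
        · omega
      · intro g hg
        have k1 := hZM g hg
        have k2 := (rect_edge (cfg_sub hD hG (hZE hg)))
        unfold inR at k2
        unfold sd at k1
        have k3 := k1.1.trans' (le_max_right _ _)
        have k4 := k1.2.trans' (le_max_right _ _)
        rw [abs_le] at k3 k4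
        constructor
        · apply max_le <;> omega
        · omega
    have h4 := sd_tri σ.1 (face (D.walk F j)) (D.walk F j).1
    have h5 := sd_face (D.walk F j)
    rw [sd_comm'] at h5
    omega
  have hkey : ∀ j, p i ≤ j → j < p (i + 1) → sd σ.1 (D.walk F j).1 ≤ M + 1 := by
    intro j hj1 hj2
    rcases Nat.eq_or_lt_of_le hj1 with rfl | hj1
    · rw [← hσ, sd_self']; omega
    · exact hbox j hj1 hj2
  rcases Nat.eq_or_lt_of_le hk2 with rfl | hlt
  · obtain ⟨k', hk'⟩ : ∃ k', p (i + 1) = k' + 1 := ⟨p (i + 1) - 1, by omega⟩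
    rw [hk']
    have h1 := hkey k' (by omega) (by omega)
    have h2 := sd_tri σ.1 (D.walk F k').1 (D.walk F (k' + 1)).1
    have h3 := sd_nxt (D.cfg F) (D.walk F k')
    rw [← clu_walk_succ] at h3
    omega
  · have := hkey k hk1 hlt
    omega

open H342L (cdist Curve)

/-- **The two exploration paths are close.** -/
theorem crv_near (hD : D.Ok) (hFG : F ⊆ G) (hG : G ⊆ D.edges) {δ : ℝ} (hδ : 0 ≤ δ) {ρ R : ℕ}
    (hρ : 1 ≤ ρ) (hV : NVD D ρ F G) (hC : LCD D ρ R F G) (hS : LvD D F G) :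
    cdist (crv D δ F) (crv D δ G) ≤ δ * (4 * ((max ρ R : ℕ) : ℝ) + 13) := by
  have h1 := crv_close hD hFG hG hδ (ρ := max ρ R + 3) (fun m a b hp i hi =>
    ⟨fun k h1 h2 => by
      have := exc_lowD hD hFG hG hρ hV hC hS hp hi h1 h2
      push_cast at this ⊢
      exact this, fun k h1 h2 => by
      have h3 := exc_G hD hG hρ (nv_badV hV) (hp.bi i hi) (hp.ble (i + 1) hi)
        (by rw [hp.eq i hi.le]; exact hp.mem i hi.le) (hp.gb i hi) h1 h2
      rw [hp.eq i hi.le] at h3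
      push_cast
      omega⟩)
  refine h1.trans (le_of_eq ?_)
  push_cast
  ring

end Pool.Agent.H950.EX
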