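import Pool.Agent.H950.EX.Emb
import Pool.Agent.H950.NT.Expl
import Pool.Graph.R_pool_sql_team_seeded_63374d34.N116.EW.Hit

/-!
Moving the first point of the exploration path.
-/

set_option autoImplicit false

namespace Pool.Agent.H950.EX

open H974 H12S H389NS H984N H984P H342P H443B Finset
open Pool.Agent.N116.EW
open H342L (cdist Curve)

variable {D D' : Dm} {F G F' : Finset Edg} {s : ℤ} {k : ℕ}

/-- Arms. -/
theorem ex_arm2 : ∃ C c : ℝ, 0 < C ∧ 0 < c ∧ ∀ (ρ R : ℕ), 1 ≤ ρ → ρ ≤ R → ∀ (c1 c2 : ℤ)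
    (S : Finset Edg), PQ (1/2) S (fun F => Crs c1 c2 ρ R ↑F) ≤ C * ((ρ:ℝ) / R) ^ c ∧
      PQ (1/2) S (fun F => DCrs c1 c2 ρ R (↑(S \ F) : Set Edg)) ≤ C * ((ρ:ℝ) / R) ^ c := by
  obtain ⟨κ, hκ, hW⟩ := win_half
  obtain ⟨C, c, hC, hc, h⟩ := win_arm_of
    (fun {q κ n} h {m} hm hmn c1 c2 S => win_blk h hm hmn c1 c2 S) κ hκ
  exact ⟨C, c, hC, hc, fun ρ R h1 h2 c1 c2 S => h (1/2) R (hW R) ρ R h1 h2 le_rfl c1 c2 S⟩

/-- The rectangle with another first point. -/
def mvD (D : Dm) (t : ℤ) : Dm := ⟨D.l, D.r, D.h, t⟩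

/-- The edges between the two first points. -/
noncomputable def Sg (D : Dm) (q : ℕ) : Finset Edg :=
  (Finset.range q).image (fun i : ℕ => ((D.t + (i : ℤ), D.h, true) : Edg))

theorem mem_Sg {q : ℕ} {e : Edg} : e ∈ Sg D q ↔ ∃ i : ℕ, i < q ∧ e = (D.t + (i : ℤ), D.h, true) := by
  unfold Sg
  rw [Finset.mem_image]
  constructor
  · rintro ⟨i, hi, rfl⟩
    exact ⟨i, Finset.mem_range.1 hi, rfl⟩
  · rintro ⟨i, hi, rfl⟩
    exact ⟨i, Finset.mem_range.2 hi, rfl⟩

theorem mv_edges (t : ℤ) : (mvD D t).edges = D.edges := rfl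

theorem Sg_sub (hD : D.Ok) {q : ℕ} (hq : D.t + q ≤ D.r) : Sg D q ⊆ D.edges := by
  intro e he
  obtain ⟨i, hi, rfl⟩ := mem_Sg.1 he
  obtain ⟨h1, h2, h3, h4, h5⟩ := hD
  unfold Dm.edges
  rw [mem_RE_true]
  omega

theorem mv_cfg (hD : D.Ok) {q : ℕ} : D.cfg (F ∪ Sg D q) = (mvD D (D.t + q)).cfg F := by
  obtain ⟨h1, h2, h3, h4, h5⟩ := hD
  ext ⟨x, y, o⟩
  have e1 : ((x, y, o) ∈ D.cfg (F ∪ Sg D q)) ↔ ((x, y, o) ∈ F ∨ (x, y, o) ∈ Sg D q) ∨
      (x, y, o) ∈ D.wir := by
    constructor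
    · rintro (h | h)
      · exact Or.inl (Finset.mem_union.1 (by exact_mod_cast h))
      · exact Or.inr h
    · rintro (h | h)
      · exact Or.inl (by exact_mod_cast Finset.mem_union.2 h)
      · exact Or.inr h
  have e2 : ((x, y, o) ∈ (mvD D (D.t + q)).cfg F) ↔ (x, y, o) ∈ F ∨
      (x, y, o) ∈ (mvD D (D.t + q)).wir := by
    constructor
    · rintro (h | h)
      · exact Or.inl (by exact_mod_cast h)
      · exact Or.inr h
    · rintro (h | h)
      · exact Or.inl (by exact_mod_cast h)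
      · exact Or.inr h
  rw [e1, e2, or_assoc]
  have e3 : ((x, y, o) ∈ Sg D q ∨ (x, y, o) ∈ D.wir) ↔ (x, y, o) ∈ (mvD D (D.t + q)).wir := by
    unfold Dm.wir mvD
    cases o
    · simp only [Set.mem_ofPred_eq, Bool.false_eq_true, false_and, true_and, false_or, or_false]
      constructor
      · rintro (h | h)
        · obtain ⟨i, hi, h⟩ := mem_Sg.1 h
          simp at h
        · exact h
      · intro h
        exact Or.inr h
    · simp only [Set.mem_ofPred_eq, Bool.true_eq_false, false_and, true_and, false_or]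
      constructor
      · rintro (h | h)
        · obtain ⟨i, hi, h⟩ := mem_Sg.1 h
          simp only [Prod.mk.injEq] at h
          omega
        · omega
      · intro h
        by_cases h6 : y = D.h ∧ D.t ≤ x ∧ x < D.t + q
        · left
          refine mem_Sg.2 ⟨(x - D.t).toNat, by omega, ?_⟩
          obtain ⟨h8, h9, h10⟩ := h6
          rw [h8, show D.t + (((x - D.t).toNat : ℕ) : ℤ) = x by omega]
        · right
          omega
  rw [e3]

theorem mv_ok (hD : D.Ok) {q : ℕ} (hq : D.t + q ≤ D.r) : (mvD D (D.t + q)).Ok := by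
  obtain ⟨h1, h2, h3, h4, h5⟩ := hD
  exact ⟨h1, h2, h3, by unfold mvD; simp only; omega, by unfold mvD; simp only; omega⟩

/-- The first steps go to the right. -/
theorem right (hF : F ⊆ D.edges) {q : ℕ} : ∀ i ≤ q,
    D.walk (F ∪ Sg D q) (2 * i) = ((D.t + i, D.h), .ne) ∧
    (i < q → D.walk (F ∪ Sg D q) (2 * i + 1) = ((D.t + i + 1, D.h), .nw)) := by
  have step1 : ∀ i < q, nxt (D.cfg (F ∪ Sg D q)) ((D.t + i, D.h), .ne) =
      ((D.t + i + 1, D.h), .nw) := by
    intro i hi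
    rw [nxt_open]
    · rfl
    · rw [ae_ne]
      left
      have : ((D.t + i, D.h, true) : Edg) ∈ F ∪ Sg D q :=
        Finset.mem_union_right _ (mem_Sg.2 ⟨i, hi, rfl⟩)
      exact_mod_cast this
  have step2 : ∀ i < q, nxt (D.cfg (F ∪ Sg D q)) ((D.t + i + 1, D.h), .nw) =
      ((D.t + (i + 1 : ℕ), D.h), .ne) := by
    intro i hi
    rw [nxt_closed]
    · show (((D.t + i + 1, D.h), Q4.ne) : St) = ((D.t + (i + 1 : ℕ), D.h), .ne)
      congr 2
      push_cast
      ring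
    · rw [ae_nw]
      rintro (h | h)
      · have h' : ((D.t + i + 1, D.h, false) : Edg) ∈ F ∪ Sg D q := by exact_mod_cast h
        rcases Finset.mem_union.1 h' with h' | h'
        · have := hF h'
          unfold Dm.edges at this
          rw [mem_RE_false] at this
          omega
        · obtain ⟨j, -, hj⟩ := mem_Sg.1 h'
          simp at hj
      · unfold Dm.wir at h
        simp only [Set.mem_ofPred_eq, Bool.false_eq_true, false_and, true_and, false_or,
          or_false] at h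
        omega
  intro i
  induction i with
  | zero =>
    intro _
    have e0 : D.walk (F ∪ Sg D q) (2 * 0) = ((D.t + (0 : ℕ), D.h), .ne) := by
      show D.start = _
      unfold Dm.start
      push_cast
      rw [add_zero]
    refine ⟨e0, fun hi => ?_⟩
    rw [clu_walk_succ, e0]
    exact step1 0 hi
  | succ i ih =>
    intro hi
    have h4 := (ih (by omega)).2 (by omega)
    have e0 : D.walk (F ∪ Sg D q) (2 * (i + 1)) = ((D.t + (i + 1 : ℕ), D.h), .ne) := by
      rw [show 2 * (i + 1) = 2 * i + 1 + 1 by ring, clu_walk_succ, h4]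
      exact step2 i (by omega)
    refine ⟨e0, fun hi' => ?_⟩
    rw [clu_walk_succ, e0]
    exact step1 (i + 1) hi'

/-- **The exploration path with another first point.** -/
theorem mv_crv (hD : D.Ok) (hF : F ⊆ D.edges) {q : ℕ} (hq : D.t + q ≤ D.r) {δ : ℝ}
    (hδ : 0 ≤ δ) : cdist (crv (mvD D (D.t + q)) δ F) (crv D δ (F ∪ Sg D q)) ≤
      δ * (2 * q + 2) := by
  have hD' := mv_ok hD hq
  have hr := right hF (q := q)
  have hGs : F ∪ Sg D q ⊆ D.edges := Finset.union_subset hF (Sg_sub hD hq)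
  have hpos : ∀ j ≤ 2 * q, ∃ i ≤ q, (D.walk (F ∪ Sg D q) j).1 = (D.t + (i : ℕ), D.h) := by
    intro j hj
    rcases Nat.even_or_odd' j with ⟨i, rfl | rfl⟩
    · exact ⟨i, by omega, by rw [(hr i (by omega)).1]⟩
    · refine ⟨i + 1, by omega, ?_⟩
      rw [(hr i (by omega)).2 (by omega)]
      push_cast
      rw [add_assoc]
  have hh := hD.h_pos
  obtain ⟨hw, hl⟩ := emb_gen (D := mvD D (D.t + q)) (D' := D)
    (F := F) (F' := F ∪ Sg D q) (N0 := 2 * q) hD' hF
    (by
      rw [(hr q le_rfl).1]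
      rfl)
    (by
      intro j hj hcon
      obtain ⟨i, hi, hij⟩ := hpos j hj.le
      rw [hcon] at hij
      have : (0:ℤ) = D.h := congrArg Prod.snd hij
      omega)
    (by
      intro j hj
      rw [mv_cfg hD])
  have hl' : D.len (F ∪ Sg D q) = 2 * q + (mvD D (D.t + q)).len F + 0 := by rw [hl, add_zero]
  refine (crv_ext (N0 := 2 * q) (N1 := 0) (ρ := q) hD' hF hδ hl' hw ?_ ?_).trans (le_of_eq ?_)
  · intro j hj
    obtain ⟨i, hi, hij⟩ := hpos j hj
    rw [hij]
    show sd (D.t + q, D.h) (D.t + (i:ℕ), D.h) ≤ q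
    unfold sd
    simp only [sub_self, abs_zero]
    apply max_le _ (by positivity)
    rw [abs_le]
    omega
  · intro j hj1 hj2
    have : j = 2 * q + (mvD D (D.t + q)).len F := by omega
    rw [this, ← hl, walk_len hD hGs, sd_self']
    positivity
  · ring

/-- Closeness if there are no long excursions. -/
theorem crv_matched (hD : D.Ok) (hFG : F ⊆ G) (hG : G ⊆ D.edges) {δ : ℝ} (hδ : 0 ≤ δ) {ρ : ℕ}
    (hρ : 1 ≤ ρ) (h1 : ¬ BadV D ρ F G) (h2 : ¬ BadW D ρ F G) :
    cdist (crv D δ F) (crv D δ G) ≤ δ * (4 * ρ + 9) := by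
  obtain ⟨m, a, b, ha0, hb0, ham, hbm, ha, hb, hab⟩ := matched hD hFG hG hρ h1 h2
  have hr : (0 : ℝ) ≤ δ * (4 * ρ + 9) := by positivity
  have key : ∀ i < m, ∀ k l : ℕ, a i ≤ k → k ≤ a (i + 1) → b i ≤ l → l ≤ b (i + 1) →
      dist (pos δ (D.walk F k)) (pos δ (D.walk G l)) ≤ δ * (4 * ρ + 9) := by
    intro i hi k l hk1 hk2 hl1 hl2
    refine (dist_pos_le hδ _ _).trans ?_
    apply mul_le_mul_of_nonneg_left _ hδ
    have h3 : ((sd (D.walk F k).1 (D.walk G l).1 : ℤ) : ℝ) ≤ ((2 * (ρ : ℤ) + 4 : ℤ) : ℝ) := by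
      exact_mod_cast hab i hi k l hk1 hk2 hl1 hl2
    push_cast at h3
    linarith
  obtain ⟨φ, hφ⟩ := Pool.Agent.N839.EW.plIso (D.len F) (D.len G) m
    (fun k => pos δ (D.walk F k)) (fun k => pos δ (D.walk G k)) a b
    (δ * (4 * ρ + 9)) (len_pos hD (hFG.trans hG)) (len_pos hD hG) ha0 hb0 ham hbm ha hb key
  exact cdist_le_of hr φ hφ

/-- Leaving a box for the last time. -/
theorem last_box {H : Set Edg} {P : Vtx → Prop} {A : Set Edg}
    (hA : ∀ e ∈ H, e ∉ A → P (src e) ∧ P (tgt e)) {v w : Vtx} (hv : P v) (h : Reach H v w) :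
    ∃ u, P u ∧ Reach A u w := by
  unfold Reach at h
  induction h with
  | refl => exact ⟨v, hv, Reach.refl _ _⟩
  | tail _ hst ih =>
    obtain ⟨u, hu, hr⟩ := ih
    obtain ⟨e, he, hor⟩ := hst
    by_cases heA : e ∈ A
    · exact ⟨u, hu, hr.trans (Adj.reach ⟨e, heA, hor⟩)⟩
    · obtain ⟨w1, w2⟩ := hA e he heA
      rcases hor with ⟨_, h2⟩ | ⟨h2, _⟩
      · exact ⟨_, by rw [← h2]; exact w2, Reach.refl _ _⟩
      · exact ⟨_, by rw [← h2]; exact w1, Reach.refl _ _⟩

theorem mv_badV (hD : D.Ok) {q ρ : ℕ} (hq1 : 1 ≤ q)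
    (h : BadV D (q + ρ) F (F ∪ Sg D q)) : Crs D.t D.h q ρ ↑F := by
  obtain ⟨e, he, heF, x, v, y, hE, -, hx, hv, -, w, hw, hr⟩ := h
  have heS : e ∈ Sg D q := by
    rcases Finset.mem_union.1 he with h | h
    · exact absurd (Or.inl (by exact_mod_cast h)) heF
    · exact h
  have hSb : ∀ g ∈ Sg D q, inR (D.t - q) (D.t + q) (D.h - q) (D.h + q) (src g) ∧
      inR (D.t - q) (D.t + q) (D.h - q) (D.h + q) (tgt g) := by
    intro g hg
    obtain ⟨i, hi, rfl⟩ := mem_Sg.1 hg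
    rw [src_mk, tgt_true]
    unfold inR
    simp only
    omega
  have hvb : inR (D.t - q) (D.t + q) (D.h - q) (D.h + q) v := by
    rcases hE with ⟨-, h2⟩ | ⟨-, h2⟩
    · rw [h2]; exact (hSb e heS).2
    · rw [h2]; exact (hSb e heS).1
  obtain ⟨u, hu, hr'⟩ := last_box (A := (↑F : Set Edg))
    (P := inR (D.t - q) (D.t + q) (D.h - q) (D.h + q)) (by
      rintro g ⟨hg, hg1, -⟩ hgF
      rcases hg with hg | hg
      · rcases Finset.mem_union.1 (show g ∈ F ∪ Sg D q by exact_mod_cast hg) with h | h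
        · exact absurd (by exact_mod_cast h) hgF
        · exact hSb g h
      · exact absurd (wa_clu hD F (wir_wa hD hg).1) hg1) hvb hr
  refine ⟨u, w, hu, ?_, hr'⟩
  unfold inR at hvb
  unfold sd at hw
  push_cast at hw
  rcases le_max_iff.1 hw with h | h
  · rcases le_abs.1 h with h | h
    · left; omega
    · right; left; omega
  · rcases le_abs.1 h with h | h
    · right; right; left; omega
    · right; right; right; omega

theorem mv_badW {q ρ : ℕ} (hq1 : 1 ≤ q)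
    (h : BadW D (q + ρ) F (F ∪ Sg D q)) : DCrs D.t D.h q ρ (↑(D.edges \ F) : Set Edg) := by
  obtain ⟨e, he, heF, x, y, z, -, hE, hx, hy, hz, w, hw, hr⟩ := h
  have heS : e ∈ Sg D q := by
    rcases Finset.mem_union.1 he with h | h
    · exact absurd (Or.inl (by exact_mod_cast h)) heF
    · exact h
  have hzb : inR (D.t - q) (D.t + q) (D.h - q) (D.h + q) z := by
    obtain ⟨i, hi, rfl⟩ := mem_Sg.1 heS
    rw [dsrc_true, dtgt_mk] at hE
    rcases hE with ⟨-, h2⟩ | ⟨-, h2⟩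
    · rw [h2]; unfold inR; simp only; omega
    · rw [h2]; unfold inR; simp only; omega
  refine ⟨z, w, hzb, ?_, hr.mono ?_⟩
  · unfold inR at hzb
    unfold sd at hw
    push_cast at hw
    rcases le_max_iff.1 hw with h | h
    · rcases le_abs.1 h with h | h
      · left; omega
      · right; left; omega
    · rcases le_abs.1 h with h | h
      · right; right; left; omega
      · right; right; right; omega
  · rintro g ⟨h1, h2, -⟩
    have : g ∈ D.edges \ F := Finset.mem_sdiff.2 ⟨h1, fun h3 => h2 (Or.inl (by exact_mod_cast h3))⟩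
    exact_mod_cast this

/-- **Moving the first point.** -/
theorem stepM : ∃ C c : ℝ, 0 < C ∧ 0 < c ∧ ∀ (D : Dm) (q ρ : ℕ) (δ : ℝ), D.Ok → 1 ≤ q →
    q ≤ ρ → D.t + q ≤ D.r → 0 ≤ δ →
    PQ (1/2) D.edges (fun F => ¬ (cdist (crv D δ F) (crv (mvD D (D.t + q)) δ F) ≤
      δ * (10 * ρ + 11))) ≤ C * ((q:ℝ) / ρ) ^ c := by
  obtain ⟨C, c, hC, hc, harm⟩ := ex_arm2
  refine ⟨2 * C, c, by positivity, hc, ?_⟩
  intro D q ρ δ hD hq hqρ hqr hδ
  have ok := okq (q := 1/2) (by norm_num) (by norm_num)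
  obtain ⟨h1, h2⟩ := harm q ρ hq hqρ D.t D.h D.edges
  have key : PQ (1/2) D.edges (fun F => ¬ (cdist (crv D δ F) (crv (mvD D (D.t + q)) δ F) ≤
      δ * (10 * ρ + 11))) ≤ PQ (1/2) D.edges (fun F => Crs D.t D.h q ρ ↑F) +
      PQ (1/2) D.edges (fun F => DCrs D.t D.h q ρ (↑(D.edges \ F) : Set Edg)) := by
    unfold PQ
    refine (Pr_mono ok ?_).trans (Pr_or_le ok _ _ _)
    intro F hF hbad
    by_contra hcon
    push Not at hcon
    apply hbad
    have d1 := crv_matched hD (F := F) (G := F ∪ Sg D q) Finset.subset_union_left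
      (Finset.union_subset hF (Sg_sub hD hqr)) hδ (ρ := q + ρ) (by omega)
      (fun h => hcon.1 (mv_badV hD hq h)) (fun h => hcon.2 (mv_badW hq h))
    have d2 := mv_crv hD hF hqr hδ
    have d3 := H342L.cdist_triangle (crv D δ F) (crv D δ (F ∪ Sg D q))
      (crv (mvD D (D.t + q)) δ F)
    rw [H342L.cdist_comm (crv D δ (F ∪ Sg D q))] at d3
    push_cast at d1
    have hqρ' : (q:ℝ) ≤ ρ := by exact_mod_cast hqρ
    have : δ * (4 * ((q:ℝ) + ρ) + 9) + δ * (2 * q + 2) ≤ δ * (10 * ρ + 11) := by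
      rw [← mul_add]
      apply mul_le_mul_of_nonneg_left _ hδ
      linarith
    linarith
  linarith

end Pool.Agent.H950.EX
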