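import Pool.Agent.H950.EX.Chain

/-!
The exploration paths of two similar rectangles: the coupling.
-/

set_option autoImplicit false

namespace Pool.Agent.H950.EX

open H974 H12S H389NS H984N H984P H342P H443B Finset
open Pool.Agent.N116.EW
open H342L (cdist Curve)

variable {D D' : Dm} {F G F' : Finset Edg} {s : ℤ} {k : ℕ}

/-- Two rectangles with similar data. -/
structure Sim (k : ℕ) (D D' : Dm) : Prop where
  l : |D.l - D'.l| ≤ k
  r : |D.r - D'.r| ≤ k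
  h : |D.h - D'.h| ≤ k
  t : |D.t - D'.t| ≤ k

/-- The law in a smaller rectangle is the law of the restriction. -/
theorem PQ_restrict {S T : Finset Edg} (h : T ⊆ S) (A : Finset Edg → Prop) :
    PQ (1/2) S (fun F => A (F ∩ T)) = PQ (1/2) T A := by
  unfold PQ
  have h1 : Pr (fun _ => (1/2:ℝ)) S (fun F => A (F ∩ T)) =
      Pr (fun _ => (1/2:ℝ)) T (fun F => A (F ∩ T)) := by
    apply Pr_local h
    intro F _
    rw [Finset.inter_assoc, Finset.inter_self]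
  rw [h1]
  apply Pr_congr
  intro F hF
  rw [Finset.inter_eq_left.2 hF]

/-- **The coupling.** -/
theorem pair : ∃ (e : ℝ), 0 < e ∧ e ≤ 1 ∧ ∀ κ : ℝ, 0 < κ → κ ≤ 1 → ∃ C : ℝ, 0 < C ∧
    ∀ (D D' : Dm) (s : ℤ) (n k : ℕ) (δ : ℝ) (S : Finset Edg), 1 ≤ k → k ≤ n → Wide D s →
    Wide D' s → κ * n ≤ s → D.r - D.l ≤ n → D.h ≤ n → Sim k D D' → 0 ≤ δ →
    D.edges ⊆ S → D'.edges ⊆ S →
    PQ (1/2) S (fun F => ¬ (cdist (crv D δ (F ∩ D.edges)) (crv D' δ (F ∩ D'.edges)) ≤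
      C * (δ * n) * ((k:ℝ) / n) ^ e)) ≤ C * ((k:ℝ) / n) ^ e := by
  obtain ⟨e1, he1, he1', hN⟩ := nest
  obtain ⟨C2, e2, hC2, he2, he2', hM⟩ := move
  refine ⟨min e1 e2, lt_min he1 he2, (min_le_left _ _).trans he1', ?_⟩
  intro κ hκ hκ1
  obtain ⟨C1, hC1, hn⟩ := hN (κ / 3) (by positivity) (by linarith)
  refine ⟨6 * C1 + C2 + 1 / κ, by positivity, ?_⟩
  intro D D' s n k δ S hk hkn hW hW' hs hDn hDh hS hδ hDS hDS'
  have ok := okq (q := 1/2) (by norm_num) (by norm_num)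
  have hk0 : (0:ℝ) < k := by exact_mod_cast hk
  have hn0 : (0:ℝ) < n := by exact_mod_cast (by omega : 0 < n)
  have hkn' : (k:ℝ) / n ≤ 1 := by rw [div_le_one hn0]; exact_mod_cast hkn
  have hkn0 : 0 < (k:ℝ) / n := by positivity
  obtain ⟨x, hx⟩ : ∃ x : ℝ, x = ((k:ℝ) / n) ^ (min e1 e2) := ⟨_, rfl⟩
  have hx0 : 0 < x := by rw [hx]; positivity
  have hx1 : ((k:ℝ) / n) ^ e1 ≤ x := by rw [hx]; exact pow_exp hkn0 hkn' (min_le_left _ _)
  have hx2 : ((k:ℝ) / n) ^ e2 ≤ x := by rw [hx]; exact pow_exp hkn0 hkn' (min_le_right _ _)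
  have hx1' : ((k:ℝ) / ((3 * n : ℕ) : ℝ)) ^ e1 ≤ x := by
    refine le_trans (Real.rpow_le_rpow (by positivity) ?_ he1.le) hx1
    apply div_le_div_of_nonneg_left hk0.le hn0
    push_cast
    linarith
  rw [← hx]
  have hkx : (k:ℝ) / n ≤ x := by
    rw [hx]
    calc (k:ℝ) / n = ((k:ℝ) / n) ^ (1:ℝ) := (Real.rpow_one _).symm
      _ ≤ _ := pow_exp hkn0 hkn' ((min_le_left _ _).trans he1')
  by_cases hks : s < k
  · have h1 : κ * n ≤ k := by
      have : (s:ℝ) ≤ k := by exact_mod_cast hks.le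
      linarith
    have h2 : κ ≤ x := by
      refine le_trans ?_ hkx
      rw [le_div_iff₀ hn0]
      exact h1
    refine (Pr_le_one ok _ _).trans ?_
    have h3 : 1 ≤ 1 / κ * x := by
      rw [one_div, inv_mul_eq_div, le_div_iff₀ hκ, one_mul]
      exact h2
    have h4 : 0 ≤ (6 * C1 + C2) * x := by positivity
    linarith
  push Not at hks
  -- the rectangles
  obtain ⟨⟨hSl, hSl'⟩, ⟨hSr, hSr'⟩, ⟨hSh, hSh'⟩, ⟨hSt, hSt'⟩⟩ :=
    And.intro (abs_le.1 hS.l) (And.intro (abs_le.1 hS.r) (And.intro (abs_le.1 hS.h)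
      (abs_le.1 hS.t)))
  obtain ⟨g0, g1, g2, g3, g4, g5⟩ := hW
  obtain ⟨g0', g1', g2', g3', g4', g5'⟩ := hW'
  obtain ⟨U, hU⟩ : ∃ U : Dm, U = ⟨min D.l D'.l, max D.r D'.r, max D.h D'.h, D.t⟩ := ⟨_, rfl⟩
  obtain ⟨D2, hD2⟩ : ∃ D2 : Dm, D2 = ⟨D'.l, D'.r, D'.h, D.t⟩ := ⟨_, rfl⟩
  have hWU : Wide U s := by
    rw [hU]
    refine ⟨g0, ?_, ?_, ?_, ?_, ?_⟩ <;> simp only <;> omega
  have e2e : D2.edges = D'.edges := by rw [hD2]; rfl
  have hUD : ∃ kl kr kt : ℕ, kl ≤ k ∧ kr ≤ k ∧ kt ≤ k ∧ inn U kl kr kt = D := by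
    refine ⟨(D.l - min D.l D'.l).toNat, (max D.r D'.r - D.r).toNat,
      (max D.h D'.h - D.h).toNat, by omega, by omega, by omega, ?_⟩
    rw [hU]
    obtain ⟨l, r, h, t⟩ := D
    unfold inn
    simp only [Dm.mk.injEq]
    refine ⟨?_, ?_, ?_, trivial⟩ <;> omega
  have hUD' : ∃ kl kr kt : ℕ, kl ≤ k ∧ kr ≤ k ∧ kt ≤ k ∧ inn U kl kr kt = D2 := by
    refine ⟨(D'.l - min D.l D'.l).toNat, (max D.r D'.r - D'.r).toNat,
      (max D.h D'.h - D'.h).toNat, by omega, by omega, by omega, ?_⟩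
    rw [hU, hD2]
    unfold inn
    simp only [Dm.mk.injEq]
    refine ⟨?_, ?_, ?_, trivial⟩ <;> omega
  have hsU : κ / 3 * ((3 * n : ℕ) : ℝ) ≤ s := by
    push_cast
    linarith
  have hn3 : (k:ℤ) ≤ n := by exact_mod_cast hkn
  have hk3 : (1:ℤ) ≤ k := by exact_mod_cast hk
  have hUr : U.r - U.l ≤ ((3 * n : ℕ) : ℤ) := by
    rw [hU]
    push_cast
    show max D.r D'.r - min D.l D'.l ≤ 3 * (n:ℤ)
    omega
  have hUh : U.h + 1 ≤ ((3 * n : ℕ) : ℤ) := by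
    rw [hU]
    push_cast
    show max D.h D'.h + 1 ≤ 3 * (n:ℤ)
    omega
  have hnest : ∀ A : Dm, (∃ kl kr kt : ℕ, kl ≤ k ∧ kr ≤ k ∧ kt ≤ k ∧ inn U kl kr kt = A) →
      A.edges ⊆ U.edges ∧ PQ (1/2) U.edges (fun F => ¬ (cdist (crv A δ (F ∩ A.edges))
        (crv U δ F) ≤ 3 * C1 * (δ * n) * x)) ≤ C1 * x := by
    rintro A ⟨kl, kr, kt, h1, h2, h3, rfl⟩
    refine ⟨inn_sub, ?_⟩
    have h4 := hn U s (3 * n) k δ kl kr kt hk (by omega) h1 h2 h3 hWU hsU hUr hUh hδ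
    refine (Pr_mono ok ?_).trans (h4.trans (mul_le_mul_of_nonneg_left hx1' hC1.le))
    intro F _ hbad hcon
    apply hbad
    refine hcon.trans ?_
    calc C1 * (δ * ((3 * n : ℕ) : ℝ)) * ((k:ℝ) / ((3 * n : ℕ) : ℝ)) ^ e1 ≤
          C1 * (δ * ((3 * n : ℕ) : ℝ)) * x := mul_le_mul_of_nonneg_left hx1' (by positivity)
      _ = 3 * C1 * (δ * n) * x := by push_cast; ring
  obtain ⟨hDU, n1⟩ := hnest D hUD
  obtain ⟨hDU', n2⟩ := hnest D2 hUD'
  have hok2 : D2.Ok := by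
    rw [hD2]
    exact ⟨by simp only; omega, by simp only; omega, by simp only; omega, by simp only; omega,
      by simp only; omega⟩
  have hW'' : D'.Ok := ⟨by omega, by omega, by omega, by omega, by omega⟩
  have n3 : PQ (1/2) D'.edges (fun F => ¬ (cdist (crv D2 δ F) (crv D' δ F) ≤
      C2 * (δ * n) * x)) ≤ C2 * x := by
    have h4 := hM D2 D' n k δ hok2 hW'' hk hkn (by rw [hD2]) (by rw [hD2]) (by rw [hD2])
      (by rw [hD2]; exact abs_le.2 ⟨hSt, hSt'⟩) hδ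
    rw [e2e] at h4
    refine (Pr_mono ok ?_).trans (h4.trans (mul_le_mul_of_nonneg_left hx2 hC2.le))
    intro F _ hbad hcon
    apply hbad
    exact hcon.trans (mul_le_mul_of_nonneg_left hx2 (by positivity))
  rw [← PQ_restrict (S := U.edges) (by rw [← e2e]; exact hDU') (fun F =>
    ¬ (cdist (crv D2 δ F) (crv D' δ F) ≤ C2 * (δ * n) * x))] at n3
  -- the common ground set
  obtain ⟨T, hT⟩ : ∃ T, T = D.edges ∪ D'.edges := ⟨_, rfl⟩
  have hTD : ∀ F : Finset Edg, (F ∩ T) ∩ D.edges = F ∩ D.edges := by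
    intro F
    rw [hT, Finset.inter_assoc, Finset.inter_eq_right.2 Finset.subset_union_left]
  have hTD' : ∀ F : Finset Edg, (F ∩ T) ∩ D'.edges = F ∩ D'.edges := by
    intro F
    rw [hT, Finset.inter_assoc, Finset.inter_eq_right.2 Finset.subset_union_right]
  obtain ⟨A, hA⟩ : ∃ A : Finset Edg → Prop, A = fun F => ¬ (cdist (crv D δ (F ∩ D.edges))
    (crv D' δ (F ∩ D'.edges)) ≤ (6 * C1 + C2 + 1 / κ) * (δ * n) * x) := ⟨_, rfl⟩
  have hAT : ∀ F, A (F ∩ T) ↔ A F := by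
    intro F
    rw [hA]
    simp only
    rw [hTD, hTD']
  have hSU : PQ (1/2) S A = PQ (1/2) U.edges A := by
    have h5 : PQ (1/2) S (fun F => A (F ∩ T)) = PQ (1/2) T A :=
      PQ_restrict (by rw [hT]; exact Finset.union_subset hDS hDS') A
    have h6 : PQ (1/2) U.edges (fun F => A (F ∩ T)) = PQ (1/2) T A :=
      PQ_restrict (by rw [hT]; exact Finset.union_subset hDU (by rw [← e2e]; exact hDU')) A
    have h7 : (fun F => A (F ∩ T)) = A := by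
      funext F
      exact propext (hAT F)
    rw [h7] at h5 h6
    rw [h5, h6]
  rw [← hA, hSU]
  have key : PQ (1/2) U.edges A ≤ PQ (1/2) U.edges (fun F => ¬ (cdist (crv D δ (F ∩ D.edges))
      (crv U δ F) ≤ 3 * C1 * (δ * n) * x)) +
      (PQ (1/2) U.edges (fun F => ¬ (cdist (crv D2 δ (F ∩ D2.edges))
      (crv U δ F) ≤ 3 * C1 * (δ * n) * x)) +
      PQ (1/2) U.edges (fun F => ¬ (cdist (crv D2 δ (F ∩ D'.edges)) (crv D' δ (F ∩ D'.edges)) ≤
      C2 * (δ * n) * x))) := by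
    unfold PQ
    refine le_trans ?_ ((Pr_or_le ok _ _ _).trans (add_le_add le_rfl (Pr_or_le ok _ _ _)))
    apply Pr_mono ok
    intro F hF hbad
    by_contra hcon
    push Not at hcon
    obtain ⟨c1, c2, c3⟩ := hcon
    rw [hA] at hbad
    apply hbad
    rw [e2e] at c2
    have d1 := H342L.cdist_triangle (crv D δ (F ∩ D.edges)) (crv U δ F)
      (crv D' δ (F ∩ D'.edges))
    have d2 := H342L.cdist_triangle (crv U δ F) (crv D2 δ (F ∩ D'.edges))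
      (crv D' δ (F ∩ D'.edges))
    have d4 := H342L.cdist_comm (crv U δ F) (crv D2 δ (F ∩ D'.edges))
    have d3 : 0 ≤ 1 / κ * (δ * n) * x := by positivity
    linarith
  refine key.trans ?_
  have d3 : 0 ≤ 1 / κ * x := by positivity
  have d4 : 0 ≤ C1 * x := by positivity
  linarith

end Pool.Agent.H950.EX
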