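import Pool.Agent.H950.EX.Det

/-!
The probability of the bad events.
-/

set_option autoImplicit false

namespace Pool.Agent.H950.EX

open H974 H12S H389NS H984N H984P H342P H443B Finset
open H973S (rim Om Tg)
open Pool.Agent.H950.SV
open Pool.Agent.H950.NT (ex_arm)
open Pool.Agent.N717.EW (Pr_cond)

variable {D : Dm}

/-- Bad windows on a side are unlikely. -/
theorem side_pr : ∃ C c : ℝ, 0 < C ∧ 0 < c ∧ c ≤ 1 ∧ ∀ (S : Finset Edg) (κ m g R N : ℕ), 1 ≤ κ →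
    κ ≤ m → 1 ≤ g → 2 * g ≤ R →
    PQ (1/2) S (Side S κ m g R N) ≤
      (2 * N + 1) * (C * ((κ:ℝ) / m) ^ c + C * (((2 * g : ℕ) : ℝ) / R) ^ (1 + c)) := by
  classical
  obtain ⟨C2, c2, hC2, hc2, hwev⟩ := wev_pr
  obtain ⟨κ0, hκ0, hW⟩ := win_half
  obtain ⟨C3, c3, hC3, hc3, h3⟩ := H3_bound κ0 hκ0
  obtain ⟨c, hc⟩ : ∃ c, c = min c2 (min c3 1) := ⟨_, rfl⟩
  have hc0 : 0 < c := by rw [hc]; exact lt_min hc2 (lt_min hc3 one_pos)
  have hcc2 : c ≤ c2 := by rw [hc]; exact min_le_left _ _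
  have hcc3 : c ≤ c3 := by rw [hc]; exact (min_le_right _ _).trans (min_le_left _ _)
  have hcl : c ≤ 1 := by rw [hc]; exact (min_le_right _ _).trans (min_le_right _ _)
  refine ⟨2 * C2 + C3, c, by positivity, hc0, hcl, ?_⟩
  intro S κ m g R N hκ hκm hg hgR
  have ok := okq (q := 1/2) (by norm_num) (by norm_num)
  have hm0 : 0 < m := by omega
  have hκ' : (1:ℝ) ≤ κ := by exact_mod_cast hκ
  have hm' : (0:ℝ) < m := by exact_mod_cast hm0
  have hR' : (0:ℝ) < R := by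
    have : 0 < R := by omega
    exact_mod_cast this
  have hkm1 : (κ:ℝ) / m ≤ 1 := by
    rw [div_le_one hm']
    exact_mod_cast hκm
  have hgR1 : ((2 * g : ℕ) : ℝ) / R ≤ 1 := by
    rw [div_le_one hR']
    exact_mod_cast hgR
  have hg0 : (0:ℝ) < ((2 * g : ℕ) : ℝ) := by
    have : 0 < 2 * g := by omega
    exact_mod_cast this
  have pw : ∀ {x a b : ℝ}, 0 < x → x ≤ 1 → a ≤ b → x ^ b ≤ x ^ a := fun h0 h1 h2 =>
    Real.rpow_le_rpow_of_exponent_ge h0 h1 h2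
  have hwin : ∀ (s : ℤ) (j : ℤ), (s = 1 ∨ s = -1) → PQ (1/2) S (fun F =>
      Om (j * m) κ m ⊆ S ∧ ∃ b ∈ Finset.Icc (j * m - 3 * (m:ℤ)) (j * m + 3 * m),
        Wev s (j * m) κ m b (4 * m) F) ≤ C2 * ((κ:ℝ) / m) ^ c := by
    intro s j hs
    apply Pr_cond ok _ _ _ (by positivity)
    intro h1
    have k1 := hwev s (j * m) κ m (4 * m) S hs hκ (by omega) (by omega) h1
    refine k1.trans (mul_le_mul_of_nonneg_left ?_ hC2.le)
    have k2 : (κ:ℝ) / ((4 * m : ℕ) : ℝ) ≤ (κ:ℝ) / m := by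
      apply div_le_div_of_nonneg_left (by positivity) hm'
      push_cast
      linarith
    refine (Real.rpow_le_rpow (by positivity) k2 hc2.le).trans ?_
    exact pw (by positivity) hkm1 hcc2
  have hthr : ∀ j : ℤ, PQ (1/2) S (fun F =>
      hbU (j * g) κ R ⊆ S ∧ H3 (j * g) κ (2 * g) R (↑F : Set Edg)) ≤
      C3 * (((2 * g : ℕ) : ℝ) / R) ^ (1 + c) := by
    intro j
    apply Pr_cond ok _ _ _ (by positivity)
    intro h1
    have k1 := h3 (1/2) R (hW _) (2 * g) R (by omega) hgR le_rfl (j * g) κ S h1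
    refine k1.trans (mul_le_mul_of_nonneg_left ?_ hC3.le)
    exact pw (by positivity) hgR1 (by linarith)
  obtain ⟨X, hX⟩ : ∃ X : ℝ, X = C2 * ((κ:ℝ) / m) ^ c + (C2 * ((κ:ℝ) / m) ^ c +
    C3 * (((2 * g : ℕ) : ℝ) / R) ^ (1 + c)) := ⟨_, rfl⟩
  have hX0 : 0 ≤ X := by rw [hX]; positivity
  have hJ : PQ (1/2) S (Side S κ m g R N) ≤ (2 * N + 1) * X := by
    have k1 := Pr_exists_le ok S (Finset.Icc (-(N:ℤ)) N) (fun j F =>
      (Om (j * m) κ m ⊆ S ∧ ∃ b ∈ Finset.Icc (j * m - 3 * (m:ℤ)) (j * m + 3 * m),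
      Wev 1 (j * m) κ m b (4 * m) F) ∨
    (Om (j * m) κ m ⊆ S ∧ ∃ b ∈ Finset.Icc (j * m - 3 * (m:ℤ)) (j * m + 3 * m),
      Wev (-1) (j * m) κ m b (4 * m) F) ∨
    (hbU (j * g) κ R ⊆ S ∧ H3 (j * g) κ (2 * g) R (↑F : Set Edg)))
    refine k1.trans ?_
    have k2 : ∀ j ∈ Finset.Icc (-(N:ℤ)) N, Pr (fun _ : Edg => (1/2:ℝ)) S
      (fun F => (Om (j * m) κ m ⊆ S ∧ ∃ b ∈ Finset.Icc (j * m - 3 * (m:ℤ)) (j * m + 3 * m),
      Wev 1 (j * m) κ m b (4 * m) F) ∨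
    (Om (j * m) κ m ⊆ S ∧ ∃ b ∈ Finset.Icc (j * m - 3 * (m:ℤ)) (j * m + 3 * m),
      Wev (-1) (j * m) κ m b (4 * m) F) ∨
    (hbU (j * g) κ R ⊆ S ∧ H3 (j * g) κ (2 * g) R (↑F : Set Edg))) ≤ X := by
      intro j _
      rw [hX]
      refine (Pr_or_le ok _ _ _).trans (add_le_add (hwin 1 j (Or.inl rfl)) ?_)
      exact (Pr_or_le ok _ _ _).trans (add_le_add (hwin (-1) j (Or.inr rfl)) (hthr j))
    refine (Finset.sum_le_sum k2).trans ?_
    rw [Finset.sum_const, Int.card_Icc, nsmul_eq_mul]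
    apply mul_le_mul_of_nonneg_right _ hX0
    have : ((N:ℤ) + 1 - -(N:ℤ)).toNat = 2 * N + 1 := by omega
    rw [this]
    push_cast
    exact le_refl _
  refine hJ.trans (mul_le_mul_of_nonneg_left ?_ (by positivity))
  rw [hX]
  have p1 : 0 ≤ ((κ:ℝ) / m) ^ c := by positivity
  have p2 : 0 ≤ (((2 * g : ℕ) : ℝ) / R) ^ (1 + c) := by positivity
  have q1 := mul_nonneg hC3.le p1
  have q2 := mul_nonneg hC2.le p2
  nlinarith

/-- The same in a chart. -/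
theorem side_chart (g : LSym) (S : Finset Edg) (κ m gg R N : ℕ) :
    PQ (1/2) S (fun F => Side (g.mp S) κ m gg R N (g.mp F)) =
      PQ (1/2) (g.mp S) (Side (g.mp S) κ m gg R N) := by
  unfold PQ
  rw [g.pr]

/-- **The bad events are unlikely.** -/
theorem bad_pr : ∃ C c : ℝ, 0 < C ∧ 0 < c ∧ c ≤ 1 ∧ ∀ (D : Dm) (a b c' k m ρ R1 R2 r3 N : ℕ),
    a ≤ k → b ≤ k → c' ≤ k → 1 ≤ m → k ≤ m → 16 * m ≤ ρ → 2 * (ρ + 2) ≤ R1 →
    R1 + 6 * (ρ + 2) ≤ R2 → R1 + 6 * (ρ + 2) ≤ r3 →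
    PQ (1/2) D.edges (BadE D a b c' m ρ R1 R2 r3 N) ≤
      C * ((2 * N + 1) * (((k:ℝ) / m) ^ c + ((ρ:ℝ) / R1) ^ (1 + c)) + ((m:ℝ) / ρ) ^ c +
        ((R1:ℝ) / R2) ^ c + ((R1:ℝ) / r3) ^ c) := by
  classical
  obtain ⟨C1, c1, hC1, hc1, harm⟩ := ex_arm
  obtain ⟨C2, c2, hC2, hc2, hc21, hside⟩ := side_pr
  obtain ⟨c, hc⟩ : ∃ c, c = min c1 c2 := ⟨_, rfl⟩
  have hc0 : 0 < c := by rw [hc]; exact lt_min hc1 hc2
  have hcc1 : c ≤ c1 := by rw [hc]; exact min_le_left _ _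
  have hcc2 : c ≤ c2 := by rw [hc]; exact min_le_right _ _
  have hcl : c ≤ 1 := hcc2.trans hc21
  refine ⟨48 * C2 + 32 * C1, c, by positivity, hc0, hcl, ?_⟩
  intro D a b c' k m ρ R1 R2 r3 N hak hbk hck hm hkm hmρ hρR hR2 hr3
  have ok := okq (q := 1/2) (by norm_num) (by norm_num)
  have pw : ∀ {x a b : ℝ}, 0 < x → x ≤ 1 → a ≤ b → x ^ b ≤ x ^ a := fun h0 h1 h2 =>
    Real.rpow_le_rpow_of_exponent_ge h0 h1 h2
  have hm' : (0:ℝ) < m := by exact_mod_cast hm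
  have hρ' : (0:ℝ) < ρ := by
    have : 0 < ρ := by omega
    exact_mod_cast this
  have hR1' : (0:ℝ) < R1 := by
    have : 0 < R1 := by omega
    exact_mod_cast this
  have hR2' : (0:ℝ) < R2 := by
    have : 0 < R2 := by omega
    exact_mod_cast this
  have hr3' : (0:ℝ) < r3 := by
    have : 0 < r3 := by omega
    exact_mod_cast this
  -- sides
  have h16 : ∀ (q : ℝ), 1 ≤ q → q ^ c ≤ q := by
    intro q hq
    calc q ^ c ≤ q ^ (1:ℝ) := Real.rpow_le_rpow_of_exponent_le hq hcl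
      _ = q := Real.rpow_one _
  obtain ⟨A, hA⟩ : ∃ A : ℝ, A = ((k:ℝ) / m) ^ c + ((ρ:ℝ) / R1) ^ (1 + c) := ⟨_, rfl⟩
  have hA0 : 0 ≤ A := by rw [hA]; positivity
  have hsd : ∀ (g : LSym) (κ : ℕ), κ ≤ k → PQ (1/2) D.edges (fun F =>
      1 ≤ κ ∧ Side (g.mp D.edges) κ m (ρ + 2) R1 N (g.mp F)) ≤ 16 * C2 * ((2 * N + 1) * A) := by
    intro g κ hκ
    apply Pr_cond ok _ _ _ (by positivity)
    intro h1
    have e1 := side_chart g D.edges κ m (ρ + 2) R1 N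
    unfold PQ at e1
    rw [e1]
    have h2 := hside (g.mp D.edges) κ m (ρ + 2) R1 N h1 (by omega) (by omega) hρR
    unfold PQ at h2
    refine h2.trans ?_
    have h3 : ((κ:ℝ) / m) ^ c2 ≤ ((k:ℝ) / m) ^ c := by
      have h4 : (0:ℝ) < κ := by exact_mod_cast h1
      have h5 : (κ:ℝ) ≤ m := by exact_mod_cast (by omega : κ ≤ m)
      have h6 : (κ:ℝ) ≤ k := by exact_mod_cast hκ
      refine (pw (by positivity) (by rw [div_le_one hm']; exact h5) hcc2).trans ?_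
      exact Real.rpow_le_rpow (by positivity) (div_le_div_of_nonneg_right h6 hm'.le) hc0.le
    have h4 : (((2 * (ρ + 2) : ℕ) : ℝ) / R1) ^ (1 + c2) ≤ 16 * ((ρ:ℝ) / R1) ^ (1 + c) := by
      have k1 : ((2 * (ρ + 2) : ℕ) : ℝ) ≤ 4 * ρ := by
        have : 2 * (ρ + 2) ≤ 4 * ρ := by omega
        exact_mod_cast this
      have k2 : ((2 * (ρ + 2) : ℕ) : ℝ) ≤ R1 := by exact_mod_cast hρR
      have k3 : (0:ℝ) < ((2 * (ρ + 2) : ℕ) : ℝ) := by positivity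
      refine (pw (by positivity) (by rw [div_le_one hR1']; exact k2)
        (show 1 + c ≤ 1 + c2 by linarith)).trans ?_
      have k4 : ((2 * (ρ + 2) : ℕ) : ℝ) / R1 ≤ 4 * ((ρ:ℝ) / R1) := by
        rw [← mul_div_assoc]
        exact div_le_div_of_nonneg_right k1 hR1'.le
      refine (Real.rpow_le_rpow (by positivity) k4 (by linarith)).trans ?_
      rw [Real.mul_rpow (by norm_num) (by positivity)]
      apply mul_le_mul_of_nonneg_right _ (by positivity)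
      calc (4:ℝ) ^ (1 + c) ≤ 4 ^ (2:ℝ) :=
            Real.rpow_le_rpow_of_exponent_le (by norm_num) (by linarith)
        _ = 16 := by norm_num
    have h5 : C2 * ((κ:ℝ) / m) ^ c2 + C2 * (((2 * (ρ + 2) : ℕ) : ℝ) / R1) ^ (1 + c2) ≤
        16 * C2 * A := by
      rw [hA]
      have p1 : 0 ≤ ((k:ℝ) / m) ^ c := by positivity
      have q1 := mul_le_mul_of_nonneg_left h3 hC2.le
      have q2 := mul_le_mul_of_nonneg_left h4 hC2.le
      have q3 := mul_nonneg hC2.le p1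
      nlinarith
    refine (mul_le_mul_of_nonneg_left h5 (by positivity)).trans (le_of_eq ?_)
    ring
  -- arms
  have harm' : ∀ (p q : ℤ) (r R : ℕ) (T : ℝ), 1 ≤ r → r ≤ R → (r:ℝ) / R ≤ 16 * T → 0 < T →
      PQ (1/2) D.edges (fun F => Crs p q r R ↑F) ≤ 16 * C1 * T ^ c := by
    intro p q r R T hr hrR h1 hT
    have hr' : (0:ℝ) < r := by exact_mod_cast hr
    have hR' : (0:ℝ) < R := by exact_mod_cast (by omega : 0 < R)
    have h2 : (r:ℝ) / R ≤ 1 := by rw [div_le_one hR']; exact_mod_cast hrR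
    have k1 := harm r R hr hrR p q D.edges
    refine k1.trans ?_
    have k2 : ((r:ℝ) / R) ^ c1 ≤ 16 * T ^ c := by
      refine (pw (by positivity) h2 hcc1).trans ?_
      refine (Real.rpow_le_rpow (by positivity) h1 hc0.le).trans ?_
      rw [Real.mul_rpow (by norm_num) hT.le]
      exact mul_le_mul_of_nonneg_right (h16 16 (by norm_num)) (by positivity)
    calc C1 * ((r:ℝ) / R) ^ c1 ≤ C1 * (16 * T ^ c) := mul_le_mul_of_nonneg_left k2 hC1.le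
      _ = 16 * C1 * T ^ c := by ring
  obtain ⟨T1, hT1⟩ : ∃ T1 : ℝ, T1 = ((m:ℝ) / ρ) ^ c := ⟨_, rfl⟩
  obtain ⟨T2, hT2⟩ : ∃ T2 : ℝ, T2 = ((R1:ℝ) / R2) ^ c := ⟨_, rfl⟩
  obtain ⟨T3, hT3⟩ : ∃ T3 : ℝ, T3 = ((R1:ℝ) / r3) ^ c := ⟨_, rfl⟩
  have p1 : 0 ≤ T1 := by rw [hT1]; positivity
  have p2 : 0 ≤ T2 := by rw [hT2]; positivity
  have p3 : 0 ≤ T3 := by rw [hT3]; positivity
  have a1 : ∀ p q : ℤ, PQ (1/2) D.edges (fun F => Crs p q (8 * m) (ρ - 8 * m) ↑F) ≤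
      16 * C1 * T1 := by
    intro p q
    rw [hT1]
    refine harm' p q _ _ _ (by omega) (by omega) ?_ (by positivity)
    have h1 : (ρ:ℝ) ≤ 2 * ((ρ - 8 * m : ℕ) : ℝ) := by
      exact_mod_cast (by omega : ρ ≤ 2 * (ρ - 8 * m))
    have h2 : (0:ℝ) < ((ρ - 8 * m : ℕ) : ℝ) := by linarith
    rw [← mul_div_assoc, div_le_div_iff₀ h2 hρ']
    push_cast
    nlinarith
  have a2 : ∀ (p q : ℤ) (R : ℕ), R1 + 6 * (ρ + 2) ≤ R →
      PQ (1/2) D.edges (fun F => Crs p q (R1 + 6 * (ρ + 2)) R ↑F) ≤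
      16 * C1 * ((R1:ℝ) / R) ^ c := by
    intro p q R hR
    have hR' : (0:ℝ) < R := by exact_mod_cast (by omega : 0 < R)
    refine harm' p q _ _ _ (by omega) hR ?_ (by positivity)
    rw [← mul_div_assoc]
    apply div_le_div_of_nonneg_right _ hR'.le
    exact_mod_cast (by omega : R1 + 6 * (ρ + 2) ≤ 16 * R1)
  have hall : PQ (1/2) D.edges (BadE D a b c' m ρ R1 R2 r3 N) ≤
      16 * C2 * ((2 * N + 1) * A) + (16 * C2 * ((2 * N + 1) * A) + (16 * C2 * ((2 * N + 1) * A) +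
      (16 * C1 * T1 + (16 * C1 * T1 + (16 * C1 * T2 + (16 * C1 * T2 + (16 * C1 * T3 +
      16 * C1 * T3))))))) := by
    unfold BadE
    refine (Pr_or_le ok _ _ _).trans (add_le_add (hsd idn c' hck) ?_)
    refine (Pr_or_le ok _ _ _).trans (add_le_add (hsd (rfy D.h) b hbk) ?_)
    refine (Pr_or_le ok _ _ _).trans (add_le_add (hsd (rgt D.r) a hak) ?_)
    refine (Pr_or_le ok _ _ _).trans (add_le_add (a1 _ _) ?_)
    refine (Pr_or_le ok _ _ _).trans (add_le_add (a1 _ _) ?_)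
    rw [hT2, hT3]
    refine (Pr_or_le ok _ _ _).trans (add_le_add (a2 _ _ _ hR2) ?_)
    refine (Pr_or_le ok _ _ _).trans (add_le_add (a2 _ _ _ hR2) ?_)
    exact (Pr_or_le ok _ _ _).trans (add_le_add (a2 _ _ _ hr3) (a2 _ _ _ hr3))
  refine hall.trans ?_
  rw [← hT1, ← hT2, ← hT3, ← hA]
  obtain ⟨B, hB⟩ : ∃ B : ℝ, B = (2 * N + 1) * A := ⟨_, rfl⟩
  have hB0 : 0 ≤ B := by rw [hB]; positivity
  rw [← hB]
  have r1 := mul_nonneg hC2.le p1
  have r2 := mul_nonneg hC2.le p2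
  have r3' := mul_nonneg hC2.le p3
  have r4 := mul_nonneg hC1.le hB0
  nlinarith

end Pool.Agent.H950.EX
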