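import Pool.Agent.H950.EX.Law
import Pool.Agent.H950.EX.Abs

/-!
The exploration paths in rectangles.
-/

set_option autoImplicit false

namespace Pool.Agent.H950.EX

open H974 H12S H984N H984P MeasureTheory Filter Topology Finset
open H342L (cdist Curve)

/-- Distance of two rectangles. -/
noncomputable def gap (R R' : Rect) : ℝ :=
  max (max |R.A - R'.A| |R.B - R'.B|) (max |R.H - R'.H| |R.t - R'.t|)

theorem gap_nonneg (R R' : Rect) : 0 ≤ gap R R' :=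
  (abs_nonneg _).trans ((le_max_left _ _).trans (le_max_left _ _))

/-- The rectangle is not degenerate. -/
structure Good (κ : ℝ) (R : Rect) : Prop where
  A : κ ≤ R.A
  B : κ ≤ R.B
  H : κ ≤ R.H
  tl : κ ≤ R.t + R.A
  tr : κ ≤ R.B - R.t
  A' : R.A ≤ 1 / κ
  B' : R.B ≤ 1 / κ
  H' : R.H ≤ 1 / κ

theorem dm_l (R : Rect) {δ : ℝ} (hδ : 0 < δ) :
    -R.A ≤ δ * (R.dm δ).l ∧ δ * (R.dm δ).l ≤ -R.A + δ := by
  have e : ((R.dm δ).l : ℝ) = (⌊-(R.A / δ)⌋ : ℝ) + 1 := by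
    unfold Rect.dm
    push_cast
    rfl
  have h1 := Int.floor_le (-(R.A / δ))
  have h2 := Int.lt_floor_add_one (-(R.A / δ))
  have h3 : δ * (R.A / δ) = R.A := by field_simp
  rw [e]
  constructor
  · nlinarith
  · nlinarith

theorem dm_r (R : Rect) {δ : ℝ} (hδ : 0 < δ) :
    R.B - δ ≤ δ * (R.dm δ).r ∧ δ * (R.dm δ).r ≤ R.B := by
  have e : ((R.dm δ).r : ℝ) = (⌈R.B / δ⌉ : ℝ) - 1 := by
    unfold Rect.dm
    push_cast
    rfl
  have h1 := Int.le_ceil (R.B / δ)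
  have h2 := Int.ceil_lt_add_one (R.B / δ)
  have h3 : δ * (R.B / δ) = R.B := by field_simp
  rw [e]
  constructor
  · nlinarith
  · nlinarith

theorem dm_h (R : Rect) {δ : ℝ} (hδ : 0 < δ) :
    R.H - 2 * δ ≤ δ * (R.dm δ).h ∧ δ * (R.dm δ).h ≤ R.H := by
  have e : ((R.dm δ).h : ℝ) = (⌈R.H / δ⌉ : ℝ) - 2 := by
    unfold Rect.dm
    push_cast
    rfl
  have h1 := Int.le_ceil (R.H / δ)
  have h2 := Int.ceil_lt_add_one (R.H / δ)
  have h3 : δ * (R.H / δ) = R.H := by field_simp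
  rw [e]
  constructor
  · nlinarith
  · nlinarith

theorem dm_t (R : Rect) {δ : ℝ} (hδ : 0 < δ) :
    R.t - δ ≤ δ * (R.dm δ).t ∧ δ * (R.dm δ).t ≤ R.t := by
  have e : ((R.dm δ).t : ℝ) = (⌊R.t / δ⌋ : ℝ) := rfl
  have h1 := Int.floor_le (R.t / δ)
  have h2 := Int.lt_floor_add_one (R.t / δ)
  have h3 : δ * (R.t / δ) = R.t := by field_simp
  rw [e]
  constructor
  · nlinarith
  · nlinarith

theorem good_fat {κ : ℝ} (hκ : 0 < κ) {R : Rect} (hR : Good κ R) {δ : ℝ} (hδ : 0 < δ)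
    (hδκ : δ ≤ κ / 16) : Fat (κ / 2) (R.dm δ) δ := by
  obtain ⟨l1, l2⟩ := dm_l R hδ
  obtain ⟨r1, r2⟩ := dm_r R hδ
  obtain ⟨h1, h2⟩ := dm_h R hδ
  obtain ⟨t1, t2⟩ := dm_t R hδ
  have e : 1 / (κ / 2) = 2 * (1 / κ) := by field_simp
  have e0 : 0 < 1 / κ := by positivity
  obtain ⟨g1, g2, g3, g4, g5, g6, g7, g8⟩ := hR
  refine ⟨?_, ?_, ?_, ?_, ?_, ?_, ?_, ?_⟩
  · linarith
  · linarith
  · linarith
  · linarith
  · linarith
  · rw [e]; linarith
  · rw [e]; linarith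
  · rw [e]; linarith

/-- The size of the error. -/
noncomputable def dev (R : Rect) (δ : ℝ) (R' : Rect) (δ' : ℝ) : ℝ :=
  gap R R' + |δ - δ'| / δ' + δ'

theorem dev_pos (R : Rect) (δ : ℝ) (R' : Rect) {δ' : ℝ} (h : 0 < δ') : 0 < dev R δ R' δ' := by
  unfold dev
  have := gap_nonneg R R'
  positivity

theorem rect_near {R R' : Rect} {δ δ' : ℝ} (hδ : 0 < δ) (hδ' : 0 < δ') (h : δ ≤ 2 * δ') :
    Near (4 * dev R δ R' δ') (R.dm δ) δ (R'.dm δ') δ' := by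
  obtain ⟨l1, l2⟩ := dm_l R hδ
  obtain ⟨r1, r2⟩ := dm_r R hδ
  obtain ⟨h1, h2⟩ := dm_h R hδ
  obtain ⟨t1, t2⟩ := dm_t R hδ
  obtain ⟨l1', l2'⟩ := dm_l R' hδ'
  obtain ⟨r1', r2'⟩ := dm_r R' hδ'
  obtain ⟨h1', h2'⟩ := dm_h R' hδ'
  obtain ⟨t1', t2'⟩ := dm_t R' hδ'
  have gA : |R.A - R'.A| ≤ gap R R' := (le_max_left _ _).trans (le_max_left _ _)
  have gB : |R.B - R'.B| ≤ gap R R' := (le_max_right _ _).trans (le_max_left _ _)
  have gH : |R.H - R'.H| ≤ gap R R' := (le_max_left _ _).trans (le_max_right _ _)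
  have gt : |R.t - R'.t| ≤ gap R R' := (le_max_right _ _).trans (le_max_right _ _)
  have hm : 0 ≤ |δ - δ'| / δ' := by positivity
  have hg := gap_nonneg R R'
  rw [abs_le] at gA gB gH gt
  unfold dev
  refine ⟨?_, ?_, ?_, ?_, ?_, ?_⟩
  · rw [abs_le]; constructor <;> linarith [gA.1, gA.2]
  · rw [abs_le]; constructor <;> linarith [gB.1, gB.2]
  · rw [abs_le]; constructor <;> linarith [gH.1, gH.2]
  · rw [abs_le]; constructor <;> linarith [gt.1, gt.2]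
  · have e : |δ - δ'| = |δ - δ'| / δ' * δ' := by field_simp
    calc |δ - δ'| = |δ - δ'| / δ' * δ' := e
      _ ≤ 4 * (gap R R' + |δ - δ'| / δ' + δ') * δ' := by
        apply mul_le_mul_of_nonneg_right _ hδ'.le
        linarith
  · linarith

/-- **The coupling for rectangles.** -/
theorem rect_cont : ∃ (e : ℝ), 0 < e ∧ e ≤ 1 ∧ ∀ κ : ℝ, 0 < κ → κ ≤ 1 → ∃ C : ℝ, 0 < C ∧
    ∀ (R R' : Rect) (δ δ' : ℝ) (S : Finset Edg), Good κ R → Good κ R' → 0 < δ → 0 < δ' →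
    (R.dm δ).edges ⊆ S → (R'.dm δ').edges ⊆ S →
    PQ (1/2) S (fun F => ¬ (cdist (crv (R.dm δ) δ (F ∩ (R.dm δ).edges))
      (crv (R'.dm δ') δ' (F ∩ (R'.dm δ').edges)) ≤
      C * dev R δ R' δ' ^ e)) ≤ C * dev R δ R' δ' ^ e := by
  obtain ⟨e, he, he1, hc⟩ := cont
  refine ⟨e, he, he1, ?_⟩
  intro κ hκ hκ1
  obtain ⟨C, hC, h⟩ := hc (κ / 2) (by positivity) (by linarith)
  refine ⟨32 / κ + 4 * C, by positivity, ?_⟩
  intro R R' δ δ' S hR hR' hδ hδ' hS hS'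
  have ok := okq (q := 1/2) (by norm_num) (by norm_num)
  obtain ⟨u, hu⟩ : ∃ u, u = dev R δ R' δ' := ⟨_, rfl⟩
  have hu0 : 0 < u := by rw [hu]; exact dev_pos R δ R' hδ'
  have hue : 0 < u ^ e := by positivity
  rw [← hu]
  by_cases hus : κ / 32 ≤ u
  · refine (Pr_le_one ok _ _).trans ?_
    have h1 : κ / 32 ≤ u ^ e := by
      calc κ / 32 = (κ / 32) ^ (1:ℝ) := (Real.rpow_one _).symm
        _ ≤ (κ / 32) ^ e := pow_exp (by positivity) (by linarith) he1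
        _ ≤ u ^ e := Real.rpow_le_rpow (by positivity) hus he.le
    have h2 : 1 ≤ 32 / κ * u ^ e := by
      have h3 : 32 / κ * (κ / 32) = 1 := by field_simp
      calc (1:ℝ) = 32 / κ * (κ / 32) := h3.symm
        _ ≤ 32 / κ * u ^ e := mul_le_mul_of_nonneg_left h1 (by positivity)
    have h4 : 0 ≤ 4 * C * u ^ e := by positivity
    linarith
  push Not at hus
  have hg := gap_nonneg R R'
  have hm : 0 ≤ |δ - δ'| / δ' := by positivity
  have hd' : δ' ≤ κ / 32 := by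
    have : u = gap R R' + |δ - δ'| / δ' + δ' := hu
    linarith
  have hm' : |δ - δ'| / δ' ≤ 1 := by
    have : u = gap R R' + |δ - δ'| / δ' + δ' := hu
    linarith
  have hδ2 : δ ≤ 2 * δ' := by
    rw [div_le_one hδ'] at hm'
    have := (abs_le.1 hm').2
    linarith
  have hN := rect_near (R := R) (R' := R') hδ hδ' hδ2
  rw [← hu] at hN
  have hmain := h (R.dm δ) (R'.dm δ') δ δ' (4 * u) S hδ hδ' (by positivity)
    (good_fat hκ hR hδ (by linarith)) (good_fat hκ hR' hδ' (by linarith)) hN hS hS'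
  have h4 : C * (4 * u) ^ e ≤ (32 / κ + 4 * C) * u ^ e := by
    rw [Real.mul_rpow (by norm_num) hu0.le]
    have h5 : (4:ℝ) ^ e ≤ 4 := by
      calc (4:ℝ) ^ e ≤ 4 ^ (1:ℝ) := Real.rpow_le_rpow_of_exponent_le (by norm_num) he1
        _ = 4 := Real.rpow_one _
    have h6 : C * (4 ^ e * u ^ e) ≤ C * (4 * u ^ e) :=
      mul_le_mul_of_nonneg_left (mul_le_mul_of_nonneg_right h5 hue.le) hC.le
    have h7 : 0 ≤ 32 / κ * u ^ e := by positivity
    linarith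
  refine (Pr_mono ok ?_).trans (hmain.trans h4)
  intro F _ hbad hcon
  exact hbad (hcon.trans h4)

end Pool.Agent.H950.EX
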