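import Pool.Agent.H950.EX.Fam

/-!
Scaling of rectangles, and the dichotomy for the limit points.
-/

set_option autoImplicit false

namespace Pool.Agent.H950.EX

open H974 H12S H984N H984P MeasureTheory Filter Topology Finset
open H342L (cdist Curve)

/-- The scaled rectangle. -/
noncomputable def scale (c : ℝ) (hc : 0 < c) (R : Rect) : Rect where
  A := c * R.A
  B := c * R.B
  H := c * R.H
  t := c * R.t
  hA := mul_pos hc R.hA
  hB := mul_pos hc R.hB
  hH := mul_pos hc R.hH
  ht1 := by nlinarith [R.ht1]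
  ht2 := by nlinarith [R.ht2]

theorem scale_dm {c : ℝ} (hc : 0 < c) (R : Rect) (δ : ℝ) :
    (scale c hc R).dm (c * δ) = R.dm δ := by
  unfold Rect.dm scale
  simp only
  rw [mul_div_mul_left _ _ hc.ne', mul_div_mul_left _ _ hc.ne', mul_div_mul_left _ _ hc.ne',
    mul_div_mul_left _ _ hc.ne']

/-- The scaled curve. -/
noncomputable def dil (c : ℝ) (γ : Curve) : Curve := ⟨⟨fun t => (c : ℂ) * γ.path t, by fun_prop⟩⟩

theorem pos_scale (c δ : ℝ) (σ : St) : pos (c * δ) σ = (c : ℂ) * pos δ σ := by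
  obtain ⟨⟨x, y⟩, q⟩ := σ
  cases q <;> unfold pos <;> apply Complex.ext <;> simp <;> ring

theorem crv_scale (D : Dm) (c δ : ℝ) (F : Finset Edg) :
    (⟨crv D (c * δ) F⟩ : Curve) = dil c ⟨crv D δ F⟩ := by
  unfold dil
  congr 1
  ext t
  show pos (c * δ) (D.walk F 0) + ∑ k ∈ Finset.range (D.len F),
    ((clamp (t * D.len F - k) : ℝ) : ℂ) * (pos (c * δ) (D.walk F (k + 1)) -
    pos (c * δ) (D.walk F k)) = (c : ℂ) * (pos δ (D.walk F 0) +
    ∑ k ∈ Finset.range (D.len F), ((clamp (t * D.len F - k) : ℝ) : ℂ) *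
    (pos δ (D.walk F (k + 1)) - pos δ (D.walk F k)))
  rw [mul_add, Finset.mul_sum, pos_scale]
  congr 1
  apply Finset.sum_congr rfl
  intro k _
  rw [pos_scale, pos_scale]
  ring

theorem dil_lip (c : ℝ) : LipschitzWith |c|.toNNReal (dil c) := by
  apply LipschitzWith.of_dist_le_mul
  intro γ γ'
  rw [Real.coe_toNNReal _ (abs_nonneg c), H342L.Curve.dist_def, H342L.Curve.dist_def,
    H342L.cdist_eq γ.path γ'.path, Real.mul_iInf_of_nonneg (abs_nonneg c)]
  apply le_ciInf
  intro φ
  refine (H342L.cdist_le _ _ φ).trans ?_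
  rw [ContinuousMap.dist_le (by positivity)]
  intro t
  show dist ((c : ℂ) * γ.path t) ((c : ℂ) * γ'.path (φ t)) ≤ _
  rw [Complex.dist_eq, ← mul_sub, norm_mul, Complex.norm_real, Real.norm_eq_abs,
    ← Complex.dist_eq]
  apply mul_le_mul_of_nonneg_left _ (abs_nonneg c)
  exact ContinuousMap.dist_apply_le_dist (f := γ.path) (g := H342L.rep γ'.path φ) t

theorem dil_cont (c : ℝ) : Continuous (dil c) := (dil_lip c).continuous

theorem law_scale (D : Dm) (c δ : ℝ) :
    law D (c * δ) = (law D δ).map (dil_cont c).measurable.aemeasurable := by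
  apply ProbabilityMeasure.toMeasure_injective
  rw [ProbabilityMeasure.toMeasure_map]
  ext G hG
  rw [Measure.map_apply (dil_cont c).measurable hG, law_apply D _ hG,
    law_apply D _ ((dil_cont c).measurable hG)]
  simp only [crv_scale, Set.mem_preimage]

/-- **Scaling.** -/
theorem lim_scale {c : ℝ} (hc : 0 < c) {R : Rect} {μ : ProbabilityMeasure Curve}
    (h : Tendsto (fun δ => law (R.dm δ) δ) (𝓝[>] 0) (𝓝 μ)) :
    Tendsto (fun δ => law ((scale c hc R).dm δ) δ) (𝓝[>] 0)
      (𝓝 (μ.map (dil_cont c).measurable.aemeasurable)) := by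
  have h1 : Tendsto (fun δ : ℝ => δ / c) (𝓝[>] 0) (𝓝[>] 0) := by
    rw [tendsto_nhdsWithin_iff]
    constructor
    · have : Tendsto (fun δ : ℝ => δ / c) (𝓝[>] 0) (𝓝 (0 / c)) :=
        (tendsto_id.div_const c).mono_left nhdsWithin_le_nhds
      rwa [zero_div] at this
    · filter_upwards [self_mem_nhdsWithin] with x hx
      exact div_pos hx hc
  have h2 := ProbabilityMeasure.tendsto_map_of_tendsto_of_continuous _ μ (h.comp h1) (dil_cont c)
  refine h2.congr ?_
  intro δ
  simp only [Function.comp_apply]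
  rw [← law_scale, ← scale_dm hc R (δ / c), mul_div_cancel₀ δ hc.ne']

/-- Connected sets with two points are uncountable. -/
theorem uncount {Y : Type*} [MetricSpace Y] {L : Set Y} (hL : IsConnected L) (hc : L.Countable) :
    L.Subsingleton := by
  intro a ha b hb
  by_contra hab
  have hd : 0 < dist b a := dist_pos.2 (fun h => hab h.symm)
  have h1 : ((fun z => dist z a) '' L).Countable := hc.image _
  have h2 : IsPreconnected ((fun z => dist z a) '' L) :=
    hL.isPreconnected.image _ (by fun_prop)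
  have h3 : Set.Icc 0 (dist b a) ⊆ (fun z => dist z a) '' L :=
    h2.Icc_subset ⟨a, ha, dist_self a⟩ ⟨b, hb, rfl⟩
  have h4 : (Set.Icc 0 (dist b a)).Countable := h1.mono h3
  rw [← Cardinal.le_aleph0_iff_set_countable, Cardinal.mk_Icc_real hd] at h4
  exact absurd h4 (not_le.2 Cardinal.aleph0_lt_continuum)

/-- **Convergence or uncountably many limit points.** -/
theorem dich {Y : Type*} [MetricSpace Y] {f : ℝ → Y} (hC : Cpt f) (hS : Slow f)
    (hc : {y | MapClusterPt y (𝓝[>] (0:ℝ)) f}.Countable) : ∃ y, Tendsto f (𝓝[>] 0) (𝓝 y) := by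
  have h1 := uncount (clu_conn hC hS) hc
  obtain ⟨y, hy⟩ := clu_nonempty hC
  refine ⟨y, ?_⟩
  rw [tendsto_nhds]
  intro s hs hys
  obtain ⟨η, hη, h2⟩ := clu_near hC hs (fun z hz => by rw [h1 hz hy]; exact hys)
  have h3 : ∀ᶠ x : ℝ in 𝓝[>] 0, 0 < x ∧ x < η := Ioo_mem_nhdsGT hη
  filter_upwards [h3] with x hx
  exact h2 x hx.1 hx.2

/-- Limit points of the laws. -/
def LimPts (R : Rect) : Set (ProbabilityMeasure Curve) :=
  {μ | MapClusterPt μ (𝓝[>] (0:ℝ)) (fun δ => law (R.dm δ) δ)}

theorem limPts_eq (R : Rect) : LimPts R = LevyProkhorov.toMeasure ''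
    {y : Yc | MapClusterPt y (𝓝[>] (0:ℝ)) (fR R)} := by
  ext μ
  constructor
  · intro h
    refine ⟨LevyProkhorov.ofMeasure μ, ?_, rfl⟩
    exact MapClusterPt.continuousAt_comp
      LevyProkhorov.continuous_ofMeasure_probabilityMeasure.continuousAt h
  · rintro ⟨y, hy, rfl⟩
    exact MapClusterPt.continuousAt_comp
      LevyProkhorov.continuous_toMeasure_probabilityMeasure.continuousAt hy

theorem limPts_compact (R : Rect) : IsCompact (LimPts R) := by
  rw [limPts_eq]
  exact (clu_compact (fR_cpt R)).image LevyProkhorov.continuous_toMeasure_probabilityMeasure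

theorem limPts_conn (R : Rect) : IsConnected (LimPts R) := by
  rw [limPts_eq]
  exact (clu_conn (fR_cpt R) (fR_slow R)).image _
    LevyProkhorov.continuous_toMeasure_probabilityMeasure.continuousOn

theorem limPts_dich (R : Rect) (h : (LimPts R).Countable) :
    ∃ μ, Tendsto (fun δ => law (R.dm δ) δ) (𝓝[>] 0) (𝓝 μ) := by
  have h1 : {y : Yc | MapClusterPt y (𝓝[>] (0:ℝ)) (fR R)}.Countable := by
    rw [limPts_eq] at h
    exact Set.countable_of_injective_of_countable_image
      (LevyProkhorov.toMeasure_injective.injOn) h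
  obtain ⟨y, hy⟩ := dich (fR_cpt R) (fR_slow R) h1
  exact ⟨y.toMeasure, (LevyProkhorov.continuous_toMeasure_probabilityMeasure.tendsto _).comp hy⟩

end Pool.Agent.H950.EX
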