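import Pool.Agent.H950.EX.Prb
import Pool.Agent.H950.SV.Main

/-!
Free strips change the exploration path little, with high probability.
-/

set_option autoImplicit false

namespace Pool.Agent.H950.EX

open H974 H12S H389NS H984N H984P H342P H443B Finset
open Pool.Agent.H950.SV (pow_bd floor_half)
open H342L (cdist Curve)

variable {D : Dm}

theorem stepA : ∃ (p : ℕ), 1 ≤ p ∧ ∀ κ : ℝ, 0 < κ → κ ≤ 1 → ∃ C : ℝ, 0 < C ∧
    ∀ (D : Dm) (s : ℤ) (n k : ℕ) (L δ : ℝ) (a b c a' b' c' : ℕ), 1 ≤ k → Wd k a b c a' b' c' →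
    Wide D s → κ * n ≤ s → D.r - D.l ≤ n → D.h ≤ n → 200 / κ ≤ L → 0 ≤ δ →
    L ^ ((p * (p + 1) + p) * (1 + p)) = (n:ℝ) / k →
    PQ (1/2) D.edges (fun F => ¬ (cdist (crv D δ (Loc D a b c a' b' c' F))
      (crv D δ (Upc D a' b' c' F)) ≤ δ * (8 * (n / L) + 13))) ≤ C / L := by
  obtain ⟨C1, c, hC1, hc0, hcl, hbad⟩ := bad_pr
  obtain ⟨p, hp⟩ : ∃ p : ℕ, p = ⌈4 / c⌉₊ := ⟨_, rfl⟩
  have hpc : 4 ≤ p * c := by
    have h1 : 4 / c ≤ p := by rw [hp]; exact Nat.le_ceil _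
    rwa [div_le_iff₀ hc0] at h1
  have hp1 : 1 ≤ p := by
    by_contra h
    have : p = 0 := by omega
    rw [this] at hpc
    norm_num at hpc
  refine ⟨p, hp1, ?_⟩
  intro κ hκ hκ1
  refine ⟨C1 * (100 + 8 / κ), by positivity, ?_⟩
  intro D s n k L δ a b c0 a' b' c' hk hw hW hs hDn hDh hL hδ hLe
  have ok := okq (q := 1/2) (by norm_num) (by norm_num)
  have hκL : 200 / κ ≤ L := hL
  have hL200 : 200 ≤ L := by
    have : 200 ≤ 200 / κ := by
      rw [le_div_iff₀ hκ]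
      linarith
    linarith
  have hκL' : 200 ≤ κ * L := by
    rw [div_le_iff₀ hκ] at hκL
    linarith
  have hL0 : 0 < L := by linarith
  have hL1 : 1 ≤ L := by linarith
  have hk0 : (0:ℝ) < k := by exact_mod_cast hk
  have hk1 : (1:ℝ) ≤ k := by exact_mod_cast hk
  obtain ⟨e1, he1⟩ : ∃ e1 : ℕ, e1 = 1 + p := ⟨_, rfl⟩
  obtain ⟨e2, he2⟩ : ∃ e2 : ℕ, e2 = p * (p + 1) := ⟨_, rfl⟩
  obtain ⟨e3, he3⟩ : ∃ e3 : ℕ, e3 = e2 + p := ⟨_, rfl⟩
  obtain ⟨e4, he4⟩ : ∃ e4 : ℕ, e4 = e3 * (1 + p) := ⟨_, rfl⟩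
  have hLe' : L ^ e4 = n / k := by rw [he4, he3, he2]; exact hLe
  have hn0 : (0:ℝ) < n := by
    have h1 : 0 < (n:ℝ) / k := by rw [← hLe']; positivity
    by_contra h
    have : (n:ℝ) = 0 := le_antisymm (not_lt.1 h) (Nat.cast_nonneg n)
    rw [this, zero_div] at h1
    exact lt_irrefl _ h1
  have hp4 : 4 ≤ p := by
    have h1 : (4:ℝ) ≤ p := by
      have hp0 : (0:ℝ) ≤ p := Nat.cast_nonneg p
      nlinarith
    exact_mod_cast h1
  have e12 : e1 < e2 := by rw [he1, he2]; nlinarith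
  have e34 : e4 = e3 + p * e3 := by rw [he4]; ring
  have hpe3 : 1 ≤ p * e3 := Nat.mul_pos (by omega) (by omega)
  have hkN : (k:ℝ) = n / L ^ e4 := by
    rw [hLe']
    field_simp
  -- comparison of scales
  have hLp : ∀ q : ℕ, 1 ≤ q → L ≤ L ^ q := by
    intro q hq
    calc L = L ^ 1 := (pow_one L).symm
      _ ≤ L ^ q := pow_le_pow_right₀ hL1 hq
  have hmon : ∀ q q' : ℕ, q ≤ q' → (n:ℝ) / L ^ q' ≤ n / L ^ q := by
    intro q q' h
    exact div_le_div_of_nonneg_left hn0.le (by positivity) (pow_le_pow_right₀ hL1 h)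
  have hstep' : ∀ q q' : ℕ, q < q' → L * ((n:ℝ) / L ^ q') ≤ n / L ^ q := by
    intro q q' h
    obtain ⟨t, ht⟩ : ∃ t, q' = q + t := ⟨q' - q, by omega⟩
    have h1 := hLp t (by omega)
    rw [ht, pow_add, ← mul_div_assoc, div_le_div_iff₀ (by positivity) (by positivity)]
    calc L * (n:ℝ) * L ^ q ≤ L ^ t * n * L ^ q := by
          apply mul_le_mul_of_nonneg_right _ (by positivity)
          exact mul_le_mul_of_nonneg_right h1 hn0.le
      _ = n * (L ^ q * L ^ t) := by ring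
  have hstep : ∀ q q' : ℕ, q < q' → 200 * ((n:ℝ) / L ^ q') ≤ n / L ^ q := by
    intro q q' h
    have h1 := hstep' q q' h
    have h2 : 0 ≤ (n:ℝ) / L ^ q' := by positivity
    nlinarith
  obtain ⟨R2, hR2⟩ : ∃ D : ℕ, D = ⌊(n:ℝ) / L ^ 1⌋₊ := ⟨_, rfl⟩
  obtain ⟨R1, hR1⟩ : ∃ D : ℕ, D = ⌊(n:ℝ) / L ^ e1⌋₊ := ⟨_, rfl⟩
  obtain ⟨ρ, hρ⟩ : ∃ D : ℕ, D = ⌊(n:ℝ) / L ^ e2⌋₊ := ⟨_, rfl⟩
  obtain ⟨m, hm⟩ : ∃ D : ℕ, D = ⌊(n:ℝ) / L ^ e3⌋₊ := ⟨_, rfl⟩
  obtain ⟨r3, hr3⟩ : ∃ D : ℕ, D = ⌊κ * n / 2⌋₊ := ⟨_, rfl⟩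
  obtain ⟨N, hN⟩ : ∃ N : ℕ, N = n / m + 1 := ⟨_, rfl⟩
  have hge : ∀ q : ℕ, q ≤ e4 → 1 ≤ (n:ℝ) / L ^ q := by
    intro q hq
    have := hmon q e4 hq
    rw [← hkN] at this
    linarith
  have o1 : 1 ≤ e4 := by omega
  have up : ∀ (y : ℝ), 0 ≤ y → (⌊y⌋₊ : ℝ) ≤ y := fun y hy => Nat.floor_le hy
  have A1 : (R2:ℝ) ≤ n / L ^ 1 := by rw [hR2]; exact up _ (by positivity)
  have A2 : (n:ℝ) / L ^ 1 / 2 ≤ R2 := by rw [hR2]; exact floor_half (hge 1 o1)
  have B1 : (R1:ℝ) ≤ n / L ^ e1 := by rw [hR1]; exact up _ (by positivity)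
  have B2 : (n:ℝ) / L ^ e1 / 2 ≤ R1 := by rw [hR1]; exact floor_half (hge e1 (by omega))
  have ρ1 : (ρ:ℝ) ≤ n / L ^ e2 := by rw [hρ]; exact up _ (by positivity)
  have ρ2 : (n:ℝ) / L ^ e2 / 2 ≤ ρ := by rw [hρ]; exact floor_half (hge e2 (by omega))
  have m1 : (m:ℝ) ≤ n / L ^ e3 := by rw [hm]; exact up _ (by positivity)
  have m2 : (n:ℝ) / L ^ e3 / 2 ≤ m := by rw [hm]; exact floor_half (hge e3 (by omega))
  have hnL : 200 * ((n:ℝ) / L ^ 1) ≤ κ * n := by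
    rw [pow_one, ← mul_div_assoc, div_le_iff₀ hL0]
    nlinarith
  have hκn : 1 ≤ κ * n / 2 := by
    have := hge 1 o1
    linarith
  have r1 : (r3:ℝ) ≤ κ * n / 2 := by rw [hr3]; exact up _ (by positivity)
  have r2 : κ * n / 2 / 2 ≤ r3 := by rw [hr3]; exact floor_half hκn
  -- relations between the integers
  have km : 200 * k ≤ m * 2 := by
    have h1 := hstep e3 e4 (by omega)
    rw [← hkN] at h1
    have : ((200 * k : ℕ) : ℝ) ≤ ((m * 2 : ℕ) : ℝ) := by push_cast; linarith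
    exact_mod_cast this
  have mρ : 16 * m ≤ ρ := by
    have h1 := hstep e2 e3 (by omega)
    have : ((16 * m : ℕ) : ℝ) ≤ ρ := by push_cast; linarith
    exact_mod_cast this
  have ρR : 100 * ρ ≤ R1 := by
    have h1 := hstep e1 e2 e12
    have : ((100 * ρ : ℕ) : ℝ) ≤ R1 := by push_cast; linarith
    exact_mod_cast this
  have RR : 100 * R1 ≤ R2 := by
    have h1 := hstep 1 e1 (by omega)
    have : ((100 * R1 : ℕ) : ℝ) ≤ R2 := by push_cast; linarith
    exact_mod_cast this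
  have hr3R : 20 * R2 ≤ r3 := by
    have : ((20 * R2 : ℕ) : ℝ) ≤ r3 := by push_cast; linarith
    exact_mod_cast this
  have hr3s : (r3:ℤ) + 4 * k < s := by
    have h1 : ((r3 : ℝ)) + 4 * k < s := by
      have h2 : (k:ℝ) ≤ n / L ^ 1 := by
        rw [hkN]
        exact hmon 1 e4 o1
      linarith
    exact_mod_cast h1
  have hR2s : (R2:ℤ) + 4 * k < s := by omega
  have hm0 : 0 < m := by omega
  have hNm : n < N * m := by
    rw [hN]
    have := Nat.div_add_mod n m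
    have h2 := Nat.mod_lt n hm0
    nlinarith
  have hSc : Sc D s k m ρ R1 R2 r3 N := by
    refine ⟨hm0, by omega, mρ, by omega, by omega, hR2s, hr3s, ?_, ?_⟩
    · have : (n:ℤ) < N * m := by exact_mod_cast hNm
      omega
    · have : (n:ℤ) < N * m := by exact_mod_cast hNm
      omega
  have hmain : PQ (1/2) D.edges (fun F => ¬ (cdist (crv D δ (Loc D a b c0 a' b' c' F))
      (crv D δ (Upc D a' b' c' F)) ≤ δ * (8 * (n / L) + 13))) ≤
      PQ (1/2) D.edges (BadE D a b c0 m ρ R1 R2 r3 N) := by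
    apply Pr_mono ok
    intro F hF hF2
    by_contra hB
    apply hF2
    refine (det_main hW hw hF hSc hδ hB).trans ?_
    apply mul_le_mul_of_nonneg_left _ hδ
    rw [pow_one] at A1
    linarith
  refine hmain.trans ((hbad D a b c0 k m ρ R1 R2 r3 N hw.a hw.b hw.c hm0 (by omega) mρ (by omega)
    (by omega) (by omega)).trans ?_)
  rw [mul_div_assoc]
  apply mul_le_mul_of_nonneg_left _ hC1.le
  have hm0' : (0:ℝ) < m := by exact_mod_cast hm0
  have hρ0' : (0:ℝ) < ρ := by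
    have : 0 < ρ := by omega
    exact_mod_cast this
  have hR10' : (0:ℝ) < R1 := by
    have : 0 < R1 := by omega
    exact_mod_cast this
  have hR20' : (0:ℝ) < R2 := by
    have : 0 < R2 := by omega
    exact_mod_cast this
  have hr30' : (0:ℝ) < r3 := by
    have : 0 < r3 := by omega
    exact_mod_cast this
  have inv3 : ∀ q : ℕ, 1 ≤ q → 1 / L ^ q ≤ 1 / L := by
    intro q hq
    exact one_div_le_one_div_of_le hL0 (hLp q hq)
  -- the number of windows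
  have bN : 2 * (N:ℝ) + 1 ≤ 10 * L ^ e3 := by
    have h1 : (N:ℝ) ≤ n / m + 1 := by
      rw [hN]
      push_cast
      have := Nat.cast_div_le (m := n) (n := m) (α := ℝ)
      linarith
    have h2 : (n:ℝ) / m ≤ 2 * L ^ e3 := by
      rw [div_le_iff₀ hm0']
      have h3 : (n:ℝ) = 2 * L ^ e3 * (n / L ^ e3 / 2) := by field_simp
      calc (n:ℝ) = 2 * L ^ e3 * (n / L ^ e3 / 2) := h3
        _ ≤ 2 * L ^ e3 * m := mul_le_mul_of_nonneg_left m2 (by positivity)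
    have h3 := hLp e3 (by omega)
    linarith
  have b3 : ((k:ℝ) / m) ^ c ≤ 2 / L ^ (4 * e3) := by
    have h1 : (k:ℝ) / m ≤ 2 / L ^ (p * e3) := by
      rw [div_le_div_iff₀ hm0' (by positivity)]
      have h3 : (k:ℝ) * L ^ (p * e3) = 2 * (n / L ^ e3 / 2) := by
        rw [hkN, e34, pow_add]
        field_simp
      calc (k:ℝ) * L ^ (p * e3) = 2 * (n / L ^ e3 / 2) := h3
        _ ≤ 2 * m := by linarith
    exact pow_bd (a := 2) (q := e3) hL1 hc0 hcl le_rfl hpc (by norm_num) (by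
      rw [div_le_one (by positivity)]
      have := hLp (p * e3) hpe3
      linarith) (by positivity) h1
  have t1 : 10 * L ^ e3 * ((k:ℝ) / m) ^ c ≤ 20 / L := by
    have h1 : L ^ e3 * (2 / L ^ (4 * e3)) = 2 * (1 / L ^ (3 * e3)) := by
      rw [show 4 * e3 = e3 + 3 * e3 by ring, pow_add]
      field_simp
    have h2 := inv3 (3 * e3) (by omega)
    calc 10 * L ^ e3 * ((k:ℝ) / m) ^ c ≤ 10 * L ^ e3 * (2 / L ^ (4 * e3)) :=
          mul_le_mul_of_nonneg_left b3 (by positivity)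
      _ = 10 * (L ^ e3 * (2 / L ^ (4 * e3))) := by ring
      _ = 20 * (1 / L ^ (3 * e3)) := by rw [h1]; ring
      _ ≤ 20 * (1 / L) := mul_le_mul_of_nonneg_left h2 (by norm_num)
      _ = 20 / L := by ring
  -- three arms
  have b4 : ((ρ:ℝ) / R1) ^ (1 + c) ≤ 4 / L ^ (e3 + 1) := by
    obtain ⟨d, hd⟩ : ∃ d, e2 = e1 + d := ⟨e2 - e1, by omega⟩
    have h1 : (ρ:ℝ) / R1 ≤ 2 / L ^ d := by
      rw [div_le_div_iff₀ hR10' (by positivity)]
      have h3 : ((n:ℝ) / L ^ e2) * L ^ d = 2 * (n / L ^ e1 / 2) := by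
        rw [hd, pow_add]
        field_simp
      calc (ρ:ℝ) * L ^ d ≤ (n / L ^ e2) * L ^ d := mul_le_mul_of_nonneg_right ρ1 (by positivity)
        _ = 2 * (n / L ^ e1 / 2) := h3
        _ ≤ 2 * R1 := by linarith
    calc ((ρ:ℝ) / R1) ^ (1 + c) ≤ (2 / L ^ d) ^ (1 + c) :=
          Real.rpow_le_rpow (by positivity) h1 (by linarith)
      _ = 2 ^ (1 + c) / (L ^ d) ^ (1 + c) := Real.div_rpow (by norm_num) (by positivity) _
      _ ≤ 4 / L ^ (e3 + 1) := by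
        apply div_le_div₀ (by norm_num) _ (by positivity) _
        · calc (2:ℝ) ^ (1 + c) ≤ 2 ^ (2:ℝ) :=
                Real.rpow_le_rpow_of_exponent_le (by norm_num) (by linarith)
            _ = 4 := by norm_num
        · rw [← Real.rpow_natCast L d, ← Real.rpow_mul hL0.le, ← Real.rpow_natCast L (e3 + 1)]
          apply Real.rpow_le_rpow_of_exponent_le hL1
          have h5 : (e2:ℝ) = p * (p + 1) := by rw [he2]; push_cast; ring
          have h6 : (e1:ℝ) = 1 + p := by rw [he1]; push_cast; ring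
          have h7 : (e2:ℝ) = e1 + d := by rw [hd]; push_cast; ring
          have h8 : (e3:ℝ) = e2 + p := by rw [he3]; push_cast; ring
          have h9 : (d:ℝ) = p * (p + 1) - (1 + p) := by linarith
          push_cast
          rw [h8, h5, h9]
          have hp4' : (4:ℝ) ≤ p := by exact_mod_cast hp4
          have h10 : 4 * ((p:ℝ) + 1) ≤ c * (p * (p + 1)) := by nlinarith
          nlinarith
  have t2 : 10 * L ^ e3 * ((ρ:ℝ) / R1) ^ (1 + c) ≤ 40 / L := by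
    calc 10 * L ^ e3 * ((ρ:ℝ) / R1) ^ (1 + c) ≤ 10 * L ^ e3 * (4 / L ^ (e3 + 1)) :=
          mul_le_mul_of_nonneg_left b4 (by positivity)
      _ = 40 / L := by
        rw [pow_succ]
        field_simp
        norm_num
  have hsm : ∀ a : ℝ, 0 ≤ a → a / L ^ (4 * 1) ≤ a / L := by
    intro a ha
    apply div_le_div_of_nonneg_left ha hL0
    exact hLp 4 (by norm_num)
  have t3 : ((m:ℝ) / ρ) ^ c ≤ 2 / L := by
    have h1 : (m:ℝ) / ρ ≤ 2 / L ^ (p * 1) := by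
      rw [div_le_div_iff₀ hρ0' (by positivity), mul_one]
      have h3 : ((n:ℝ) / L ^ e3) * L ^ p = 2 * (n / L ^ e2 / 2) := by
        rw [he3, pow_add]
        field_simp
      calc (m:ℝ) * L ^ p ≤ (n / L ^ e3) * L ^ p := mul_le_mul_of_nonneg_right m1 (by positivity)
        _ = 2 * (n / L ^ e2 / 2) := h3
        _ ≤ 2 * ρ := by linarith
    refine (pow_bd (a := 2) (q := 1) hL1 hc0 hcl le_rfl hpc (by norm_num) (by
      rw [div_le_one (by positivity), mul_one]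
      have := hLp p hp1
      linarith) (by positivity) h1).trans (hsm 2 (by norm_num))
  have t4 : ((R1:ℝ) / R2) ^ c ≤ 2 / L := by
    have h1 : (R1:ℝ) / R2 ≤ 2 / L ^ (p * 1) := by
      rw [div_le_div_iff₀ hR20' (by positivity), mul_one]
      have h3 : ((n:ℝ) / L ^ e1) * L ^ p = 2 * (n / L ^ 1 / 2) := by
        rw [he1, pow_add]
        field_simp
      calc (R1:ℝ) * L ^ p ≤ (n / L ^ e1) * L ^ p := mul_le_mul_of_nonneg_right B1 (by positivity)
        _ = 2 * (n / L ^ 1 / 2) := h3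
        _ ≤ 2 * R2 := by linarith
    refine (pow_bd (a := 2) (q := 1) hL1 hc0 hcl le_rfl hpc (by norm_num) (by
      rw [div_le_one (by positivity), mul_one]
      have := hLp p hp1
      linarith) (by positivity) h1).trans (hsm 2 (by norm_num))
  have t5 : ((R1:ℝ) / r3) ^ c ≤ (4 / κ) / L := by
    have h1 : (R1:ℝ) / r3 ≤ (4 / κ) / L ^ (p * 1) := by
      rw [div_le_div_iff₀ hr30' (by positivity), mul_one]
      have h3 : ((n:ℝ) / L ^ e1) * L ^ p = n / L := by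
        rw [he1, pow_add, pow_one]
        field_simp
      have h4 : (n:ℝ) / L ≤ n := div_le_self hn0.le hL1
      have h5 : (n:ℝ) = 4 / κ * (κ * n / 2 / 2) := by field_simp; norm_num
      calc (R1:ℝ) * L ^ p ≤ (n / L ^ e1) * L ^ p := mul_le_mul_of_nonneg_right B1 (by positivity)
        _ = n / L := h3
        _ ≤ n := h4
        _ = 4 / κ * (κ * n / 2 / 2) := h5
        _ ≤ 4 / κ * r3 := mul_le_mul_of_nonneg_left r2 (by positivity)
    refine (pow_bd (a := 4 / κ) (q := 1) hL1 hc0 hcl le_rfl hpc (by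
        rw [le_div_iff₀ hκ]
        linarith) (by
      rw [div_le_one (by positivity), mul_one]
      have h2 := hLp p hp1
      have h3 : 4 / κ ≤ 200 / κ := div_le_div_of_nonneg_right (by norm_num) hκ.le
      linarith) (by positivity) h1).trans (hsm _ (by positivity))
  obtain ⟨X, hX⟩ : ∃ X : ℝ, X = ((k:ℝ) / m) ^ c + ((ρ:ℝ) / R1) ^ (1 + c) := ⟨_, rfl⟩
  have hX0 : 0 ≤ X := by rw [hX]; positivity
  have hX1 : (2 * (N:ℝ) + 1) * X ≤ 60 / L := by
    calc (2 * (N:ℝ) + 1) * X ≤ 10 * L ^ e3 * X := mul_le_mul_of_nonneg_right bN hX0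
      _ = 10 * L ^ e3 * ((k:ℝ) / m) ^ c + 10 * L ^ e3 * ((ρ:ℝ) / R1) ^ (1 + c) := by
        rw [hX]; ring
      _ ≤ 20 / L + 40 / L := add_le_add t1 t2
      _ = 60 / L := by ring
  rw [← hX]
  calc (2 * (N:ℝ) + 1) * X + ((m:ℝ) / ρ) ^ c + ((R1:ℝ) / R2) ^ c + ((R1:ℝ) / r3) ^ c ≤
        60 / L + 2 / L + 2 / L + (4 / κ) / L := by linarith
    _ ≤ (100 + 8 / κ) / L := by
      have h1 : 60 / L + 2 / L + 2 / L + (4 / κ) / L = (64 + 4 / κ) / L := by ring
      rw [h1]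
      apply div_le_div_of_nonneg_right _ hL0.le
      have : 4 / κ ≤ 8 / κ := div_le_div_of_nonneg_right (by norm_num) hκ.le
      linarith

end Pool.Agent.H950.EX
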