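import Pool.Agent.H950.EX.Ext
import Pool.Agent.H950.EX.StepA
import Pool.Graph.R_seed8.H160R2.MU.T_BADP1

/-!
Wired strips change the exploration path little, by duality.
-/

set_option autoImplicit false

namespace Pool.Agent.H950.EX

open H974 H12S H389NS H984N H984P H342P H443B Finset
open Pool.Agent.N116.EW
open H342L (cdist Curve)

variable {D : Dm} {F G : Finset Edg} {s : ℤ} {k a b c a' b' c' : ℕ}

/-- The lower configuration with wired strips. -/
noncomputable def Hc (D : Dm) (a b c a' b' c' : ℕ) (F : Finset Edg) : Finset Edg :=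
  (F \ Zs D a b c) ∪ Os D a' b' c'

theorem Hc_sub (hF : F ⊆ D.edges) : Hc D a b c a' b' c' F ⊆ D.edges := by
  intro e he
  rcases Finset.mem_union.1 he with h | h
  · exact hF (Finset.mem_sdiff.1 h).1
  · exact (mem_Os.1 h).1

open Classical in
/-- The edges whose duals are in the dual rectangle. -/
noncomputable def E1 (D : Dm) : Finset Edg := D.edges.filter (fun e => dE e ∈ (dD D).edges)

open Classical in
/-- The configuration with a given dual configuration. -/
noncomputable def uF (D : Dm) (Fs : Finset Edg) : Finset Edg :=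
  E1 D \ (E1 D).filter (fun e => dE e ∈ Fs)

theorem mem_E1 {e : Edg} : e ∈ E1 D ↔ e ∈ D.edges ∧ dE e ∈ (dD D).edges := by
  classical
  unfold E1
  rw [Finset.mem_filter]

theorem mem_uF {Fs : Finset Edg} {e : Edg} : e ∈ uF D Fs ↔ e ∈ D.edges ∧ dE e ∈ (dD D).edges ∧
    dE e ∉ Fs := by
  classical
  unfold uF
  rw [Finset.mem_sdiff, Finset.mem_filter, mem_E1]
  tauto

theorem uF_sub (Fs : Finset Edg) : uF D Fs ⊆ D.edges := fun _ he => (mem_uF.1 he).1

/-- Positions of an edge and of its dual. -/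
theorem dual_pos (hW : Wide D s) (hw : Wd k a b c a' b' c') (hk : 4 * (k:ℤ) < s) (hk1 : 1 ≤ k)
    {e : Edg}
    (he : e ∈ (dD D).edges) (hew : e ∉ (dD D).wir) :
    ((dE.symm e ∈ D.edges ∧ dE.symm e ∉ D.wir ∧ dE.symm e ∉ Os D a' b' c') ↔
      e ∉ Zs (dD D) a' (b' + 1) (c' + 1)) ∧
    (dE.symm e ∈ Zs D a b c → e ∈ Os (dD D) a b c) ∧
    (dE.symm e ∈ D.edges → e ∈ Os (dD D) a b c → dE.symm e ∈ Zs D a b c) := by
  obtain ⟨h0, h1, h2, h3, h4, h5⟩ := hW
  obtain ⟨w1, w2, w3, w4, w5, w6⟩ := hw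
  obtain ⟨x, y, q⟩ := e
  unfold dD at he hew
  unfold Dm.edges at he
  unfold Dm.wir at hew
  simp only [Set.mem_ofPred_eq] at hew
  rw [mem_Os, mem_Zs, mem_Os, mem_Zs]
  unfold dD Dm.edges Dm.wir fre wrd
  cases q
  · rw [mem_RE_false] at he
    simp only at he
    simp only [Bool.false_eq_true, false_and, true_and, false_or, or_false] at hew
    rw [dEs_f, mem_RE_true, mem_RE_false, src_mk, tgt_true, src_mk, tgt_false]
    simp only [Set.mem_ofPred_eq, Bool.true_eq_false, false_and, true_and, false_or]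
    push_cast
    refine ⟨?_, ?_, ?_⟩
    · constructor <;> intro h <;> omega
    · intro h
      omega
    · intro h h'
      omega
  · rw [mem_RE_true] at he
    simp only at he
    simp only [Bool.true_eq_false, false_and, true_and, false_or] at hew
    rw [dEs_t, mem_RE_false, mem_RE_true, src_mk, tgt_false, src_mk, tgt_true]
    simp only [Set.mem_ofPred_eq, Bool.false_eq_true, false_and, true_and, false_or, or_false]
    push_cast
    refine ⟨?_, ?_, ?_⟩
    · constructor <;> intro h <;> omega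
    · intro h
      omega
    · intro h h'
      omega

/-- **The dual of the lower configuration.** -/
theorem dual_cfg (hW : Wide D s) (hw : Wd k a b c a' b' c') (hk : 4 * (k:ℤ) < s) (hk1 : 1 ≤ k)
    {Fs : Finset Edg} (hFs : Fs ⊆ (dD D).edges) :
    (dD D).cfg (dF D (Hc D a b c a' b' c' (uF D Fs))) =
      (dD D).cfg (Loc (dD D) a' (b' + 1) (c' + 1) a b c Fs) := by
  ext e
  by_cases hew : e ∈ (dD D).wir
  · exact ⟨fun _ => Or.inr hew, fun _ => Or.inr hew⟩
  by_cases he : e ∈ (dD D).edges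
  · obtain ⟨p1, p2, p3⟩ := dual_pos hW hw hk hk1 he hew
    have q1 : e ∈ (dD D).cfg (dF D (Hc D a b c a' b' c' (uF D Fs))) ↔
        e ∈ dF D (Hc D a b c a' b' c' (uF D Fs)) := by
      constructor
      · rintro (h | h)
        · exact_mod_cast h
        · exact absurd h hew
      · intro h
        left
        exact_mod_cast h
    have q2 : e ∈ (dD D).cfg (Loc (dD D) a' (b' + 1) (c' + 1) a b c Fs) ↔
        e ∈ Loc (dD D) a' (b' + 1) (c' + 1) a b c Fs := by
      constructor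
      · rintro (h | h)
        · exact_mod_cast h
        · exact absurd h hew
      · intro h
        left
        exact_mod_cast h
    rw [q1, q2, mem_dF]
    have q3 : dE.symm e ∈ D.cfg (Hc D a b c a' b' c' (uF D Fs)) ↔
        dE.symm e ∈ Hc D a b c a' b' c' (uF D Fs) ∨ dE.symm e ∈ D.wir := by
      constructor
      · rintro (h | h)
        · left; exact_mod_cast h
        · right; exact h
      · rintro (h | h)
        · left; exact_mod_cast h
        · right; exact h
    rw [q3]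
    unfold Loc Hc
    rw [Finset.mem_sdiff, Finset.mem_union, Finset.mem_union, Finset.mem_sdiff, mem_uF,
      Equiv.apply_symm_apply]
    constructor
    · rintro ⟨-, g1, g2⟩
      have g3 : dE.symm e ∉ D.wir := fun h => g2 (Or.inr h)
      have g4 : dE.symm e ∉ Os D a' b' c' := fun h => g2 (Or.inl (Or.inr h))
      refine ⟨?_, p1.1 ⟨g1, g3, g4⟩⟩
      by_contra hcon
      push Not at hcon
      apply g2
      left; left
      exact ⟨⟨g1, he, hcon.1⟩, fun h => hcon.2 (p2 h)⟩
    · rintro ⟨g1, g2⟩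
      obtain ⟨g3, g4, g5⟩ := p1.2 g2
      refine ⟨he, g3, ?_⟩
      rintro ((⟨⟨-, -, h1⟩, h2⟩ | h) | h)
      · rcases g1 with g1 | g1
        · exact h1 g1
        · exact h2 (p3 g3 g1)
      · exact g5 h
      · exact g4 h
  · constructor
    · rintro (h | h)
      · exact absurd (dF_sub _ (show e ∈ dF D _ by exact_mod_cast h)) he
      · exact absurd h hew
    · rintro (h | h)
      · exact absurd ((Loc_sub.trans (Upc_sub hFs))
          (show e ∈ Loc (dD D) a' (b' + 1) (c' + 1) a b c Fs by exact_mod_cast h)) he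
      · exact absurd h hew

theorem dD_wide (hW : Wide D s) : Wide (dD D) s := by
  obtain ⟨h0, h1, h2, h3, h4, h5⟩ := hW
  refine ⟨h0, ?_, ?_, ?_, ?_, ?_⟩ <;> unfold dD <;> simp only <;> omega

/-- The law of the dual configuration. -/
theorem dual_pr {A : Finset Edg → Prop}
    (hA : ∀ F, F ⊆ D.edges → (A F ↔ A (F ∩ E1 D))) :
    PQ (1/2) D.edges A = PQ (1/2) (dD D).edges (fun Fs => A (uF D Fs)) := by
  classical
  unfold PQ
  have h1 : Pr (fun _ : Edg => (1/2:ℝ)) D.edges A = Pr (fun _ => (1/2:ℝ)) (E1 D) A :=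
    Pr_local (fun e he => (mem_E1.1 he).1) hA
  have h2 : Pr (fun _ : Edg => (1/2:ℝ)) (E1 D) A =
      Pr (fun _ => (1/2:ℝ)) (E1 D) (fun F => A (E1 D \ F)) := by
    have := Pr_compl (fun _ : Edg => (1/2:ℝ)) (E1 D) A
    rw [← this]
    congr 1
    funext _
    norm_num
  rw [h1, h2]
  have h3 := Pool.Agent.H160R2.MU.TBADP.Pr_map (f := dE) (q := 1/2) (S := (dD D).edges) (B := E1 D)
    dE.injective.injOn (by
      intro e he
      obtain ⟨g, hg, rfl⟩ := Finset.mem_image.1 he
      exact (mem_E1.1 hg).2) (fun F => A (E1 D \ F))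
  rw [← h3]
  apply Pr_congr
  intro F _
  unfold uF
  exact Iff.rfl

/-- The lower configuration depends only on the edges which are not wired. -/
theorem Hc_local (hF : F ⊆ D.edges) :
    D.cfg (Hc D a b c a' b' c' F) = D.cfg (Hc D a b c a' b' c' (F ∩ E1 D)) := by
  have key : ∀ e, e ∈ F → e ∉ D.wir → e ∈ F ∩ E1 D := by
    intro e he hw
    exact Finset.mem_inter.2 ⟨he, mem_E1.2 ⟨hF he, dE_in (hF he) hw⟩⟩
  ext e
  by_cases hw : e ∈ D.wir
  · exact ⟨fun _ => Or.inr hw, fun _ => Or.inr hw⟩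
  constructor
  · rintro (h | h)
    · left
      have h' : e ∈ Hc D a b c a' b' c' F := by exact_mod_cast h
      have : e ∈ Hc D a b c a' b' c' (F ∩ E1 D) := by
        rcases Finset.mem_union.1 h' with h' | h'
        · obtain ⟨h1, h2⟩ := Finset.mem_sdiff.1 h'
          exact Finset.mem_union_left _ (Finset.mem_sdiff.2 ⟨key e h1 hw, h2⟩)
        · exact Finset.mem_union_right _ h'
      exact_mod_cast this
    · exact absurd h hw
  · rintro (h | h)
    · left
      have h' : e ∈ Hc D a b c a' b' c' (F ∩ E1 D) := by exact_mod_cast h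
      have : e ∈ Hc D a b c a' b' c' F := by
        rcases Finset.mem_union.1 h' with h' | h'
        · obtain ⟨h1, h2⟩ := Finset.mem_sdiff.1 h'
          exact Finset.mem_union_left _ (Finset.mem_sdiff.2 ⟨(Finset.mem_inter.1 h1).1, h2⟩)
        · exact Finset.mem_union_right _ h'
      exact_mod_cast this
    · exact absurd h hw

theorem scale_k {κ L : ℝ} {n E : ℕ} (hκ : 0 < κ) (hκ1 : κ ≤ 1) (hE : 1 ≤ E)
    (hs : κ * n ≤ s) (hL : 200 / κ ≤ L) (hLe : L ^ E = (n:ℝ) / k) (hk : 1 ≤ k) :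
    200 * (k:ℤ) ≤ s := by
  have hL200 : 200 ≤ L := by
    have : 200 ≤ 200 / κ := by
      rw [le_div_iff₀ hκ]
      linarith
    linarith
  have hk0 : (0:ℝ) < k := by exact_mod_cast hk
  have hL0 : 0 < L := by linarith
  have h1 : L ≤ L ^ E := by
    calc L = L ^ 1 := (pow_one L).symm
      _ ≤ L ^ E := pow_le_pow_right₀ (by linarith) hE
  rw [hLe, le_div_iff₀ hk0] at h1
  have h2 : 200 / κ * k ≤ n := (mul_le_mul_of_nonneg_right hL hk0.le).trans h1
  rw [div_mul_eq_mul_div, div_le_iff₀ hκ] at h2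
  have h3 : (200 * (k:ℝ)) ≤ s := by linarith
  exact_mod_cast h3

/-- **Wired strips change the exploration path little.** -/
theorem stepB : ∃ (p : ℕ), 1 ≤ p ∧ ∀ κ : ℝ, 0 < κ → κ ≤ 1 → ∃ C : ℝ, 0 < C ∧
    ∀ (D : Dm) (s : ℤ) (n k : ℕ) (L δ : ℝ) (a b c a' b' c' : ℕ), 1 ≤ k → Wd k a b c a' b' c' →
    Wide D s → κ * n ≤ s → D.r - D.l ≤ n → D.h + 1 ≤ n → 200 / κ ≤ L → 0 ≤ δ →
    L ^ ((p * (p + 1) + p) * (1 + p)) = (n:ℝ) / ((k + 1 : ℕ) : ℝ) →
    PQ (1/2) D.edges (fun F => ¬ (cdist (crv D δ (Loc D a b c a' b' c' F))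
      (crv D δ (Upc D a' b' c' F)) ≤ δ * (8 * (n / L) + 13))) ≤ C / L ∧
    PQ (1/2) D.edges (fun F => ¬ (cdist (crv D δ (Hc D a b c a' b' c' F))
      (crv D δ (Hc D a b c 0 0 0 F)) ≤ δ * (16 * (n / L) + 34))) ≤ 2 * C / L := by
  obtain ⟨p, hp, hA⟩ := stepA
  refine ⟨p, hp, ?_⟩
  intro κ hκ hκ1
  obtain ⟨C, hC, hst⟩ := hA κ hκ hκ1
  refine ⟨C, hC, ?_⟩
  intro D s n k L δ a b c a' b' c' hk hw hW hs hDn hDh hL hδ hLe
  have ok := okq (q := 1/2) (by norm_num) (by norm_num)
  have hwk : Wd (k + 1) a b c a' b' c' := ⟨by have := hw.a; omega, by have := hw.b; omega,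
    by have := hw.c; omega, by have := hw.a'; omega, by have := hw.b'; omega,
    by have := hw.c'; omega⟩
  refine ⟨hst D s n (k + 1) L δ a b c a' b' c' (by omega) hwk hW hs hDn (by omega) hL hδ hLe, ?_⟩
  have hE : 1 ≤ (p * (p + 1) + p) * (1 + p) := Nat.mul_pos (by omega) (by omega)
  have hk200 := scale_k hκ hκ1 hE hs hL hLe (by omega)
  push_cast at hk200
  have hk4 : 4 * (k:ℤ) < s := by omega
  have hw0 : Wd k a b c 0 0 0 := ⟨hw.a, hw.b, hw.c, by omega, by omega, by omega⟩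
  rw [dual_pr (D := D) (A := fun F => ¬ (cdist (crv D δ (Hc D a b c a' b' c' F))
      (crv D δ (Hc D a b c 0 0 0 F)) ≤ δ * (16 * (n / L) + 34))) (by
    intro F hF
    rw [crv_cfg (Hc_local (a := a) (b := b) (c := c) (a' := a') (b' := b') (c' := c') hF) δ,
      crv_cfg (Hc_local (a := a) (b := b) (c := c) (a' := 0) (b' := 0) (c' := 0) hF) δ])]
  have hws : Wd (k + 1) a' (b' + 1) (c' + 1) a b c := ⟨by have := hw.a'; omega,
    by have := hw.b'; omega, by have := hw.c'; omega, by have := hw.a; omega,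
    by have := hw.b; omega, by have := hw.c; omega⟩
  have hws0 : Wd (k + 1) 0 (0 + 1) (0 + 1) a b c := ⟨by omega,
    by omega, by omega, by have := hw.a; omega,
    by have := hw.b; omega, by have := hw.c; omega⟩
  have hWs := dD_wide hW
  have e1 : (dD D).r - (dD D).l ≤ n := by unfold dD; simp only; omega
  have e2 : (dD D).h ≤ n := by unfold dD; simp only; omega
  have k1 := hst (dD D) s n (k + 1) L δ a' (b' + 1) (c' + 1) a b c (by omega) hws hWs hs e1 e2
    hL hδ hLe
  have k2 := hst (dD D) s n (k + 1) L δ 0 (0 + 1) (0 + 1) a b c (by omega) hws0 hWs hs e1 e2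
    hL hδ hLe
  have key : PQ (1/2) (dD D).edges (fun Fs => ¬ (cdist
      (crv D δ (Hc D a b c a' b' c' (uF D Fs))) (crv D δ (Hc D a b c 0 0 0 (uF D Fs))) ≤
      δ * (16 * (n / L) + 34))) ≤
      PQ (1/2) (dD D).edges (fun Fs => ¬ (cdist
        (crv (dD D) δ (Loc (dD D) a' (b' + 1) (c' + 1) a b c Fs))
        (crv (dD D) δ (Upc (dD D) a b c Fs)) ≤ δ * (8 * (n / L) + 13))) +
      PQ (1/2) (dD D).edges (fun Fs => ¬ (cdist
        (crv (dD D) δ (Loc (dD D) 0 (0 + 1) (0 + 1) a b c Fs))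
        (crv (dD D) δ (Upc (dD D) a b c Fs)) ≤ δ * (8 * (n / L) + 13))) := by
    unfold PQ
    refine (Pr_mono ok ?_).trans (Pr_or_le ok _ _ _)
    intro Fs hFs hbad
    by_contra hcon
    push Not at hcon
    obtain ⟨c1, c2⟩ := hcon
    apply hbad
    have d1 := crv_dual_le hW.ok (H := Hc D a b c a' b' c' (uF D Fs))
      (H' := Hc D a b c 0 0 0 (uF D Fs)) (Hc_sub (uF_sub Fs)) (Hc_sub (uF_sub Fs)) hδ
    rw [crv_cfg (dual_cfg hW hw hk4 hk hFs) δ, crv_cfg (dual_cfg hW hw0 hk4 hk hFs) δ] at d1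
    have d2 := H342L.cdist_triangle (crv (dD D) δ (Loc (dD D) a' (b' + 1) (c' + 1) a b c Fs))
      (crv (dD D) δ (Upc (dD D) a b c Fs)) (crv (dD D) δ (Loc (dD D) 0 (0 + 1) (0 + 1) a b c Fs))
    rw [H342L.cdist_comm (crv (dD D) δ (Upc (dD D) a b c Fs))] at d2
    linarith
  refine key.trans ?_
  refine (add_le_add k1 k2).trans (le_of_eq ?_)
  ring

end Pool.Agent.H950.EX
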