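import Pool.Agent.H950.EX.Low
import Pool.Agent.H950.EX.Loc

/-!
Strips along the two boundary arcs of a lattice rectangle.
-/

set_option autoImplicit false

namespace Pool.Agent.H950.EX

open H974 H12S H389NS H984N H984P H342P H443B Finset
open Pool.Agent.N116.EW
open Pool.Agent.H950.SV (rect_edge rect_reach)
open Pool.Agent.H950.AD (adj_En En_adj)

variable {D : Dm} {F G : Finset Edg}

/-- The rectangle is large in all directions, seen from the ends of the path. -/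
structure Wide (D : Dm) (s : ℤ) : Prop where
  pos : 0 < s
  l : s ≤ -D.l
  r : s ≤ D.r
  h : s ≤ D.h
  tl : s ≤ D.t - D.l
  tr : s ≤ D.r - D.t

theorem Wide.ok {s : ℤ} (h : Wide D s) : D.Ok := by
  obtain ⟨h0, h1, h2, h3, h4, h5⟩ := h
  exact ⟨by omega, by omega, by omega, by omega, by omega⟩

/-- Vertices of the strips along the free arc: of width `a` on the right, `b` at the top, `c` at
the bottom. -/
def fre (D : Dm) (a b c : ℕ) : Set Vtx :=
  {v | D.r - a < v.1 ∨ (D.t < v.1 ∧ D.h - b < v.2) ∨ (0 < v.1 ∧ v.2 < c)}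

/-- Vertices of the strips along the wired arc: of width `a` on the left, `b` at the top, `c` at
the bottom. -/
def wrd (D : Dm) (a b c : ℕ) : Set Vtx :=
  {v | v.1 ≤ D.l + a ∨ (v.1 ≤ D.t ∧ D.h - b ≤ v.2) ∨ (v.1 ≤ 0 ∧ v.2 ≤ c)}

open Classical in
/-- Edges which touch the strips along the free arc. -/
noncomputable def Zs (D : Dm) (a b c : ℕ) : Finset Edg :=
  D.edges.filter (fun e => src e ∈ fre D a b c ∨ tgt e ∈ fre D a b c)

open Classical in
/-- Edges of the strips along the wired arc. -/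
noncomputable def Os (D : Dm) (a b c : ℕ) : Finset Edg :=
  D.edges.filter (fun e => src e ∈ wrd D a b c ∧ tgt e ∈ wrd D a b c)

theorem mem_Zs {a b c : ℕ} {e : Edg} : e ∈ Zs D a b c ↔ e ∈ D.edges ∧
    (src e ∈ fre D a b c ∨ tgt e ∈ fre D a b c) := by
  classical
  unfold Zs
  rw [Finset.mem_filter]

theorem mem_Os {a b c : ℕ} {e : Edg} : e ∈ Os D a b c ↔ e ∈ D.edges ∧
    (src e ∈ wrd D a b c ∧ tgt e ∈ wrd D a b c) := by
  classical
  unfold Os
  rw [Finset.mem_filter]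

theorem En_src_tgt {e : Edg} {x v : Vtx} (h : En e x v) {P : Vtx → Prop} :
    (P (src e) ∧ P (tgt e)) ↔ (P x ∧ P v) := by
  rcases h with ⟨h1, h2⟩ | ⟨h1, h2⟩
  · rw [h1, h2]
  · rw [h1, h2]; exact and_comm

/-- Widths. -/
structure Wd (k a b c a' b' c' : ℕ) : Prop where
  a : a ≤ k
  b : b ≤ k
  c : c ≤ k
  a' : a' ≤ k
  b' : b' ≤ k
  c' : c' ≤ k

variable {s : ℤ} {k a b c a' b' c' : ℕ}

/-- The two kinds of strips are disjoint. -/
theorem wrd_fre (hW : Wide D s) (hw : Wd k a b c a' b' c') (hk : 4 * (k:ℤ) < s) {v : Vtx}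
    (hv : v ∈ wrd D a' b' c') : v ∉ fre D a b c := by
  obtain ⟨h0, h1, h2, h3, h4, h5⟩ := hW
  obtain ⟨w1, w2, w3, w4, w5, w6⟩ := hw
  unfold wrd at hv
  unfold fre
  simp only [Set.mem_ofPred_eq] at hv ⊢
  omega

theorem Os_Zs (hW : Wide D s) (hw : Wd k a b c a' b' c') (hk : 4 * (k:ℤ) < s) {e : Edg}
    (he : e ∈ Os D a' b' c') : e ∉ Zs D a b c := by
  intro hz
  obtain ⟨-, h1, h2⟩ := mem_Os.1 he
  rcases (mem_Zs.1 hz).2 with h3 | h3
  · exact wrd_fre hW hw hk h1 h3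
  · exact wrd_fre hW hw hk h2 h3

/-- Ends of the wired edges. -/
theorem wir_wrd (hW : Wide D s) {e : Edg} (he : e ∈ D.wir) (a' b' c' : ℕ) :
    src e ∈ wrd D a' b' c' ∧ tgt e ∈ wrd D a' b' c' := by
  obtain ⟨h0, h1, h2, h3, h4, h5⟩ := hW
  obtain ⟨x, y, q⟩ := e
  unfold Dm.wir at he
  unfold wrd
  simp only [Set.mem_ofPred_eq] at he ⊢
  cases q
  · simp only [Bool.false_eq_true, false_and, true_and, false_or, or_false] at he
    rw [src_mk, tgt_false]
    simp only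
    omega
  · simp only [Bool.true_eq_false, false_and, true_and, false_or] at he
    rw [src_mk, tgt_true]
    simp only
    omega

theorem wir_Zs (hW : Wide D s) (hw : Wd k a b c a' b' c') (hk : 4 * (k:ℤ) < s) {e : Edg}
    (he : e ∈ D.wir) : e ∉ Zs D a b c := by
  intro hz
  obtain ⟨h1, h2⟩ := wir_wrd hW he a' b' c'
  rcases (mem_Zs.1 hz).2 with h3 | h3
  · exact wrd_fre hW hw hk h1 h3
  · exact wrd_fre hW hw hk h2 h3

/-- The upper configuration. -/
noncomputable def Upc (D : Dm) (a' b' c' : ℕ) (F : Finset Edg) : Finset Edg := F ∪ Os D a' b' c'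

/-- The lower configuration. -/
noncomputable def Loc (D : Dm) (a b c a' b' c' : ℕ) (F : Finset Edg) : Finset Edg :=
  (F ∪ Os D a' b' c') \ Zs D a b c

theorem Loc_sub : Loc D a b c a' b' c' F ⊆ Upc D a' b' c' F := Finset.sdiff_subset

theorem Upc_sub (hF : F ⊆ D.edges) : Upc D a' b' c' F ⊆ D.edges := by
  intro e he
  rcases Finset.mem_union.1 he with h | h
  · exact hF h
  · exact (mem_Os.1 h).1

/-- Flipped edges. -/
theorem flip (hW : Wide D s) (hw : Wd k a b c a' b' c') (hk : 4 * (k:ℤ) < s) {e : Edg}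
    (he : e ∈ Upc D a' b' c' F) (he' : e ∉ D.cfg (Loc D a b c a' b' c' F)) :
    e ∈ F ∧ e ∈ Zs D a b c := by
  have h1 : e ∈ Zs D a b c := by
    by_contra hcon
    apply he'
    exact Or.inl (by exact_mod_cast Finset.mem_sdiff.2 ⟨he, hcon⟩)
  rcases Finset.mem_union.1 he with h | h
  · exact ⟨h, h1⟩
  · exact absurd h1 (Os_Zs hW hw hk h)

/-- Edges of the lower configuration. -/
theorem cfg_Loc (hW : Wide D s) (hF : F ⊆ D.edges) {e : Edg}
    (he : e ∈ D.cfg (Loc D a b c a' b' c' F)) :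
    (src e ∈ wrd D a' b' c' ∧ tgt e ∈ wrd D a' b' c') ∨
      (e ∈ F ∧ src e ∉ fre D a b c ∧ tgt e ∉ fre D a b c) := by
  rcases he with he | he
  · have he1 := Finset.mem_sdiff.1 (show e ∈ Loc D a b c a' b' c' F by exact_mod_cast he)
    rcases Finset.mem_union.1 he1.1 with h | h
    · right
      refine ⟨h, ?_, ?_⟩
      · intro h2
        exact he1.2 (mem_Zs.2 ⟨hF h, Or.inl h2⟩)
      · intro h2
        exact he1.2 (mem_Zs.2 ⟨hF h, Or.inr h2⟩)
    · left
      exact (mem_Os.1 h).2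
  · left
    exact wir_wrd hW he _ _ _

theorem F_Loc {e : Edg} (he : e ∈ F) (h1 : src e ∉ fre D a b c) (h2 : tgt e ∉ fre D a b c) :
    e ∈ D.cfg (Loc D a b c a' b' c' F) := by
  left
  have : e ∈ Loc D a b c a' b' c' F := by
    refine Finset.mem_sdiff.2 ⟨Finset.mem_union_left _ he, fun h => ?_⟩
    rcases (mem_Zs.1 h).2 with h3 | h3
    · exact h1 h3
    · exact h2 h3
  exact_mod_cast this

theorem O_Loc (hW : Wide D s) (hw : Wd k a b c a' b' c') (hk : 4 * (k:ℤ) < s) {e : Edg}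
    (he : e ∈ D.edges) (h1 : src e ∈ wrd D a' b' c') (h2 : tgt e ∈ wrd D a' b' c') :
    e ∈ D.cfg (Loc D a b c a' b' c' F) := by
  left
  have h3 : e ∈ Os D a' b' c' := mem_Os.2 ⟨he, h1, h2⟩
  have : e ∈ Loc D a b c a' b' c' F :=
    Finset.mem_sdiff.2 ⟨Finset.mem_union_right _ h3, Os_Zs hW hw hk h3⟩
  exact_mod_cast this

theorem edge_ends {e : Edg} : e ∈ D.edges ↔ inR D.l D.r 0 D.h (src e) ∧
    inR D.l D.r 0 D.h (tgt e) := by
  refine ⟨fun h => rect_edge h, ?_⟩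
  obtain ⟨x, y, q⟩ := e
  unfold inR Dm.edges
  cases q
  · rw [mem_RE_false, src_mk, tgt_false]
    simp only
    omega
  · rw [mem_RE_true, src_mk, tgt_true]
    simp only
    omega

/-- The cluster stays in the rectangle and off the free strips. -/
theorem clu_off (hW : Wide D s) (hw : Wd k a b c a' b' c') (hk : 4 * (k:ℤ) < s)
    (hF : F ⊆ D.edges) {v : Vtx} (hv : v ∈ D.clu (Loc D a b c a' b' c' F)) :
    inR D.l D.r 0 D.h v ∧ v ∉ fre D a b c := by
  have hr : Reach (D.cfg (Loc D a b c a' b' c' F)) (0, 0) v := hv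
  induction hr with
  | refl =>
    obtain ⟨h0, h1, h2, h3, h4, h5⟩ := hW
    obtain ⟨w1, w2, w3, w4, w5, w6⟩ := hw
    unfold inR fre
    simp only [Set.mem_ofPred_eq]
    omega
  | @tail y z hy hs ih =>
    obtain ⟨e, he, hE⟩ := adj_En hs
    have h1 := rect_edge (cfg_sub hW.ok (Loc_sub.trans (Upc_sub hF)) he)
    have h2 := cfg_Loc hW hF he
    have h3 : inR D.l D.r 0 D.h y ∧ inR D.l D.r 0 D.h z := (En_src_tgt hE).1 h1
    refine ⟨h3.2, ?_⟩
    rcases h2 with h2 | ⟨-, h2⟩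
    · exact wrd_fre hW hw hk ((En_src_tgt (P := fun u => u ∈ wrd D a' b' c') hE).1 h2).2
    · exact ((En_src_tgt (P := fun u => u ∉ fre D a b c) hE).1 h2).2

/-! ### Straight lines -/

theorem rline {H : Set Edg} {x x' y : ℤ} (hxx : x ≤ x')
    (h : ∀ i, x ≤ i → i < x' → ((i, y, true) : Edg) ∈ H) : Reach H (x, y) (x', y) := by
  obtain ⟨n, rfl⟩ : ∃ n : ℕ, x' = x + n := ⟨(x' - x).toNat, by omega⟩
  clear hxx
  induction n with
  | zero => rw [Nat.cast_zero, add_zero]; exact Reach.refl _ _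
  | succ n ih =>
    have h1 := ih (fun i h1 h2 => h i h1 (by push_cast; omega))
    refine h1.trans (Adj.reach ⟨_, h (x + n) (by omega) (by push_cast; omega), Or.inl ⟨rfl, ?_⟩⟩)
    rw [tgt_true]
    push_cast
    ext
    · simp only; ring
    · rfl

theorem cline {H : Set Edg} {x y y' : ℤ} (hyy : y ≤ y')
    (h : ∀ i, y ≤ i → i < y' → ((x, i, false) : Edg) ∈ H) : Reach H (x, y) (x, y') := by
  obtain ⟨n, rfl⟩ : ∃ n : ℕ, y' = y + n := ⟨(y' - y).toNat, by omega⟩
  clear hyy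
  induction n with
  | zero => rw [Nat.cast_zero, add_zero]; exact Reach.refl _ _
  | succ n ih =>
    have h1 := ih (fun i h1 h2 => h i h1 (by push_cast; omega))
    refine h1.trans (Adj.reach ⟨_, h (y + n) (by omega) (by push_cast; omega), Or.inl ⟨rfl, ?_⟩⟩)
    rw [tgt_false]
    push_cast
    ext
    · rfl
    · simp only; ring

/-- The wired strips belong to the cluster. -/
theorem wrd_clu (hW : Wide D s) (hw : Wd k a b c a' b' c') (hk : 4 * (k:ℤ) < s)
    {v : Vtx} (hv : v ∈ wrd D a' b' c') (hin : inR D.l D.r 0 D.h v) :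
    v ∈ D.clu (Loc D a b c a' b' c' F) := by
  have hO := fun (e : Edg) (he : e ∈ D.edges) (h1 : src e ∈ wrd D a' b' c')
    (h2 : tgt e ∈ wrd D a' b' c') => O_Loc (F := F) hW hw hk he h1 h2
  obtain ⟨x, y⟩ := v
  show Reach (D.cfg (Loc D a b c a' b' c' F)) (0, 0) (x, y)
  obtain ⟨h0, h1, h2, h3, h4, h5⟩ := hW
  obtain ⟨w1, w2, w3, w4, w5, w6⟩ := hw
  unfold wrd at hv
  unfold inR at hin
  simp only [Set.mem_ofPred_eq] at hv hin
  have hor : ∀ i j : ℤ, D.l ≤ i → i < D.r → 0 ≤ j → j ≤ D.h →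
      (i + 1 ≤ D.l + a' ∨ (i + 1 ≤ D.t ∧ D.h - b' ≤ j) ∨ (i + 1 ≤ 0 ∧ j ≤ c')) →
      ((i, j, true) : Edg) ∈ D.cfg (Loc D a b c a' b' c' F) := by
    intro i j g1 g2 g3 g4 g5
    refine hO _ ?_ ?_ ?_
    · unfold Dm.edges; rw [mem_RE_true]; omega
    · unfold wrd; rw [src_mk]; simp only [Set.mem_ofPred_eq]; omega
    · unfold wrd; rw [tgt_true]; simp only [Set.mem_ofPred_eq]; omega
  have hve : ∀ i j : ℤ, D.l ≤ i → i ≤ D.r → 0 ≤ j → j < D.h →
      (i ≤ D.l + a' ∨ (i ≤ D.t ∧ D.h - b' ≤ j) ∨ (i ≤ 0 ∧ j + 1 ≤ c')) →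
      ((i, j, false) : Edg) ∈ D.cfg (Loc D a b c a' b' c' F) := by
    intro i j g1 g2 g3 g4 g5
    refine hO _ ?_ ?_ ?_
    · unfold Dm.edges; rw [mem_RE_false]; omega
    · unfold wrd; rw [src_mk]; simp only [Set.mem_ofPred_eq]; omega
    · unfold wrd; rw [tgt_false]; simp only [Set.mem_ofPred_eq]; omega
  have q1 : ∀ x' : ℤ, D.l ≤ x' → x' ≤ 0 → Reach (D.cfg (Loc D a b c a' b' c' F)) (0, 0) (x', 0) := by
    intro x' g1 g2
    exact (rline g2 (fun i g3 g4 => hor i 0 (by omega) (by omega) le_rfl (by omega)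
      (by omega))).symm
  have q2 : ∀ y' : ℤ, 0 ≤ y' → y' ≤ D.h →
      Reach (D.cfg (Loc D a b c a' b' c' F)) (0, 0) (D.l, y') := by
    intro y' g1 g2
    exact (q1 D.l le_rfl (by omega)).trans (cline g1 (fun i g3 g4 => hve _ i le_rfl (by omega)
      g3 (by omega) (by omega)))
  rcases hv with hv | ⟨hv1, hv2⟩ | ⟨hv1, hv2⟩
  · exact (q2 y (by omega) (by omega)).trans (rline (by omega) (fun i g3 g4 => hor i y g3
      (by omega) (by omega) (by omega) (by omega)))
  · refine ((q2 D.h (by omega) le_rfl).trans (rline (x' := x) (by omega) (fun i g3 g4 =>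
      hor i _ g3 (by omega) (by omega) (by omega) (by omega)))).trans ?_
    exact (cline (by omega) (fun i g3 g4 => hve x i (by omega) (by omega) (by omega) g4
      (by omega))).symm
  · exact (q1 x (by omega) hv1).trans (cline (by omega) (fun i g3 g4 => hve x i (by omega)
      (by omega) g3 (by omega) (by omega)))

/-- Edges off the cluster are random. -/
theorem off_F (hW : Wide D s) (hw : Wd k a b c a' b' c') (hk : 4 * (k:ℤ) < s)
    {g : Edg} (hg : g ∈ D.cfg (Upc D a' b' c' F))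
    (h1 : src g ∉ D.clu (Loc D a b c a' b' c' F)) : g ∈ F := by
  rcases hg with hg | hg
  · rcases Finset.mem_union.1 (show g ∈ Upc D a' b' c' F by exact_mod_cast hg) with h | h
    · exact h
    · exfalso
      have h2 := mem_Os.1 h
      exact h1 (wrd_clu hW hw hk h2.2.1 (edge_ends.1 h2.1).1)
  · exfalso
    exact h1 (wrd_clu hW hw hk (wir_wrd hW hg _ _ _).1 (edge_ends.1 (wir_sub hW.ok hg)).1)

/-- **Position of the flipped edges.** -/
theorem flip_pos (hW : Wide D s) (hw : Wd k a b c a' b' c') (hk : 4 * (k:ℤ) < s) {e : Edg}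
    (hE : e ∈ D.edges) {x v : Vtx} (hxv : En e x v) (hx : x ∉ fre D a b c)
    (hv : v ∈ fre D a b c) :
    (∃ x1 : ℤ, x = (x1, (c:ℤ)) ∧ v = (x1, (c:ℤ) - 1) ∧ 0 < x1 ∧ x1 ≤ D.r - a ∧ 1 ≤ c) ∨
    (∃ x1 : ℤ, x = (x1, D.h - b) ∧ v = (x1, D.h - b + 1) ∧ D.t < x1 ∧ x1 ≤ D.r - a ∧ 1 ≤ b) ∨
    (∃ y : ℤ, x = (D.r - a, y) ∧ v = (D.r - a + 1, y) ∧ c ≤ y ∧ y ≤ D.h - b ∧ 1 ≤ a) ∨
    (∃ y : ℤ, x = (D.t, y) ∧ v = (D.t + 1, y) ∧ D.h - b < y ∧ y ≤ D.h) ∨
    (∃ y : ℤ, x = (0, y) ∧ v = (1, y) ∧ 0 ≤ y ∧ y < c) := by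
  have h1 := (edge_ends.1 hE)
  obtain ⟨⟨h0, h2, h3, h4, h5, h6⟩, w1, w2, w3, w4, w5, w6⟩ := And.intro hW hw
  obtain ⟨x0, y0⟩ := x
  obtain ⟨v0, u0⟩ := v
  obtain ⟨p, q, o⟩ := e
  unfold fre at hx hv
  simp only [Set.mem_ofPred_eq] at hx hv
  unfold inR at h1
  cases o
  · rw [src_mk, tgt_false] at h1
    rcases hxv with ⟨g1, g2⟩ | ⟨g1, g2⟩
    · rw [src_mk] at g1
      rw [tgt_false] at g2
      simp only [Prod.mk.injEq] at g1 g2
      simp only at h1
      right; left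
      refine ⟨x0, ?_, ?_, ?_, ?_, ?_⟩
      · ext <;> simp only; omega
      · ext <;> simp only <;> omega
      all_goals omega
    · rw [tgt_false] at g1
      rw [src_mk] at g2
      simp only [Prod.mk.injEq] at g1 g2
      simp only at h1
      left
      refine ⟨x0, ?_, ?_, ?_, ?_, ?_⟩
      · ext <;> simp only; omega
      · ext <;> simp only <;> omega
      all_goals omega
  · rw [src_mk, tgt_true] at h1
    rcases hxv with ⟨g1, g2⟩ | ⟨g1, g2⟩
    · rw [src_mk] at g1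
      rw [tgt_true] at g2
      simp only [Prod.mk.injEq] at g1 g2
      simp only at h1
      right; right
      by_cases c1 : x0 = D.r - a
      · left
        refine ⟨y0, ?_, ?_, ?_, ?_, ?_⟩
        · ext <;> simp only; omega
        · ext <;> simp only <;> omega
        all_goals omega
      right
      by_cases c2 : x0 = D.t ∧ D.h - b < y0
      · left
        refine ⟨y0, ?_, ?_, ?_, ?_⟩
        · ext <;> simp only; omega
        · ext <;> simp only <;> omega
        all_goals omega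
      right
      refine ⟨y0, ?_, ?_, ?_, ?_⟩
      · ext <;> simp only; omega
      · ext <;> simp only <;> omega
      all_goals omega
    · exfalso
      rw [tgt_true] at g1
      rw [src_mk] at g2
      simp only [Prod.mk.injEq] at g1 g2
      simp only at h1
      omega

/-- First visit of the wired strips. -/
theorem first_wrd (hW : Wide D s) (hw : Wd k a b c a' b' c') (hk : 4 * (k:ℤ) < s)
    (hF : F ⊆ D.edges) {x : Vtx} (hx : x ∈ D.clu (Loc D a b c a' b' c' F)) :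
    ∃ w ∈ wrd D a' b' c', inR D.l D.r 0 D.h w ∧
      Reach ({g | g ∈ F ∧ g ∈ D.cfg (Loc D a b c a' b' c' F)}) x w := by
  have hr : Reach (D.cfg (Loc D a b c a' b' c' F)) (0, 0) x := hx
  induction hr with
  | refl =>
    obtain ⟨h0, h1, h2, h3, h4, h5⟩ := hW
    refine ⟨(0, 0), ?_, ?_, Reach.refl _ _⟩
    · unfold wrd; simp only [Set.mem_ofPred_eq]; omega
    · unfold inR; simp only; omega
  | @tail y z hy hs ih =>
    obtain ⟨w, w1, w2, w3⟩ := ih hy
    obtain ⟨e, he, hE⟩ := adj_En hs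
    rcases cfg_Loc hW hF he with h2 | ⟨h2, -⟩
    · refine ⟨z, ((En_src_tgt (P := fun u => u ∈ wrd D a' b' c') hE).1 h2).2, ?_,
        Reach.refl _ _⟩
      exact (clu_off hW hw hk hF (show z ∈ D.clu (Loc D a b c a' b' c' F) from
        Reach.trans hy hs.reach)).1
    · refine ⟨w, w1, w2, Reach.trans ?_ w3⟩
      exact (En_adj hE (show e ∈ {g | g ∈ F ∧ g ∈ D.cfg (Loc D a b c a' b' c' F)} from
        ⟨h2, he⟩)).reach.symm

end Pool.Agent.H950.EX
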